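import Pool.Agent.X217.EK.Add

/-!
# The exceptional pairs
-/

set_option autoImplicit false
set_option linter.unusedSectionVars false

namespace Pool.Agent.X217.EK

open Finset

open Pool.Agent.Y676.IS (tri tri_ne)

open Pool.Agent.W307.SE (SN Sel)

open Pool.Agent.W307.FK (AVGN SS)

/-! ### Counts -/

lemma cnt_mul {d : ℕ} (hd : 0 < d) (n : ℕ) :
    (((Ioc (0 : ℤ) (0 + (n : ℤ))).filter (fun t => (d : ℤ) ∣ t)).card : ℝ) ≤ (n : ℝ) / d := by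
  have hd' : (0 : ℤ) < (d : ℤ) := by exact_mod_cast hd
  have h := Int.Ioc_filter_modEq_card (0 : ℤ) (0 + (n : ℤ)) hd' 0
  have e0 : (Ioc (0 : ℤ) (0 + (n : ℤ))).filter (fun t => (d : ℤ) ∣ t) =
      (Ioc (0 : ℤ) (0 + (n : ℤ))).filter (fun t => t ≡ 0 [ZMOD (d : ℤ)]) := by
    ext t
    rw [mem_filter, mem_filter, Int.modEq_zero_iff_dvd]
  rw [e0]
  set c := ((Ioc (0 : ℤ) (0 + (n : ℤ))).filter (fun t => t ≡ 0 [ZMOD (d : ℤ)])).card with hc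
  have e1 : (((0 + (n : ℤ) : ℤ) : ℚ) - ((0 : ℤ) : ℚ)) / ((d : ℤ) : ℚ) = (n : ℚ) / d := by
    push_cast
    ring
  have e2 : (((0 : ℤ) : ℚ) - ((0 : ℤ) : ℚ)) / ((d : ℤ) : ℚ) = 0 := by simp
  rw [e1, e2, Int.floor_zero, sub_zero] at h
  have h1 : (0 : ℚ) ≤ (n : ℚ) / d := by positivity
  have h2 : 0 ≤ ⌊(n : ℚ) / d⌋ := Int.floor_nonneg.2 h1
  rw [max_eq_left h2] at h
  have h3 : (c : ℚ) ≤ (n : ℚ) / d := by
    have := Int.floor_le ((n : ℚ) / d)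
    rw [← h] at this
    exact_mod_cast this
  have h4 : ((c : ℚ) : ℝ) ≤ (((n : ℚ) / d : ℚ) : ℝ) := by exact_mod_cast h3
  push_cast at h4
  exact h4

lemma cnt_diff {d : ℕ} (hd : 0 < d) (n : ℕ) {a : ℤ} (ha : a ∈ Ioc (0 : ℤ) (0 + (n : ℤ))) :
    (((Ioc (0 : ℤ) (0 + (n : ℤ))).filter (fun t => a ≠ t ∧ (d : ℤ) ∣ a - t)).card : ℝ) ≤
      (n : ℝ) / d := by
  have h := (abs_le.1 (cntAP hd a 0 n)).2
  have e0 : (Ioc (0 : ℤ) (0 + (n : ℤ))).filter (fun t => a ≠ t ∧ (d : ℤ) ∣ a - t) =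
      ((Ioc (0 : ℤ) (0 + (n : ℤ))).filter (fun t => t ≡ a [ZMOD (d : ℤ)])).erase a := by
    ext t
    rw [mem_filter, mem_erase, mem_filter, Int.modEq_iff_dvd]
    tauto
  have hm : a ∈ (Ioc (0 : ℤ) (0 + (n : ℤ))).filter (fun t => t ≡ a [ZMOD (d : ℤ)]) :=
    mem_filter.2 ⟨ha, Int.ModEq.refl a⟩
  have h1 := card_erase_add_one hm
  rw [← e0] at h1
  have h2 : (((Ioc (0 : ℤ) (0 + (n : ℤ))).filter
      (fun t => a ≠ t ∧ (d : ℤ) ∣ a - t)).card : ℝ) + 1 =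
      ((Ioc (0 : ℤ) (0 + (n : ℤ))).filter (fun t => t ≡ a [ZMOD (d : ℤ)])).card := by
    exact_mod_cast h1
  linarith

lemma card_Ioc0 (n : ℕ) : ((Ioc (0 : ℤ) (0 + (n : ℤ))).card : ℝ) = n := by
  rw [Int.card_Ioc]
  simp

open Classical in
/-- the primes with a square dividing one of the numbers or dividing both -/
noncomputable def TA (n : ℕ) (A B : ℤ) : Finset ℕ :=
  ((Finset.Icc 11 n).filter Nat.Prime).filter (fun p =>
    (p : ℤ) ^ 2 ∣ A ∨ (p : ℤ) ^ 2 ∣ B ∨ (A ≠ B ∧ (p : ℤ) ^ 2 ∣ A - B) ∨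
      ((p : ℤ) ∣ A ∧ (p : ℤ) ∣ B))

lemma le_of_dvd' {n : ℕ} {p : ℕ} {A : ℤ} (h : (p : ℤ) ∣ A) (h0 : A ≠ 0) (hn : A.natAbs ≤ n) :
    p ≤ n := (Nat.le_of_dvd (Int.natAbs_pos.2 h0) (Int.natCast_dvd.1 h)).trans hn

lemma TT_le {n : ℕ} {A B : ℤ} (h : (A, B) ∈ Sq n) (hAB : A ≠ B) (i : Fin 3) :
    (TT (tri i A B).1 (tri i A B).2).card ≤ (TA n A B).card := by
  classical
  unfold Sq at h
  rw [mem_product, mem_Ioc, mem_Ioc] at h
  obtain ⟨⟨h1, h2⟩, h3, h4⟩ := h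
  simp only at h1 h2 h3 h4
  have hA : A ≠ 0 := by omega
  have hB : B ≠ 0 := by omega
  have hAB' : A - B ≠ 0 := sub_ne_zero.2 hAB
  refine card_le_card ?_
  intro p hp
  unfold TT at hp
  rw [mem_filter, mem_pf] at hp
  obtain ⟨⟨hpp, hd, -⟩, h11, hc⟩ := hp
  have hdd := (Nat.prime_iff_prime_int.1 hpp).dvd_or_dvd hd
  have hpn : p ≤ n := by
    have key : (p : ℤ) ∣ A ∨ (p : ℤ) ∣ B ∨ (p : ℤ) ∣ A - B := by
      fin_cases i
      · exact hdd.elim Or.inl fun h => Or.inr (Or.inl h)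
      · change (p : ℤ) ∣ -A ∨ (p : ℤ) ∣ B - A at hdd
        rcases hdd with h | h
        · exact Or.inl ((dvd_neg).1 h)
        · exact Or.inr (Or.inr ((dvd_sub_comm).1 h))
      · change (p : ℤ) ∣ -B ∨ (p : ℤ) ∣ A - B at hdd
        rcases hdd with h | h
        · exact Or.inr (Or.inl ((dvd_neg).1 h))
        · exact Or.inr (Or.inr h)
    rcases key with h | h | h
    · exact le_of_dvd' h hA (by omega)
    · exact le_of_dvd' h hB (by omega)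
    · exact le_of_dvd' h hAB' (by omega)
  unfold TA
  rw [mem_filter, mem_filter, mem_Icc]
  refine ⟨⟨⟨h11, hpn⟩, hpp⟩, ?_⟩
  fin_cases i
  · rcases hc with h | h | h
    · exact Or.inl h
    · exact Or.inr (Or.inl h)
    · exact Or.inr (Or.inr (Or.inr h))
  · change (p : ℤ) ^ 2 ∣ -A ∨ (p : ℤ) ^ 2 ∣ B - A ∨ ((p : ℤ) ∣ -A ∧ (p : ℤ) ∣ B - A) at hc
    rcases hc with h | h | ⟨h, h'⟩
    · exact Or.inl ((dvd_neg).1 h)
    · exact Or.inr (Or.inr (Or.inl ⟨hAB, (dvd_sub_comm).1 h⟩))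
    · have h5 := (dvd_neg).1 h
      exact Or.inr (Or.inr (Or.inr ⟨h5, by simpa using dvd_add h' h5⟩))
  · change (p : ℤ) ^ 2 ∣ -B ∨ (p : ℤ) ^ 2 ∣ A - B ∨ ((p : ℤ) ∣ -B ∧ (p : ℤ) ∣ A - B) at hc
    rcases hc with h | h | ⟨h, h'⟩
    · exact Or.inr (Or.inl ((dvd_neg).1 h))
    · exact Or.inr (Or.inr (Or.inl ⟨hAB, h⟩))
    · have h5 := (dvd_neg).1 h
      exact Or.inr (Or.inr (Or.inr ⟨by simpa using dvd_add h' h5, h5⟩))

open Classical in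
/-- the average number of these primes -/
lemma sum_TA (n : ℕ) : ∑ x ∈ Sq n, ((TA n x.1 x.2).card : ℝ) ≤ 4 * (n : ℝ) ^ 2 := by
  classical
  have hn0 : (0 : ℝ) ≤ n := Nat.cast_nonneg n
  have e1 : ∑ x ∈ Sq n, ((TA n x.1 x.2).card : ℝ) = ∑ p ∈ (Finset.Icc 11 n).filter Nat.Prime,
      (((Sq n).filter (fun x : ℤ × ℤ => (p : ℤ) ^ 2 ∣ x.1 ∨ (p : ℤ) ^ 2 ∣ x.2 ∨
        (x.1 ≠ x.2 ∧ (p : ℤ) ^ 2 ∣ x.1 - x.2) ∨ ((p : ℤ) ∣ x.1 ∧ (p : ℤ) ∣ x.2))).card : ℝ) := by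
    unfold TA
    simp only [card_filter]
    push_cast
    rw [sum_comm]
  rw [e1]
  have key : ∀ p ∈ (Finset.Icc 11 n).filter Nat.Prime,
      (((Sq n).filter (fun x : ℤ × ℤ => (p : ℤ) ^ 2 ∣ x.1 ∨ (p : ℤ) ^ 2 ∣ x.2 ∨
        (x.1 ≠ x.2 ∧ (p : ℤ) ^ 2 ∣ x.1 - x.2) ∨ ((p : ℤ) ∣ x.1 ∧ (p : ℤ) ∣ x.2))).card : ℝ) ≤
        4 * (n : ℝ) ^ 2 * ((p : ℝ) ^ 2)⁻¹ := by
    intro p hp
    have hpp : p.Prime := (mem_filter.1 hp).2
    have hp0 : 0 < p := hpp.pos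
    have hp2 : 0 < p ^ 2 := by positivity
    set I := Ioc (0 : ℤ) (0 + (n : ℤ)) with hI
    have hIc : (I.card : ℝ) = n := card_Ioc0 n
    let S1 : Finset (ℤ × ℤ) := (I.filter (fun t => ((p ^ 2 : ℕ) : ℤ) ∣ t)) ×ˢ I
    let S2 : Finset (ℤ × ℤ) := I ×ˢ (I.filter (fun t => ((p ^ 2 : ℕ) : ℤ) ∣ t))
    let S3 : Finset (ℤ × ℤ) := I.biUnion (fun a =>
      (I.filter (fun t => a ≠ t ∧ ((p ^ 2 : ℕ) : ℤ) ∣ a - t)).image (fun t => (a, t)))
    let S4 : Finset (ℤ × ℤ) := (I.filter (fun t => (p : ℤ) ∣ t)) ×ˢ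
      (I.filter (fun t => (p : ℤ) ∣ t))
    have hsub : (Sq n).filter (fun x : ℤ × ℤ => (p : ℤ) ^ 2 ∣ x.1 ∨ (p : ℤ) ^ 2 ∣ x.2 ∨
        (x.1 ≠ x.2 ∧ (p : ℤ) ^ 2 ∣ x.1 - x.2) ∨ ((p : ℤ) ∣ x.1 ∧ (p : ℤ) ∣ x.2)) ⊆
        ((S1 ∪ S2) ∪ S3) ∪ S4 := by
      rintro ⟨a, b⟩ hx
      rw [mem_filter] at hx
      obtain ⟨hx1, hx2⟩ := hx
      unfold Sq at hx1
      rw [mem_product] at hx1
      have hcast : ((p ^ 2 : ℕ) : ℤ) = (p : ℤ) ^ 2 := by push_cast; rfl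
      simp only [mem_union, S1, S2, S3, S4, mem_product, mem_filter, mem_biUnion, mem_image, hcast]
      rcases hx2 with h | h | h | h
      · exact Or.inl (Or.inl (Or.inl ⟨⟨hx1.1, h⟩, hx1.2⟩))
      · exact Or.inl (Or.inl (Or.inr ⟨hx1.1, hx1.2, h⟩))
      · exact Or.inl (Or.inr ⟨a, hx1.1, b, ⟨hx1.2, h⟩, rfl⟩)
      · exact Or.inr ⟨⟨hx1.1, h.1⟩, hx1.2, h.2⟩
    have hcast2 : (((p ^ 2 : ℕ)) : ℝ) = (p : ℝ) ^ 2 := by push_cast; rfl
    have c0 := cnt_mul hp2 n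
    rw [hcast2] at c0
    have c0' := cnt_mul hp0 n
    have c1 : (S1.card : ℝ) ≤ (n : ℝ) / (p : ℝ) ^ 2 * n := by
      simp only [S1]
      rw [card_product]
      push_cast
      rw [hIc]
      exact mul_le_mul_of_nonneg_right c0 hn0
    have c2 : (S2.card : ℝ) ≤ n * ((n : ℝ) / (p : ℝ) ^ 2) := by
      simp only [S2]
      rw [card_product]
      push_cast
      rw [hIc]
      exact mul_le_mul_of_nonneg_left c0 hn0
    have c3 : (S3.card : ℝ) ≤ n * ((n : ℝ) / (p : ℝ) ^ 2) := by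
      have h1 : (S3.card : ℝ) ≤ ∑ a ∈ I, (((I.filter (fun t => a ≠ t ∧
          ((p ^ 2 : ℕ) : ℤ) ∣ a - t)).image (fun t => (a, t))).card : ℝ) := by
        exact_mod_cast card_biUnion_le
      have h2 : ∑ a ∈ I, (((I.filter (fun t => a ≠ t ∧
          ((p ^ 2 : ℕ) : ℤ) ∣ a - t)).image (fun t => (a, t))).card : ℝ) ≤
          ∑ a ∈ I, (n : ℝ) / (p : ℝ) ^ 2 := by
        refine sum_le_sum fun a ha => ?_
        have h3 := cnt_diff hp2 n ha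
        rw [hcast2] at h3
        refine le_trans ?_ h3
        exact_mod_cast card_image_le
      rw [sum_const, nsmul_eq_mul, hIc] at h2
      exact h1.trans h2
    have c4 : (S4.card : ℝ) ≤ (n : ℝ) / p * ((n : ℝ) / p) := by
      simp only [S4]
      rw [card_product]
      push_cast
      exact mul_le_mul c0' c0' (Nat.cast_nonneg _) (by positivity)
    have h5 : (((Sq n).filter (fun x : ℤ × ℤ => (p : ℤ) ^ 2 ∣ x.1 ∨ (p : ℤ) ^ 2 ∣ x.2 ∨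
        (x.1 ≠ x.2 ∧ (p : ℤ) ^ 2 ∣ x.1 - x.2) ∨ ((p : ℤ) ∣ x.1 ∧ (p : ℤ) ∣ x.2))).card : ℝ) ≤
        S1.card + S2.card + S3.card + S4.card := by
      have h6 := card_le_card hsub
      have h7 := card_union_le ((S1 ∪ S2) ∪ S3) S4
      have h8 := card_union_le (S1 ∪ S2) S3
      have h9 := card_union_le S1 S2
      have h10 := h6.trans (h7.trans (Nat.add_le_add_right (h8.trans
        (Nat.add_le_add_right h9 _)) _))
      refine (Nat.cast_le (α := ℝ).2 h10).trans (le_of_eq ?_)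
      rw [Nat.cast_add, Nat.cast_add, Nat.cast_add]
    refine h5.trans ?_
    have hpr : (0 : ℝ) < p := by exact_mod_cast hp0
    have e2 : (n : ℝ) / p * ((n : ℝ) / p) = (n : ℝ) ^ 2 * ((p : ℝ) ^ 2)⁻¹ := by
      field_simp
    have e3 : n * ((n : ℝ) / (p : ℝ) ^ 2) = (n : ℝ) ^ 2 * ((p : ℝ) ^ 2)⁻¹ := by
      field_simp
    have e4 : (n : ℝ) / (p : ℝ) ^ 2 * n = (n : ℝ) ^ 2 * ((p : ℝ) ^ 2)⁻¹ := by
      field_simp
    rw [e2] at c4
    rw [e3] at c2 c3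
    rw [e4] at c1
    linarith
  refine (sum_le_sum key).trans ?_
  rw [← mul_sum]
  have h1 : ∑ p ∈ (Finset.Icc 11 n).filter Nat.Prime, ((p : ℝ) ^ 2)⁻¹ ≤ 1 := by
    have h2 : ∑ p ∈ (Finset.Icc 11 n).filter Nat.Prime, ((p : ℝ) ^ 2)⁻¹ ≤
        ∑ p ∈ Finset.Ioc 1 (n + 1), ((p : ℝ) ^ 2)⁻¹ := by
      refine sum_le_sum_of_subset_of_nonneg ?_ fun _ _ _ => by positivity
      intro p hp
      simp only [mem_filter, mem_Icc] at hp
      rw [mem_Ioc]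
      omega
    have h3 := sum_Ioc_inv_sq_le_sub (α := ℝ) (k := 1) (n := n + 1) one_ne_zero (by omega)
    refine h2.trans (h3.trans ?_)
    have : (0 : ℝ) ≤ ((n + 1 : ℕ) : ℝ)⁻¹ := by positivity
    push_cast at this ⊢
    linarith
  have h2 : 4 * (n : ℝ) ^ 2 * ∑ p ∈ (Finset.Icc 11 n).filter Nat.Prime, ((p : ℝ) ^ 2)⁻¹ ≤
      4 * (n : ℝ) ^ 2 * 1 := mul_le_mul_of_nonneg_left h1 (by positivity)
  linarith

open Classical in
/-- few pairs have many of these primes -/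
lemma many_TA {K : ℕ} (hK : 0 < K) (n : ℕ) :
    (((Sq n).filter (fun x : ℤ × ℤ => K ≤ (TA n x.1 x.2).card)).card : ℝ) ≤
      4 * (n : ℝ) ^ 2 / K := by
  have hK0 : (0 : ℝ) < K := by exact_mod_cast hK
  rw [le_div_iff₀ hK0, ← nsmul_eq_mul]
  refine le_trans (card_nsmul_le_sum _ (fun x : ℤ × ℤ => ((TA n x.1 x.2).card : ℝ)) _ ?_) ?_
  · intro x hx
    exact_mod_cast (mem_filter.1 hx).2
  · refine le_trans (sum_le_sum_of_subset_of_nonneg (filter_subset _ _)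
      fun _ _ _ => Nat.cast_nonneg _) (sum_TA n)

/-! ### The 2-Selmer groups -/

open Classical in
/-- coprime pairs -/
lemma sn_cop : ∃ C : ℝ, 0 ≤ C ∧ ∀ (D : ℕ) (R n : ℕ), 1 ≤ D → 1 ≤ n →
    (((Finset.Icc 1 n ×ˢ Finset.Icc 1 n).filter (fun t : ℕ × ℕ => IsCoprime (t.1 : ℤ) (t.2 : ℤ) ∧
      t.1 ≠ t.2 ∧ (2 : ℝ) ^ (R + 1) ≤ SN (D * t.1) (D * t.2))).card : ℝ) * 2 ^ (R + 1) ≤
      C * 128 ^ D * n ^ 2 := by
  obtain ⟨C, hC0, hC⟩ := Pool.Agent.W307.FK.avgn_of Pool.Agent.W307.FK.expf 0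
  refine ⟨C, hC0, fun D R n hD hn => ?_⟩
  have h1 := hC D 0 0 n (by omega) hn (by simp) (by simp)
  have h2 : C * 128 ^ ((D : ℤ).natAbs.primeFactors.card) * (n : ℝ) ^ 2 ≤
      C * 128 ^ D * (n : ℝ) ^ 2 := by
    refine mul_le_mul_of_nonneg_right (mul_le_mul_of_nonneg_left ?_ hC0) (by positivity)
    refine pow_le_pow_right₀ (by norm_num) ?_
    rw [Int.natAbs_natCast]
    have h3 : D.primeFactors ⊆ Finset.Icc 1 D := by
      intro p hp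
      rw [Nat.mem_primeFactors] at hp
      rw [mem_Icc]
      exact ⟨hp.1.one_lt.le, Nat.le_of_dvd (by omega) hp.2.1⟩
    have h4 := card_le_card h3
    rw [Nat.card_Icc] at h4
    omega
  refine le_trans ?_ (h1.trans h2)
  rw [← nsmul_eq_mul]
  refine (card_nsmul_le_sum _ (fun t : ℕ × ℕ => SS D (0 + (t.1 : ℤ), 0 + (t.2 : ℤ))) _ ?_).trans ?_
  · intro t ht
    obtain ⟨ht1, ht2, ht3, ht4⟩ := mem_filter.1 ht
    rw [mem_product, mem_Icc, mem_Icc] at ht1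
    have b7 : (1 : ℝ) ≤ SN (D * t.1) (D * t.2) := (one_le_pow₀ (by norm_num)).trans ht4
    unfold SS
    rw [zero_add, zero_add, if_pos ⟨ht2, by omega, by omega, by omega⟩]
    change (2 : ℝ) ^ (R + 1) ≤ SN (D * t.1) (D * t.2) ^ 2
    nlinarith
  · refine sum_le_sum_of_subset_of_nonneg (filter_subset _ _) fun t _ _ => ?_
    unfold SS
    split_ifs
    · positivity
    · exact le_rfl

open Classical in
/-- pairs with a large common divisor -/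
lemma large_gcd {D0 : ℕ} (hD0 : 0 < D0) (n : ℕ) :
    (((Sq n).filter (fun x : ℤ × ℤ => D0 < Int.gcd x.1 x.2)).card : ℝ) ≤ (n : ℝ) ^ 2 / D0 := by
  have hn0 : (0 : ℝ) ≤ n := Nat.cast_nonneg n
  have hsub : (Sq n).filter (fun x : ℤ × ℤ => D0 < Int.gcd x.1 x.2) ⊆
      (Finset.Ioc D0 (max (D0 + 1) n)).biUnion (fun d =>
        ((Ioc (0 : ℤ) (0 + (n : ℤ))).filter (fun t => (d : ℤ) ∣ t)) ×ˢ
        ((Ioc (0 : ℤ) (0 + (n : ℤ))).filter (fun t => (d : ℤ) ∣ t))) := by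
    rintro ⟨a, b⟩ hx
    rw [mem_filter] at hx
    obtain ⟨hx1, hx2⟩ := hx
    unfold Sq at hx1
    rw [mem_product] at hx1
    rw [mem_biUnion]
    refine ⟨Int.gcd a b, ?_, ?_⟩
    · rw [Finset.mem_Ioc]
      refine ⟨hx2, ?_⟩
      have h1 : a ∈ Ioc (0 : ℤ) (0 + (n : ℤ)) := hx1.1
      rw [Finset.mem_Ioc] at h1
      have h2 := Int.le_of_dvd h1.1 (Int.gcd_dvd_left a b)
      refine le_trans ?_ (le_max_right _ _)
      omega
    · rw [mem_product, mem_filter, mem_filter]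
      exact ⟨⟨hx1.1, Int.gcd_dvd_left a b⟩, hx1.2, Int.gcd_dvd_right a b⟩
  have h1 : (((Sq n).filter (fun x : ℤ × ℤ => D0 < Int.gcd x.1 x.2)).card : ℝ) ≤
      ∑ d ∈ Finset.Ioc D0 (max (D0 + 1) n),
        ((((Ioc (0 : ℤ) (0 + (n : ℤ))).filter (fun t => (d : ℤ) ∣ t)) ×ˢ
        ((Ioc (0 : ℤ) (0 + (n : ℤ))).filter (fun t => (d : ℤ) ∣ t))).card : ℝ) := by
    exact_mod_cast (card_le_card hsub).trans card_biUnion_le
  refine h1.trans ?_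
  have h2 : ∀ d ∈ Finset.Ioc D0 (max (D0 + 1) n),
      ((((Ioc (0 : ℤ) (0 + (n : ℤ))).filter (fun t => (d : ℤ) ∣ t)) ×ˢ
        ((Ioc (0 : ℤ) (0 + (n : ℤ))).filter (fun t => (d : ℤ) ∣ t))).card : ℝ) ≤
        (n : ℝ) ^ 2 * ((d : ℝ) ^ 2)⁻¹ := by
    intro d hd
    have hd0 : 0 < d := by
      have := (Finset.mem_Ioc.1 hd).1
      omega
    have c := cnt_mul hd0 n
    rw [card_product]
    push_cast
    refine (mul_le_mul c c (Nat.cast_nonneg _) (by positivity)).trans (le_of_eq ?_)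
    have : (d : ℝ) ≠ 0 := by exact_mod_cast hd0.ne'
    field_simp
  refine (sum_le_sum h2).trans ?_
  rw [← mul_sum, div_eq_mul_inv]
  refine mul_le_mul_of_nonneg_left ?_ (by positivity)
  have h3 := sum_Ioc_inv_sq_le_sub (α := ℝ) (k := D0) (n := max (D0 + 1) n) (by omega)
    ((by omega : D0 ≤ D0 + 1).trans (le_max_left _ _))
  refine h3.trans ?_
  have : (0 : ℝ) ≤ ((max (D0 + 1) n : ℕ) : ℝ)⁻¹ := by positivity
  linarith

open Classical in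
/-- **few pairs have a large 2-Selmer group** -/
theorem sn_all {ε : ℝ} (hε : 0 < ε) : ∃ R : ℕ, ∀ n : ℕ, 1 ≤ n →
    (((Sq n).filter (fun x : ℤ × ℤ => x.1 ≠ x.2 ∧ (2 : ℝ) ^ (R + 1) ≤ SN x.1 x.2)).card : ℝ) ≤
      ε * n ^ 2 := by
  obtain ⟨C, hC0, hC⟩ := sn_cop
  obtain ⟨D0, hD0⟩ := exists_nat_gt (2 / ε)
  have hD0' : (0 : ℝ) < D0 := lt_trans (by positivity) hD0
  have hD1 : 0 < D0 := by exact_mod_cast hD0'
  obtain ⟨R, hR⟩ := pow_unbounded_of_one_lt (2 * D0 * (C * 128 ^ D0) / ε)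
    (one_lt_two : (1 : ℝ) < 2)
  refine ⟨R, fun n hn => ?_⟩
  have hnn : (0 : ℝ) ≤ (n : ℝ) ^ 2 := by positivity
  let Bd : ℕ → Finset (ℤ × ℤ) := fun D => (Sq n).filter (fun x : ℤ × ℤ =>
    (x.1 ≠ x.2 ∧ (2 : ℝ) ^ (R + 1) ≤ SN x.1 x.2) ∧ Int.gcd x.1 x.2 = D)
  have hsub : (Sq n).filter (fun x : ℤ × ℤ => x.1 ≠ x.2 ∧ (2 : ℝ) ^ (R + 1) ≤ SN x.1 x.2) ⊆
      (Finset.Icc 1 D0).biUnion Bd ∪ (Sq n).filter (fun x : ℤ × ℤ => D0 < Int.gcd x.1 x.2) := by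
    rintro ⟨a, b⟩ hx
    rw [mem_filter] at hx
    rw [mem_union, mem_biUnion, mem_filter]
    by_cases hg : D0 < Int.gcd a b
    · exact Or.inr ⟨hx.1, hg⟩
    · left
      refine ⟨Int.gcd a b, ?_, ?_⟩
      · rw [mem_Icc]
        have hx1 := hx.1
        unfold Sq at hx1
        rw [mem_product, Finset.mem_Ioc] at hx1
        have : Int.gcd a b ≠ 0 := by
          rw [Ne, Int.gcd_eq_zero_iff]
          intro h
          have := hx1.1.1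
          simp only at this
          omega
        omega
      · exact mem_filter.2 ⟨hx.1, hx.2, rfl⟩
  have hB : ∀ D ∈ Finset.Icc 1 D0, ((Bd D).card : ℝ) ≤ C * 128 ^ D0 * n ^ 2 / 2 ^ (R + 1) := by
    intro D hD
    rw [mem_Icc] at hD
    have h1 := hC D R n hD.1 hn
    rw [le_div_iff₀ (by positivity)]
    have h2 : C * 128 ^ D * (n : ℝ) ^ 2 ≤ C * 128 ^ D0 * n ^ 2 :=
      mul_le_mul_of_nonneg_right (mul_le_mul_of_nonneg_left
        (pow_le_pow_right₀ (by norm_num) hD.2) hC0) hnn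
    refine le_trans (mul_le_mul_of_nonneg_right ?_ (by positivity)) (h1.trans h2)
    have hinj : (Bd D).card ≤ ((Finset.Icc 1 n ×ˢ Finset.Icc 1 n).filter (fun t : ℕ × ℕ =>
        IsCoprime (t.1 : ℤ) (t.2 : ℤ) ∧ t.1 ≠ t.2 ∧
          (2 : ℝ) ^ (R + 1) ≤ SN (D * t.1) (D * t.2))).card := by
      have hex : ∀ x ∈ Bd D, ∃ t : ℕ × ℕ, x = ((D : ℤ) * t.1, (D : ℤ) * t.2) ∧
          t ∈ (Finset.Icc 1 n ×ˢ Finset.Icc 1 n).filter (fun t : ℕ × ℕ =>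
          IsCoprime (t.1 : ℤ) (t.2 : ℤ) ∧ t.1 ≠ t.2 ∧
          (2 : ℝ) ^ (R + 1) ≤ SN (D * t.1) (D * t.2)) := by
        rintro ⟨a, b⟩ hx
        simp only [Bd] at hx
        rw [mem_filter] at hx
        obtain ⟨hx1, ⟨hx2, hx3⟩, hx4⟩ := hx
        simp only at hx2 hx3 hx4
        unfold Sq at hx1
        rw [mem_product, Finset.mem_Ioc, Finset.mem_Ioc] at hx1
        obtain ⟨⟨a1, a2⟩, b1, b2⟩ := hx1
        simp only at a1 a2 b1 b2
        have hDpos : 0 < Int.gcd a b := by omega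
        obtain ⟨a', b', hcop, ha, hb⟩ := Int.exists_gcd_one hDpos
        rw [hx4] at ha hb
        have hDz : (0 : ℤ) < (D : ℤ) := by exact_mod_cast hD.1
        have ha' : 0 < a' := by
          by_contra h
          have : a' * D ≤ 0 := mul_nonpos_of_nonpos_of_nonneg (not_lt.1 h) hDz.le
          omega
        have hb' : 0 < b' := by
          by_contra h
          have : b' * D ≤ 0 := mul_nonpos_of_nonpos_of_nonneg (not_lt.1 h) hDz.le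
          omega
        have ha'' : ((a'.toNat : ℕ) : ℤ) = a' := Int.toNat_of_nonneg ha'.le
        have hb'' : ((b'.toNat : ℕ) : ℤ) = b' := Int.toNat_of_nonneg hb'.le
        have hae : a = (D : ℤ) * a' := by rw [ha]; ring
        have hbe : b = (D : ℤ) * b' := by rw [hb]; ring
        refine ⟨(a'.toNat, b'.toNat), ?_, ?_⟩
        · simp only [ha'', hb'']
          rw [← hae, ← hbe]
        · rw [mem_filter, mem_product, mem_Icc, mem_Icc]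
          simp only [ha'', hb'']
          rw [← hae, ← hbe]
          have hale : a' ≤ a := by nlinarith
          have hble : b' ≤ b := by nlinarith
          refine ⟨⟨⟨by omega, by omega⟩, by omega, by omega⟩, ?_, ?_, hx3⟩
          · exact Int.isCoprime_iff_gcd_eq_one.2 hcop
          · intro h
            apply hx2
            have : a' = b' := by omega
            rw [hae, hbe, this]
      choose! f hf1 hf2 using hex
      refine card_le_card_of_injOn f (fun x hx => hf2 x hx) ?_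
      intro x hx y hy hxy
      rw [hf1 x hx, hf1 y hy, hxy]
    exact_mod_cast hinj
  have h1 : (((Sq n).filter (fun x : ℤ × ℤ => x.1 ≠ x.2 ∧
      (2 : ℝ) ^ (R + 1) ≤ SN x.1 x.2)).card : ℝ) ≤
      ∑ D ∈ Finset.Icc 1 D0, ((Bd D).card : ℝ) +
        (((Sq n).filter (fun x : ℤ × ℤ => D0 < Int.gcd x.1 x.2)).card : ℝ) := by
    have h2 := (card_le_card hsub).trans (card_union_le _ _)
    have h3 : ((Finset.Icc 1 D0).biUnion Bd).card ≤ ∑ D ∈ Finset.Icc 1 D0, (Bd D).card :=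
      card_biUnion_le
    exact_mod_cast h2.trans (Nat.add_le_add_right h3 _)
  have h2 := sum_le_sum hB
  rw [sum_const, nsmul_eq_mul, Nat.card_Icc, Nat.add_sub_cancel] at h2
  have h3 := large_gcd hD1 n
  have h4 : (D0 : ℝ) * (C * 128 ^ D0 * n ^ 2 / 2 ^ (R + 1)) ≤ ε / 2 * n ^ 2 := by
    rw [div_lt_iff₀ hε] at hR
    have h5 : (2 : ℝ) ^ R ≤ 2 ^ (R + 1) := pow_le_pow_right₀ (by norm_num) (by omega)
    rw [mul_div_assoc', div_le_iff₀ (by positivity)]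
    have h6 : D0 * (C * 128 ^ D0) ≤ ε / 2 * 2 ^ (R + 1) := by nlinarith
    nlinarith [mul_le_mul_of_nonneg_right h6 hnn]
  have h5 : (n : ℝ) ^ 2 / D0 ≤ ε / 2 * n ^ 2 := by
    rw [div_le_iff₀ hD0']
    rw [div_lt_iff₀ hε] at hD0
    nlinarith
  linarith

end Pool.Agent.X217.EK
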