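import Pool.Agent.X217.EK.Box

/-!
# Perturbation of the characteristic functions, and the limit law
-/

set_option autoImplicit false

namespace Pool.Agent.X217.EK

open Finset Filter Topology MeasureTheory ProbabilityTheory

variable {T : Type*} {d : ℕ}

lemma exp_lip (a b : ℝ) : ‖Complex.exp (Complex.I * (a : ℂ)) - Complex.exp (Complex.I * (b : ℂ))‖ ≤
    |a - b| := by
  have h1 := taylor (a - b) 1
  rw [sum_range_one, pow_zero, Nat.factorial_zero, Nat.cast_one, div_one, pow_one,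
    Nat.factorial_one, Nat.cast_one, div_one] at h1
  have h2 : Complex.exp (Complex.I * (a : ℂ)) - Complex.exp (Complex.I * (b : ℂ)) =
      Complex.exp (Complex.I * (b : ℂ)) * (Complex.exp (Complex.I * ((a - b : ℝ) : ℂ)) - 1) := by
    rw [mul_sub, mul_one, ← Complex.exp_add]
    congr 2
    push_cast
    ring
  have h3 : ‖Complex.exp (Complex.I * (b : ℂ))‖ = 1 := by
    rw [mul_comm]
    exact Complex.norm_exp_ofReal_mul_I b
  rw [h2, norm_mul, h3, one_mul]
  exact h1

lemma exp_two (a b : ℝ) : ‖Complex.exp (Complex.I * (a : ℂ)) - Complex.exp (Complex.I * (b : ℂ))‖ ≤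
    2 := by
  have h3 : ∀ b : ℝ, ‖Complex.exp (Complex.I * (b : ℂ))‖ = 1 := by
    intro b
    rw [mul_comm]
    exact Complex.norm_exp_ofReal_mul_I b
  refine (norm_sub_le _ _).trans ?_
  rw [h3, h3]
  norm_num

open Classical in
/-- **perturbation** -/
theorem pert {Ω : ℕ → Finset T} (hΩ : ∀ᶠ n in atTop, (Ω n).Nonempty) (Z W : ℕ → T → Fin d → ℝ)
    (h : ∀ ε : ℝ, 0 < ε → ∀ η : ℝ, 0 < η → ∀ᶠ n in atTop,
      (((Ω n).filter (fun x => ∃ i, η < |Z n x i - W n x i|)).card : ℝ) ≤ ε * (Ω n).card)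
    (t : Fin d → ℝ) {c : ℂ}
    (hW : Tendsto (fun n => av (Ω n) (fun x => Complex.exp (Complex.I *
      ((∑ i, t i * W n x i : ℝ) : ℂ)))) atTop (𝓝 c)) :
    Tendsto (fun n => av (Ω n) (fun x => Complex.exp (Complex.I *
      ((∑ i, t i * Z n x i : ℝ) : ℂ)))) atTop (𝓝 c) := by
  have key : Tendsto (fun n => av (Ω n) (fun x => Complex.exp (Complex.I *
      ((∑ i, t i * Z n x i : ℝ) : ℂ))) - av (Ω n) (fun x => Complex.exp (Complex.I *
      ((∑ i, t i * W n x i : ℝ) : ℂ)))) atTop (𝓝 0) := by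
    rw [Metric.tendsto_nhds]
    intro δ hδ
    set S := ∑ i, |t i| with hS
    have hS0 : 0 ≤ S := sum_nonneg fun _ _ => abs_nonneg _
    filter_upwards [hΩ, h (δ / 8) (by positivity) (δ / (4 * (S + 1))) (by positivity)] with n h1 h2
    rw [dist_zero_right, ← av_sub]
    refine lt_of_le_of_lt (norm_av _ _) ?_
    have hc : (0 : ℝ) < (Ω n).card := card_pos' h1
    let bad : Finset T := (Ω n).filter (fun x => ∃ i, δ / (4 * (S + 1)) < |Z n x i - W n x i|)
    have h3 : avr (Ω n) (fun x => ‖Complex.exp (Complex.I * ((∑ i, t i * Z n x i : ℝ) : ℂ)) -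
        Complex.exp (Complex.I * ((∑ i, t i * W n x i : ℝ) : ℂ))‖) ≤
        avr (Ω n) (fun x => δ / 4 + 2 * (if ∃ i, δ / (4 * (S + 1)) < |Z n x i - W n x i|
          then (1 : ℝ) else 0)) := by
      refine avr_mono fun x _ => ?_
      split_ifs with hx
      · have := exp_two (∑ i, t i * Z n x i) (∑ i, t i * W n x i)
        linarith
      · have h4 := exp_lip (∑ i, t i * Z n x i) (∑ i, t i * W n x i)
        push Not at hx
        have h5 : |∑ i, t i * Z n x i - ∑ i, t i * W n x i| ≤ S * (δ / (4 * (S + 1))) := by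
          rw [← sum_sub_distrib, hS, sum_mul]
          refine (abs_sum_le_sum_abs _ _).trans (sum_le_sum fun i _ => ?_)
          rw [← mul_sub, abs_mul]
          exact mul_le_mul_of_nonneg_left (hx i) (abs_nonneg _)
        have h6 : S * (δ / (4 * (S + 1))) ≤ δ / 4 := by
          rw [mul_div_assoc', div_le_div_iff₀ (by positivity) (by norm_num)]
          nlinarith
        linarith
    refine lt_of_le_of_lt h3 ?_
    rw [avr_add, avr_const h1, avr_mul]
    have h4 : avr (Ω n) (fun x => if ∃ i, δ / (4 * (S + 1)) < |Z n x i - W n x i|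
        then (1 : ℝ) else 0) ≤ δ / 8 := by
      unfold avr
      rw [div_le_iff₀ hc, sum_boole]
      exact h2
    linarith
  have h1 := key.add hW
  rw [zero_add] at h1
  refine (tendsto_congr fun n => ?_).1 h1
  ring

open Classical in
/-- **the limit law** -/
theorem law {Ω : ℕ → Finset T} (hΩ : ∀ᶠ n in atTop, (Ω n).Nonempty) (Z : ℕ → T → Fin d → ℝ)
    (h : ∀ t : Fin d → ℝ, Tendsto (fun n => av (Ω n) (fun x => Complex.exp (Complex.I *
      ((∑ i, t i * Z n x i : ℝ) : ℂ)))) atTop (𝓝 (Complex.exp (-((∑ i, t i ^ 2 : ℝ) : ℂ) / 2))))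
    (z : Fin d → ℝ) :
    Tendsto (fun n => (((Ω n).filter (fun x => ∀ i, Z n x i ≤ z i)).card : ℝ) / (Ω n).card) atTop
      (𝓝 (∏ i, (gaussianReal 0 1).real (Set.Iic (z i)))) := by
  obtain ⟨m, hm⟩ := eventually_atTop.1 hΩ
  have h1 := box (Ω := fun n => Ω (n + m)) (fun n => hm _ (by omega)) (fun n => Z (n + m))
    (fun t => (h t).comp (tendsto_add_atTop_nat m)) z
  exact (tendsto_add_atTop_iff_nat m).1 h1

end Pool.Agent.X217.EK
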