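import Pool.Agent.X217.EK.Exc
import Pool.Agent.X217.EK.Pert

/-!
# The limit law for the quotients
-/

set_option autoImplicit false
set_option linter.unusedSectionVars false

namespace Pool.Agent.X217.EK

open Finset Filter Topology MeasureTheory ProbabilityTheory

open Pool.Agent.TH841.SH.D

open Pool.Agent.TH841.LS (WI)

open Pool.Agent.Y676.IS (tri tri_ne)

open Pool.Agent.W307.SE (SN Sel)

/-- the logarithm of the order of the Tate-Shafarevich group of the quotient -/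
noncomputable def LG (j : ℕ) (i : Fin 3) (x : ℤ × ℤ) : ℝ :=
  Real.logb 2 (Nat.card (ShaTor (WI (tri i x.1 x.2).1 (tri i x.1 x.2).2) (2 ^ j)))

/-- the normalised variables -/
noncomputable def Zv (J : ℕ → ℕ) (n : ℕ) (x : ℤ × ℤ) (i : Fin 3) : ℝ :=
  (LG (J n) i x - 3 / 2 * ell n) / √(5 / 2 * ell n)

/-- the model variables -/
noncomputable def Wv (n : ℕ) (x : ℤ × ℤ) (i : Fin 3) : ℝ :=
  (∑ p ∈ PP n, (Fl i p (red2 p x) - me (Fl i p))) / √(5 / 2 * ell n)

lemma SN_tri (i : Fin 3) {A B : ℤ} (hA : A ≠ 0) (hB : B ≠ 0) (hAB : A ≠ B) :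
    SN (tri i A B).1 (tri i A B).2 = SN A B := by
  unfold SN
  rw [(Pool.Agent.Y676.IS.sel_tri hA hB hAB i).2]

/-- the error -/
noncomputable def err (K R : ℕ) (J : ℕ → ℕ) (i : Fin 3) (n : ℕ) : ℝ :=
  (3 * K + (R + 12) * (J n + 1) + 12 * rr n + |∑ p ∈ PP n, me (Fl i p) - 3 / 2 * ell n|) /
    √(5 / 2 * ell n)

lemma gl_single (i : Fin 3) (p : Pr) (r : ZMod p.1 × ZMod p.1) :
    gl (Pi.single i 1) p r = Fl i p r := by
  unfold gl
  fin_cases i <;> simp

lemma sum_me_i (i : Fin 3) : Tendsto (fun n => (∑ p ∈ PP n, me (Fl i p) - 3 / 2 * ell n) /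
    √(ell n)) atTop (𝓝 0) := by
  have h := sum_me (Pi.single i 1)
  refine (tendsto_congr fun n => ?_).1 h
  have e1 : ∀ p, gl (Pi.single i 1) p = Fl i p := fun p => funext fun r => gl_single i p r
  have e2 : (Pi.single i 1 : Fin 3 → ℝ) 0 + (Pi.single i 1 : Fin 3 → ℝ) 1 +
      (Pi.single i 1 : Fin 3 → ℝ) 2 = 1 := by
    fin_cases i <;> simp
  simp only [e1, e2, mul_one]

lemma sqrt52 (n : ℕ) : √(5 / 2 * ell n) = √(5 / 2) * √(ell n) :=
  Real.sqrt_mul (by norm_num) _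

lemma err_tendsto (K R : ℕ) {J : ℕ → ℕ} (hJ : Tendsto (fun n => (J n : ℝ) / √(ell n)) atTop (𝓝 0))
    (i : Fin 3) : Tendsto (err K R J i) atTop (𝓝 0) := by
  have h1 := (sqrt_inv.const_mul (3 * (K : ℝ) + (R + 12))).add (hJ.const_mul ((R : ℝ) + 12))
  have h2 := (h1.add (rr_div.const_mul 12)).add (sum_me_i i).abs
  have h3 := h2.const_mul (√(5 / 2))⁻¹
  simp only [mul_zero, add_zero, abs_zero] at h3
  refine (tendsto_congr fun n => ?_).1 h3
  unfold err
  rw [sqrt52, abs_div, abs_of_nonneg (Real.sqrt_nonneg (ell n))]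
  rw [div_eq_mul_inv _ (√(5 / 2) * √(ell n)), mul_inv]
  ring

/-- the comparison outside the exceptional set -/
lemma compare (K R : ℕ) {J : ℕ → ℕ} (hJ1 : ∀ n, 1 ≤ J n) : ∀ᶠ n in atTop, ∀ x ∈ Sq n,
    x.1 ≠ x.2 → SN x.1 x.2 < 2 ^ (R + 1) → (TA n x.1 x.2).card ≤ K → ∀ i,
      |Zv J n x i - Wv n x i| ≤ err K R J i n := by
  filter_upwards [log_YY, log_div_rr.eventually_ge_atTop 2, tendsto_rr.eventually_ge_atTop 1,
    tendsto_YY.eventually_ge_atTop 1, tendsto_ell.eventually_gt_atTop 0]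
    with n h1 h2 h3 h4 h5 x hx hne hSN hTA i
  obtain ⟨A, B⟩ := x
  simp only at hne hSN hTA
  have hx' := hx
  unfold Sq at hx'
  rw [mem_product, mem_Ioc, mem_Ioc] at hx'
  obtain ⟨⟨a1, a2⟩, b1, b2⟩ := hx'
  simp only at a1 a2 b1 b2
  have hA : A ≠ 0 := by omega
  have hB : B ≠ 0 := by omega
  obtain ⟨t1, t2, t3⟩ := tri_ne hA hB hne i
  have hSN' : SN (tri i A B).1 (tri i A B).2 < 2 ^ (R + 1) := by
    rw [SN_tri i hA hB hne]
    exact hSN
  have g1 := (one t1 t2 t3 hSN' (hJ1 n)).2.2.2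
  have g2 := trunc hA hB hne i n
  have g3 := card_Big hA hB hne h4
  have g4 := log_prod_le hx hne
  have g5 : ((TT (tri i A B).1 (tri i A B).2).card : ℝ) ≤ K := by
    exact_mod_cast (TT_le hx hne i).trans hTA
  -- the number of large primes
  have g6 : ((Big (YY n) A B).card : ℝ) ≤ 6 * rr n := by
    have hr : 0 < rr n := by linarith
    have k1 : Real.log n / rr n / 2 ≤ Real.log (YY n) := by
      have := (abs_le.1 h1).1
      linarith
    have k2 : 0 < Real.log n := by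
      have : 0 < Real.log n / rr n := by linarith
      exact (div_pos_iff_of_pos_right hr).1 this
    have k3 : ((Big (YY n) A B).card : ℝ) * (Real.log n / rr n / 2) ≤ 3 * Real.log n :=
      (mul_le_mul_of_nonneg_left k1 (Nat.cast_nonneg _)).trans (g3.trans g4)
    have k4 : ((Big (YY n) A B).card : ℝ) * (Real.log n / rr n / 2) =
        ((Big (YY n) A B).card : ℝ) / (2 * rr n) * Real.log n := by
      field_simp
    rw [k4] at k3
    have k5 := le_of_mul_le_mul_right k3 k2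
    rw [div_le_iff₀ (by positivity)] at k5
    linarith
  have hs : 0 < √(5 / 2 * ell n) := Real.sqrt_pos.2 (by positivity)
  unfold Zv Wv err
  rw [← sub_div, abs_div, abs_of_pos hs]
  refine div_le_div_of_nonneg_right ?_ hs.le
  have e1 : LG (J n) i (A, B) - 3 / 2 * ell n - ∑ p ∈ PP n, (Fl i p (red2 p (A, B)) - me (Fl i p)) =
      (Real.logb 2 (Nat.card (ShaTor (WI (tri i A B).1 (tri i A B).2) (2 ^ (J n)))) -
        GG (tri i A B).1 (tri i A B).2) +
      (GG (tri i A B).1 (tri i A B).2 - ∑ p ∈ PP n, Fl i p (red2 p (A, B))) +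
      (∑ p ∈ PP n, me (Fl i p) - 3 / 2 * ell n) := by
    unfold LG
    rw [sum_sub_distrib]
    ring
  rw [e1]
  refine (abs_add_le _ _).trans (add_le_add ?_ le_rfl)
  refine (abs_add_le _ _).trans (add_le_add ?_ ?_)
  · refine g1.trans ?_
    have : 3 * ((TT (tri i A B).1 (tri i A B).2).card : ℝ) ≤ 3 * K := by linarith
    linarith
  · linarith

open Classical in
/-- the diagonal -/
lemma card_diag (n : ℕ) : (((Sq n).filter (fun x : ℤ × ℤ => x.1 = x.2)).card : ℝ) ≤ n := by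
  have h1 : ((Sq n).filter (fun x : ℤ × ℤ => x.1 = x.2)).card ≤ (Ioc (0 : ℤ) (0 + (n : ℤ))).card := by
    refine card_le_card_of_injOn (fun x => x.1) ?_ ?_
    · intro x hx
      have hx := (mem_filter.1 hx).1
      unfold Sq at hx
      exact (mem_product.1 hx).1
    · intro x hx y hy hxy
      have h1 := (mem_filter.1 hx).2
      have h2 := (mem_filter.1 hy).2
      simp only at hxy
      exact Prod.ext hxy (by rw [← h1, ← h2]; exact hxy)
  have h2 := card_Ioc0 n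
  rw [← h2]
  exact_mod_cast h1

open Classical in
/-- the exceptional set is small -/
lemma bad_small {J : ℕ → ℕ} (hJ1 : ∀ n, 1 ≤ J n)
    (hJ : Tendsto (fun n => (J n : ℝ) / √(ell n)) atTop (𝓝 0)) {ε : ℝ} (hε : 0 < ε) {η : ℝ}
    (hη : 0 < η) : ∀ᶠ n in atTop,
      (((Sq n).filter (fun x => ∃ i, η < |Zv J n x i - Wv n x i|)).card : ℝ) ≤
        ε * (Sq n).card := by
  obtain ⟨K, hK⟩ := exists_nat_gt (16 / ε)
  have hK0 : (0 : ℝ) < K := lt_trans (by positivity) hK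
  have hK1 : 0 < K := by exact_mod_cast hK0
  obtain ⟨R, hR⟩ := sn_all (show 0 < ε / 4 by positivity)
  have herr : ∀ᶠ n in atTop, ∀ i, err K R J i n ≤ η := by
    rw [eventually_all]
    intro i
    exact (err_tendsto K R hJ i).eventually_le_const hη
  filter_upwards [compare K R hJ1, herr, eventually_ge_atTop 1,
    (tendsto_natCast_atTop_atTop (R := ℝ)).eventually_ge_atTop (4 / ε)] with n h1 h2 h3 h4
  have hn0 : (0 : ℝ) < n := by exact_mod_cast h3
  have hsub : (Sq n).filter (fun x => ∃ i, η < |Zv J n x i - Wv n x i|) ⊆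
      ((Sq n).filter (fun x : ℤ × ℤ => x.1 = x.2) ∪
        (Sq n).filter (fun x : ℤ × ℤ => x.1 ≠ x.2 ∧ (2 : ℝ) ^ (R + 1) ≤ SN x.1 x.2)) ∪
        (Sq n).filter (fun x : ℤ × ℤ => K ≤ (TA n x.1 x.2).card) := by
    intro x hx
    rw [mem_filter] at hx
    obtain ⟨hx1, i, hx2⟩ := hx
    rw [mem_union, mem_union, mem_filter, mem_filter, mem_filter]
    by_contra hcon
    rw [not_or, not_or] at hcon
    obtain ⟨⟨c1, c2⟩, c3⟩ := hcon
    have d1 : x.1 ≠ x.2 := fun h => c1 ⟨hx1, h⟩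
    have d2 : SN x.1 x.2 < 2 ^ (R + 1) := by
      by_contra h
      exact c2 ⟨hx1, d1, not_lt.1 h⟩
    have d3 : (TA n x.1 x.2).card ≤ K := by
      by_contra h
      exact c3 ⟨hx1, (not_le.1 h).le⟩
    have := h1 x hx1 d1 d2 d3 i
    have := h2 i
    linarith
  have h5 := (card_le_card hsub).trans ((card_union_le _ _).trans
    (Nat.add_le_add_right (card_union_le _ _) _))
  have h6 : (((Sq n).filter (fun x => ∃ i, η < |Zv J n x i - Wv n x i|)).card : ℝ) ≤
      ((Sq n).filter (fun x : ℤ × ℤ => x.1 = x.2)).card +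
      ((Sq n).filter (fun x : ℤ × ℤ => x.1 ≠ x.2 ∧ (2 : ℝ) ^ (R + 1) ≤ SN x.1 x.2)).card +
      ((Sq n).filter (fun x : ℤ × ℤ => K ≤ (TA n x.1 x.2).card)).card := by exact_mod_cast h5
  have h7 := card_diag n
  have h8 := hR n h3
  have h9 := many_TA hK1 n
  rw [card_Sq]
  have hnn : (0 : ℝ) < (n : ℝ) ^ 2 := by positivity
  have k1 : (n : ℝ) ≤ ε / 4 * n ^ 2 := by
    rw [div_le_iff₀ hε] at h4
    nlinarith
  have k2 : 4 * (n : ℝ) ^ 2 / K ≤ ε / 4 * n ^ 2 := by
    rw [div_le_iff₀ hK0]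
    rw [div_lt_iff₀ hε] at hK
    nlinarith
  linarith

/-- the characteristic function of the model -/
lemma char_W (t : Fin 3 → ℝ) : Tendsto (fun n => av (Sq n) (fun x => Complex.exp (Complex.I *
      ((∑ i, t i * Wv n x i : ℝ) : ℂ)))) atTop
      (𝓝 (Complex.exp (-((∑ i, t i ^ 2 : ℝ) : ℂ) / 2))) := by
  set c := √(5 / 2 : ℝ) with hc
  have hc0 : 0 < c := Real.sqrt_pos.2 (by norm_num)
  have hc2 : c ^ 2 = 5 / 2 := Real.sq_sqrt (by norm_num)
  have h := char_pairs (fun i => t i / c)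
  have e1 : (5 / 2 * ((t 0 / c) ^ 2 + (t 1 / c) ^ 2 + (t 2 / c) ^ 2) : ℝ) = ∑ i, t i ^ 2 := by
    rw [Fin.sum_univ_three, div_pow, div_pow, div_pow, hc2]
    ring
  rw [e1] at h
  refine (tendsto_congr fun n => ?_).1 h
  congr 1
  funext x
  congr 3
  have e2 : ∀ p : Pr, gl (fun i => t i / c) p (red2 p x) - me (gl (fun i => t i / c) p) =
      ∑ i, t i / c * (Fl i p (red2 p x) - me (Fl i p)) := by
    intro p
    have e3 : me (gl (fun i => t i / c) p) = ∑ i, t i / c * me (Fl i p) := by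
      unfold me
      rw [Fin.sum_univ_three]
      unfold gl
      rw [avr_add, avr_add, avr_mul, avr_mul, avr_mul]
    rw [e3, Fin.sum_univ_three, Fin.sum_univ_three]
    unfold gl
    ring
  rw [sum_congr rfl fun p _ => e2 p, sum_comm]
  unfold Wv
  rw [sqrt52, ← hc, sum_div]
  refine sum_congr rfl fun i _ => ?_
  rw [← mul_sum]
  rw [div_mul_eq_mul_div, div_div, mul_div_assoc]

open Classical in
/-- **the limit law** -/
theorem main {J : ℕ → ℕ} (hJ1 : ∀ n, 1 ≤ J n)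
    (hJ : Tendsto (fun n => (J n : ℝ) / √(ell n)) atTop (𝓝 0)) (z : Fin 3 → ℝ) :
    Tendsto (fun n => (((Sq n).filter (fun x => x.1 ≠ x.2 ∧ ∀ i, Zv J n x i ≤ z i)).card : ℝ) /
      (n : ℝ) ^ 2) atTop (𝓝 (∏ i, (gaussianReal 0 1).real (Set.Iic (z i)))) := by
  have hne : ∀ᶠ n in atTop, (Sq n).Nonempty := by
    filter_upwards [eventually_ge_atTop 1] with n hn
    refine ⟨(1, 1), ?_⟩
    unfold Sq
    rw [mem_product, mem_Ioc]
    simp only
    omega
  have h1 := law hne (Zv J) (fun t => pert hne (Zv J) Wv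
    (fun ε hε η hη => bad_small hJ1 hJ hε hη) t (char_W t)) z
  have h2 : Tendsto (fun n : ℕ => (((Sq n).filter (fun x => x.1 ≠ x.2 ∧
      ∀ i, Zv J n x i ≤ z i)).card : ℝ) / (n : ℝ) ^ 2 -
      (((Sq n).filter (fun x => ∀ i, Zv J n x i ≤ z i)).card : ℝ) / (Sq n).card) atTop (𝓝 0) := by
    rw [tendsto_zero_iff_abs_tendsto_zero]
    have h3 : Tendsto (fun n : ℕ => ((n : ℝ))⁻¹) atTop (𝓝 0) := tendsto_inv_atTop_nhds_zero_nat
    refine squeeze_zero' (Eventually.of_forall fun n => abs_nonneg _) ?_ h3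
    filter_upwards [eventually_ge_atTop 1] with n hn
    rw [Function.comp_apply]
    have hn0 : (0 : ℝ) < n := by exact_mod_cast hn
    rw [card_Sq, ← sub_div, abs_div, abs_of_pos (by positivity : (0 : ℝ) < (n : ℝ) ^ 2)]
    rw [div_le_iff₀ (by positivity)]
    have e1 : (n : ℝ)⁻¹ * (n : ℝ) ^ 2 = n := by
      field_simp
    rw [e1]
    refine le_trans ?_ (card_diag n)
    have k1 : (Sq n).filter (fun x => x.1 ≠ x.2 ∧ ∀ i, Zv J n x i ≤ z i) ⊆
        (Sq n).filter (fun x => ∀ i, Zv J n x i ≤ z i) := by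
      intro x hx
      rw [mem_filter] at hx ⊢
      exact ⟨hx.1, hx.2.2⟩
    have k2 : (Sq n).filter (fun x => ∀ i, Zv J n x i ≤ z i) ⊆
        (Sq n).filter (fun x => x.1 ≠ x.2 ∧ ∀ i, Zv J n x i ≤ z i) ∪
        (Sq n).filter (fun x : ℤ × ℤ => x.1 = x.2) := by
      intro x hx
      rw [mem_union, mem_filter, mem_filter]
      rw [mem_filter] at hx
      by_cases h : x.1 = x.2
      · exact Or.inr ⟨hx.1, h⟩
      · exact Or.inl ⟨hx.1, h, hx.2⟩
    have k3 := card_le_card k1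
    have k4 := (card_le_card k2).trans (card_union_le _ _)
    have k3' : (((Sq n).filter (fun x => x.1 ≠ x.2 ∧ ∀ i, Zv J n x i ≤ z i)).card : ℝ) ≤
        ((Sq n).filter (fun x => ∀ i, Zv J n x i ≤ z i)).card := by exact_mod_cast k3
    have k4' : (((Sq n).filter (fun x => ∀ i, Zv J n x i ≤ z i)).card : ℝ) ≤
        ((Sq n).filter (fun x => x.1 ≠ x.2 ∧ ∀ i, Zv J n x i ≤ z i)).card +
        ((Sq n).filter (fun x : ℤ × ℤ => x.1 = x.2)).card := by exact_mod_cast k4
    rw [abs_le]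
    constructor
    · linarith
    · have : (0 : ℝ) ≤ ((Sq n).filter (fun x : ℤ × ℤ => x.1 = x.2)).card := Nat.cast_nonneg _
      linarith
  have h4 := h2.add h1
  rw [zero_add] at h4
  refine (tendsto_congr fun n => ?_).1 h4
  ring

end Pool.Agent.X217.EK
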