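import Pool.Agent.X217.EK.PenF

/-!
# The limit law for pencils, final form
-/

set_option autoImplicit false
set_option linter.unusedSectionVars false

namespace Pool.Agent.X217.EK

open Finset Filter Topology Polynomial MeasureTheory ProbabilityTheory

open Pool.Agent.W262.RK (fs)

open Pool.Agent.TH841.LS (WI SqMod cst DG sc FP_eq prod_cls card_cls card_cls3 sqMod_scale cst_eq)

open Pool.Agent.TH841.PT (Fval Irr)

open Pool.Agent.TH841.SH.D

open Pool.Agent.W307.SE (SN)

open Pool.Agent.TH841.TR (UP FP allf allc Bal fp)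

variable {n : Fin 3 → ℕ} {m : ℕ}

open Classical in
/-- the variance -/
noncomputable def vc (a : Fin 3 → ℤ) (f : ∀ k : Fin 3, Fin (n k) → ℤ[X]) (c : ℤ)
    (g : Fin m → ℤ[X]) : ℝ :=
  (n 0 : ℝ) + n 1 +
    ((n 2 : ℝ) + (univ.filter (fun i => SqMod (f 2 i) (DG c g * UP a f 0))).card) / 2 +
    ((univ.filter (fun i => ¬ SqMod (g i) (UP a f 0 * UP a f 1))).card : ℝ) / 2

lemma vst_eq {c : ℤ} (hc : c ≠ 0) (a : Fin 3 → ℤ) (f : ∀ k : Fin 3, Fin (n k) → ℤ[X])
    (g : Fin m → ℤ[X]) :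
    vst (allc n m) (fun k => c * a k) (allf g f) = vc a f c g := by
  classical
  have q0 : (univ.filter (fun j => allc n m j = 0)).card = n 0 :=
    Pool.Agent.TH841.TR.card_allc' (n := n) (m := m) 0
  have q1 : (univ.filter (fun j => allc n m j = 1)).card = n 1 :=
    Pool.Agent.TH841.TR.card_allc' (n := n) (m := m) 1
  have q2 : (univ.filter (fun j => allc n m j = 2)).card = n 2 :=
    Pool.Agent.TH841.TR.card_allc' (n := n) (m := m) 2
  have e0 : C (c * a 0) * ∏ l ∈ fs (allc n m) 0, allf g f l = DG c g * UP a f 0 := by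
    rw [← FP_eq, Pool.Agent.TH841.TR.prod_allc]
    unfold FP
    rw [mul_assoc]
    rfl
  have p0 : ∏ l ∈ univ.filter (fun l => allc n m l = 0), allf g f l = ∏ i, f 0 i :=
    prod_cls (allf g f) 0
  have p1 : ∏ l ∈ univ.filter (fun l => allc n m l = 1), allf g f l = ∏ i, f 1 i :=
    prod_cls (allf g f) 1
  have e1 : C (c * a 0 * (c * a 1)) * ((∏ l ∈ univ.filter (fun l => allc n m l = 0),
      allf g f l) * ∏ l ∈ univ.filter (fun l => allc n m l = 1), allf g f l) =
      C (c ^ 2) * (UP a f 0 * UP a f 1) := by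
    rw [p0, p1]
    unfold UP
    have : c * a 0 * (c * a 1) = c ^ 2 * (a 0 * a 1) := by ring
    rw [this, C_mul, C_mul]
    ring
  unfold vst vc
  rw [q0, q1, q2]
  simp only [e0, e1, sqMod_scale hc]
  have r2 : (univ.filter (fun j => allc n m j = 2 ∧
      SqMod (allf g f j) (DG c g * UP a f 0))).card =
      (univ.filter (fun i => SqMod (f 2 i) (DG c g * UP a f 0))).card :=
    card_cls (n := n) (m := m) (fun j => SqMod (allf g f j) (DG c g * UP a f 0)) 2
  have r3 : (univ.filter (fun j => allc n m j = 3 ∧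
      ¬ SqMod (allf g f j) (UP a f 0 * UP a f 1))).card =
      (univ.filter (fun i => ¬ SqMod (g i) (UP a f 0 * UP a f 1))).card :=
    card_cls3 (n := n) (m := m) (fun j => ¬ SqMod (allf g f j) (UP a f 0 * UP a f 1))
  rw [r2, r3]

/-- **the limit law for pencils** -/
theorem main_pencil (a : Fin 3 → ℤ) (f : ∀ k : Fin 3, Fin (n k) → ℤ[X]) (c : ℤ)
    (g : Fin m → ℤ[X]) (ha : ∀ k, a k ≠ 0) (hc : c ≠ 0) (hf : Irr (allf g f))
    (hU : UP a f 0 - UP a f 1 = UP a f 2)
    (hn : (∀ k, 2 * n k < n 0 + n 1 + n 2) ∨ Bal (DG c g) a f) (hv : 0 < vc a f c g)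
    (L : ℕ) (N : ℕ → ℤ) (hN : ∀ M : ℕ, |N M| ≤ (M : ℤ) ^ L) {Jn : ℕ → ℕ} (hJ1 : ∀ M, 1 ≤ Jn M)
    (hJ : Tendsto (fun M => (Jn M : ℝ) / √(ell M)) atTop (𝓝 0)) (x : ℝ) :
    Tendsto (fun M : ℕ => (((Ioc (N M) (N M + (M : ℤ))).filter (fun t =>
      (Real.logb 2 (Nat.card (ShaTor (WI ((DG c g * UP a f 0).eval t)
        ((DG c g * UP a f 1).eval t)) (2 ^ (Jn M)))) - sc a f c g * ell M) /
        √(vc a f c g * ell M) ≤ x)).card : ℝ) / M)
      atTop (𝓝 ((gaussianReal 0 1).real (Set.Iic x))) := by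
  classical
  have hP : ∀ k, C ((fun k => c * a k) k) * ∏ l ∈ fs (allc n m) k, allf g f l =
      FP (fun k => c * a k) g f k := by
    intro k
    rw [Pool.Agent.TH841.TR.prod_allc]
    unfold FP
    rw [mul_assoc]
    rfl
  have hV : ∀ k t, Fval (allc n m) (fun k => c * a k) (fun l => (allf g f l).eval t) k =
      (DG c g * UP a f k).eval t := by
    intro k t
    rw [← FP_eq, ← hP k, eval_mul, eval_C, eval_prod]
    rfl
  have hF' : FP (fun k => c * a k) g f 0 - FP (fun k => c * a k) g f 1 =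
      FP (fun k => c * a k) g f 2 := by
    rw [FP_eq, FP_eq, FP_eq, ← mul_sub, hU]
  have key := main_J (allc n m) (fun k => c * a k) (allf g f) (fun k => mul_ne_zero hc (ha k)) hf
    (by rw [hP, hP, hP]; exact hF') (by rw [vst_eq hc]; exact hv) L N hN hJ1 hJ (by
      intro ε hε
      obtain ⟨R, M0, h⟩ := sn_pencil a f c g ha hc hf hU hn L hε
      refine ⟨R, ?_⟩
      filter_upwards [eventually_ge_atTop M0] with M hM S hS
      refine le_trans ?_ (h (N M) M hM (hN M))
      refine Nat.cast_le.2 (card_le_card fun t ht => ?_)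
      obtain ⟨h1, h2⟩ := hS t ht
      rw [mem_filter]
      refine ⟨h1, fun h3 => h2 ?_⟩
      rw [hV, hV]
      exact h3.2) x
  unfold LGp at key
  simp only [hV, cst_eq hc, vst_eq hc] at key
  exact key

end Pool.Agent.X217.EK
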