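import Pool.Agent.X217.EK.Fin
import Pool.Agent.TH841.NO.Fin

/-!
# The limit law for the 2-isogeny Selmer ranks
-/

set_option autoImplicit false
set_option linter.unusedSectionVars false

namespace Pool.Agent.X217.EK

open Finset Filter Topology MeasureTheory ProbabilityTheory

open Pool.Agent.TH841.SH.D

open Pool.Agent.TH841.LS (WI GA GD C1x C2x)

open Pool.Agent.TH841.PT (EQ)

open Pool.Agent.TH841.NO (SQ fo S2 C1g C2g sr)

open Pool.Agent.Y676.IS (tri tri_ne)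

open Pool.Agent.W307.SE (SN Sel)

/-- **one curve**: the isogeny Selmer rank, compared with the additive function -/
theorem oneS {A B : ℤ} (hA : A ≠ 0) (hB : B ≠ 0) (hAB : A ≠ B) {R : ℕ}
    (hR : SN A B < 2 ^ (R + 1)) :
    |((sr (-(A + B)) (A * B) : ℤ) : ℝ) - GG A B| ≤ 3 * (TT A B).card + (2 * R + 11) ∧
      rk (EQ A B) ≤ R := by
  obtain ⟨h1, h2, h3, h4⟩ := Pool.Agent.TH841.NO.one Pool.Agent.TH841.NO.QULf.qul
    Pool.Agent.TH841.NO.QUMf.qum
    Pool.Agent.TH841.NO.LWAf.lwa Pool.Agent.TH841.NO.LWBf.lwb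
    Pool.Agent.TH841.NO.LWBf.lwc Pool.Agent.TH841.NO.PRf.pra Pool.Agent.TH841.NO.PRf.prb
    Pool.Agent.TH841.NO.LIN2f.lin2 hA hB hAB hR
  refine ⟨?_, h4⟩
  have c1 : ((S2 A B).card : ℝ) ≤ (GA A B).card + (TT A B).card := by exact_mod_cast S2_le hA hB
  have c2 : ((C1x A B).card : ℝ) ≤ (C1g A B).card + (TT A B).card := by exact_mod_cast C1x_le hA hB
  have c3 : ((C2x A B).card : ℝ) ≤ (TT A B).card := by exact_mod_cast C2x_le hA hB
  have c5 : (0 : ℝ) ≤ (GD A B).card := Nat.cast_nonneg _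
  have c6 : (0 : ℝ) ≤ (TT A B).card := Nat.cast_nonneg _
  have c7 : (0 : ℝ) ≤ (C2g A B).card := Nat.cast_nonneg _
  have d1 : ((GA A B).card : ℝ) + (GD A B).card ≤ fo (-(A + B)) (A * B) + (C1x A B).card +
      (C2x A B).card + 5 := by exact_mod_cast h1
  have d2 : (fo (-(A + B)) (A * B) : ℝ) + ((C1g A B).card + (C2g A B).card) ≤
      (S2 A B).card + R + 11 := by exact_mod_cast h2
  have d3 : (fo (2 * (A + B)) ((A - B) ^ 2) : ℝ) ≤ R := by exact_mod_cast h3
  have d4 : (0 : ℝ) ≤ fo (2 * (A + B)) ((A - B) ^ 2) := Nat.cast_nonneg _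
  have d5 : (0 : ℝ) ≤ R := Nat.cast_nonneg _
  have e1 : -2 * -(A + B) = 2 * (A + B) := by ring
  have e2 : (-(A + B)) ^ 2 - 4 * (A * B) = (A - B) ^ 2 := by ring
  unfold sr GG
  rw [e1, e2]
  push_cast
  rw [abs_le]
  constructor
  · linarith
  · linarith

/-- the isogeny Selmer rank of the `i`-th equation minus `c` times the rank -/
noncomputable def LS (c : ℝ) (i : Fin 3) (x : ℤ × ℤ) : ℝ :=
  ((sr (-((tri i x.1 x.2).1 + (tri i x.1 x.2).2)) ((tri i x.1 x.2).1 * (tri i x.1 x.2).2) : ℤ) : ℝ) -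
    c * rk (EQ x.1 x.2)

/-- the normalised variables -/
noncomputable def Zs (c : ℝ) (n : ℕ) (x : ℤ × ℤ) (i : Fin 3) : ℝ :=
  (LS c i x - 3 / 2 * ell n) / √(5 / 2 * ell n)

/-- the comparison outside the exceptional set -/
lemma compareS {c : ℝ} (hc0 : 0 ≤ c) (hc1 : c ≤ 1) (K R : ℕ) : ∀ᶠ n in atTop, ∀ x ∈ Sq n,
    x.1 ≠ x.2 → SN x.1 x.2 < 2 ^ (R + 1) → (TA n x.1 x.2).card ≤ K → ∀ i,
      |Zs c n x i - Wv n x i| ≤ err K (2 * R) (fun _ => 1) i n := by
  filter_upwards [log_YY, log_div_rr.eventually_ge_atTop 2, tendsto_rr.eventually_ge_atTop 1,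
    tendsto_YY.eventually_ge_atTop 1, tendsto_ell.eventually_gt_atTop 0]
    with n h1 h2 h3 h4 h5 x hx hne hSN hTA i
  obtain ⟨A, B⟩ := x
  simp only at hne hSN hTA
  have hx' := hx
  unfold Sq at hx'
  rw [mem_product, mem_Ioc, mem_Ioc] at hx'
  obtain ⟨⟨a1, a2⟩, b1, b2⟩ := hx'
  simp only at a1 a2 b1 b2
  have hA : A ≠ 0 := by omega
  have hB : B ≠ 0 := by omega
  obtain ⟨t1, t2, t3⟩ := tri_ne hA hB hne i
  have hSN' : SN (tri i A B).1 (tri i A B).2 < 2 ^ (R + 1) := by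
    rw [SN_tri i hA hB hne]
    exact hSN
  have g1 := (oneS t1 t2 t3 hSN').1
  have g1' := (oneS hA hB hne hSN).2
  have g2 := trunc hA hB hne i n
  have g3 := card_Big hA hB hne h4
  have g4 := log_prod_le hx hne
  have g5 : ((TT (tri i A B).1 (tri i A B).2).card : ℝ) ≤ K := by
    exact_mod_cast (TT_le hx hne i).trans hTA
  -- the number of large primes
  have g6 : ((Big (YY n) A B).card : ℝ) ≤ 6 * rr n := by
    have hr : 0 < rr n := by linarith
    have k1 : Real.log n / rr n / 2 ≤ Real.log (YY n) := by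
      have := (abs_le.1 h1).1
      linarith
    have k2 : 0 < Real.log n := by
      have : 0 < Real.log n / rr n := by linarith
      exact (div_pos_iff_of_pos_right hr).1 this
    have k3 : ((Big (YY n) A B).card : ℝ) * (Real.log n / rr n / 2) ≤ 3 * Real.log n :=
      (mul_le_mul_of_nonneg_left k1 (Nat.cast_nonneg _)).trans (g3.trans g4)
    have k4 : ((Big (YY n) A B).card : ℝ) * (Real.log n / rr n / 2) =
        ((Big (YY n) A B).card : ℝ) / (2 * rr n) * Real.log n := by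
      field_simp
    rw [k4] at k3
    have k5 := le_of_mul_le_mul_right k3 k2
    rw [div_le_iff₀ (by positivity)] at k5
    linarith
  have hs : 0 < √(5 / 2 * ell n) := Real.sqrt_pos.2 (by positivity)
  unfold Zs Wv err
  rw [← sub_div, abs_div, abs_of_pos hs]
  refine div_le_div_of_nonneg_right ?_ hs.le
  have e1 : LS c i (A, B) - 3 / 2 * ell n - ∑ p ∈ PP n, (Fl i p (red2 p (A, B)) - me (Fl i p)) =
      ((((sr (-((tri i A B).1 + (tri i A B).2)) ((tri i A B).1 * (tri i A B).2) : ℤ) : ℝ) -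
        GG (tri i A B).1 (tri i A B).2) - c * rk (EQ A B)) +
      (GG (tri i A B).1 (tri i A B).2 - ∑ p ∈ PP n, Fl i p (red2 p (A, B))) +
      (∑ p ∈ PP n, me (Fl i p) - 3 / 2 * ell n) := by
    unfold LS
    rw [sum_sub_distrib]
    ring
  rw [e1]
  refine (abs_add_le _ _).trans (add_le_add ?_ le_rfl)
  refine (abs_add_le _ _).trans (add_le_add ?_ ?_)
  · have k1 : |c * (rk (EQ A B) : ℝ)| ≤ R := by
      rw [abs_of_nonneg (by positivity)]
      have : (rk (EQ A B) : ℝ) ≤ R := by exact_mod_cast g1'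
      have h0 : (0 : ℝ) ≤ (rk (EQ A B) : ℝ) := Nat.cast_nonneg _
      nlinarith
    refine (abs_sub _ _).trans ?_
    have k2 : 3 * ((TT (tri i A B).1 (tri i A B).2).card : ℝ) ≤ 3 * K := by linarith
    have k3 : (0 : ℝ) ≤ R := Nat.cast_nonneg _
    push_cast
    linarith
  · linarith

lemma one_div_ell : Tendsto (fun n => (((fun _ : ℕ => (1 : ℕ)) n : ℕ) : ℝ) / √(ell n)) atTop (𝓝 0) := by
  refine (tendsto_congr fun n => ?_).1 sqrt_inv
  simp [one_div]

open Classical in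
/-- the exceptional set is small -/
lemma bad_smallS {c : ℝ} (hc0 : 0 ≤ c) (hc1 : c ≤ 1) {ε : ℝ} (hε : 0 < ε) {η : ℝ}
    (hη : 0 < η) : ∀ᶠ n in atTop,
      (((Sq n).filter (fun x => ∃ i, η < |Zs c n x i - Wv n x i|)).card : ℝ) ≤
        ε * (Sq n).card := by
  obtain ⟨K, hK⟩ := exists_nat_gt (16 / ε)
  have hK0 : (0 : ℝ) < K := lt_trans (by positivity) hK
  have hK1 : 0 < K := by exact_mod_cast hK0
  obtain ⟨R, hR⟩ := sn_all (show 0 < ε / 4 by positivity)
  have herr : ∀ᶠ n in atTop, ∀ i, err K (2 * R) (fun _ => 1) i n ≤ η := by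
    rw [eventually_all]
    intro i
    exact (err_tendsto K (2 * R) one_div_ell i).eventually_le_const hη
  filter_upwards [compareS hc0 hc1 K R, herr, eventually_ge_atTop 1,
    (tendsto_natCast_atTop_atTop (R := ℝ)).eventually_ge_atTop (4 / ε)] with n h1 h2 h3 h4
  have hn0 : (0 : ℝ) < n := by exact_mod_cast h3
  have hsub : (Sq n).filter (fun x => ∃ i, η < |Zs c n x i - Wv n x i|) ⊆
      ((Sq n).filter (fun x : ℤ × ℤ => x.1 = x.2) ∪
        (Sq n).filter (fun x : ℤ × ℤ => x.1 ≠ x.2 ∧ (2 : ℝ) ^ (R + 1) ≤ SN x.1 x.2)) ∪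
        (Sq n).filter (fun x : ℤ × ℤ => K ≤ (TA n x.1 x.2).card) := by
    intro x hx
    rw [mem_filter] at hx
    obtain ⟨hx1, i, hx2⟩ := hx
    rw [mem_union, mem_union, mem_filter, mem_filter, mem_filter]
    by_contra hcon
    rw [not_or, not_or] at hcon
    obtain ⟨⟨c1, c2⟩, c3⟩ := hcon
    have d1 : x.1 ≠ x.2 := fun h => c1 ⟨hx1, h⟩
    have d2 : SN x.1 x.2 < 2 ^ (R + 1) := by
      by_contra h
      exact c2 ⟨hx1, d1, not_lt.1 h⟩
    have d3 : (TA n x.1 x.2).card ≤ K := by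
      by_contra h
      exact c3 ⟨hx1, (not_le.1 h).le⟩
    have := h1 x hx1 d1 d2 d3 i
    have := h2 i
    linarith
  have h5 := (card_le_card hsub).trans ((card_union_le _ _).trans
    (Nat.add_le_add_right (card_union_le _ _) _))
  have h6 : (((Sq n).filter (fun x => ∃ i, η < |Zs c n x i - Wv n x i|)).card : ℝ) ≤
      ((Sq n).filter (fun x : ℤ × ℤ => x.1 = x.2)).card +
      ((Sq n).filter (fun x : ℤ × ℤ => x.1 ≠ x.2 ∧ (2 : ℝ) ^ (R + 1) ≤ SN x.1 x.2)).card +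
      ((Sq n).filter (fun x : ℤ × ℤ => K ≤ (TA n x.1 x.2).card)).card := by exact_mod_cast h5
  have h7 := card_diag n
  have h8 := hR n h3
  have h9 := many_TA hK1 n
  rw [card_Sq]
  have hnn : (0 : ℝ) < (n : ℝ) ^ 2 := by positivity
  have k1 : (n : ℝ) ≤ ε / 4 * n ^ 2 := by
    rw [div_le_iff₀ hε] at h4
    nlinarith
  have k2 : 4 * (n : ℝ) ^ 2 / K ≤ ε / 4 * n ^ 2 := by
    rw [div_le_iff₀ hK0]
    rw [div_lt_iff₀ hε] at hK
    nlinarith
  linarith

open Classical in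
/-- **the limit law for the isogeny Selmer ranks** -/
theorem mainS {c : ℝ} (hc0 : 0 ≤ c) (hc1 : c ≤ 1) (z : Fin 3 → ℝ) :
    Tendsto (fun n => (((Sq n).filter (fun x => x.1 ≠ x.2 ∧ ∀ i, Zs c n x i ≤ z i)).card : ℝ) /
      (n : ℝ) ^ 2) atTop (𝓝 (∏ i, (gaussianReal 0 1).real (Set.Iic (z i)))) := by
  have hne : ∀ᶠ n in atTop, (Sq n).Nonempty := by
    filter_upwards [eventually_ge_atTop 1] with n hn
    refine ⟨(1, 1), ?_⟩
    unfold Sq
    rw [mem_product, mem_Ioc]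
    simp only
    omega
  have h1 := law hne (Zs c) (fun t => pert hne (Zs c) Wv
    (fun ε hε η hη => bad_smallS hc0 hc1 hε hη) t (char_W t)) z
  have h2 : Tendsto (fun n : ℕ => (((Sq n).filter (fun x => x.1 ≠ x.2 ∧
      ∀ i, Zs c n x i ≤ z i)).card : ℝ) / (n : ℝ) ^ 2 -
      (((Sq n).filter (fun x => ∀ i, Zs c n x i ≤ z i)).card : ℝ) / (Sq n).card) atTop (𝓝 0) := by
    rw [tendsto_zero_iff_abs_tendsto_zero]
    have h3 : Tendsto (fun n : ℕ => ((n : ℝ))⁻¹) atTop (𝓝 0) := tendsto_inv_atTop_nhds_zero_nat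
    refine squeeze_zero' (Eventually.of_forall fun n => abs_nonneg _) ?_ h3
    filter_upwards [eventually_ge_atTop 1] with n hn
    rw [Function.comp_apply]
    have hn0 : (0 : ℝ) < n := by exact_mod_cast hn
    rw [card_Sq, ← sub_div, abs_div, abs_of_pos (by positivity : (0 : ℝ) < (n : ℝ) ^ 2)]
    rw [div_le_iff₀ (by positivity)]
    have e1 : (n : ℝ)⁻¹ * (n : ℝ) ^ 2 = n := by
      field_simp
    rw [e1]
    refine le_trans ?_ (card_diag n)
    have k1 : (Sq n).filter (fun x => x.1 ≠ x.2 ∧ ∀ i, Zs c n x i ≤ z i) ⊆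
        (Sq n).filter (fun x => ∀ i, Zs c n x i ≤ z i) := by
      intro x hx
      rw [mem_filter] at hx ⊢
      exact ⟨hx.1, hx.2.2⟩
    have k2 : (Sq n).filter (fun x => ∀ i, Zs c n x i ≤ z i) ⊆
        (Sq n).filter (fun x => x.1 ≠ x.2 ∧ ∀ i, Zs c n x i ≤ z i) ∪
        (Sq n).filter (fun x : ℤ × ℤ => x.1 = x.2) := by
      intro x hx
      rw [mem_union, mem_filter, mem_filter]
      rw [mem_filter] at hx
      by_cases h : x.1 = x.2
      · exact Or.inr ⟨hx.1, h⟩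
      · exact Or.inl ⟨hx.1, h, hx.2⟩
    have k3 := card_le_card k1
    have k4 := (card_le_card k2).trans (card_union_le _ _)
    have k3' : (((Sq n).filter (fun x => x.1 ≠ x.2 ∧ ∀ i, Zs c n x i ≤ z i)).card : ℝ) ≤
        ((Sq n).filter (fun x => ∀ i, Zs c n x i ≤ z i)).card := by exact_mod_cast k3
    have k4' : (((Sq n).filter (fun x => ∀ i, Zs c n x i ≤ z i)).card : ℝ) ≤
        ((Sq n).filter (fun x => x.1 ≠ x.2 ∧ ∀ i, Zs c n x i ≤ z i)).card +
        ((Sq n).filter (fun x : ℤ × ℤ => x.1 = x.2)).card := by exact_mod_cast k4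
    rw [abs_le]
    constructor
    · linarith
    · have : (0 : ℝ) ≤ ((Sq n).filter (fun x : ℤ × ℤ => x.1 = x.2)).card := Nat.cast_nonneg _
      linarith
  have h4 := h2.add h1
  rw [zero_add] at h4
  refine (tendsto_congr fun n => ?_).1 h4
  ring

end Pool.Agent.X217.EK
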