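import Pool.Agent.X217.EK.Tay

/-!
# The method of moments for sums of almost independent bounded functions
-/

set_option autoImplicit false

namespace Pool.Agent.X217.EK

open Finset Filter Topology Complex

section av

variable {T : Type*}

/-- the average of a real function -/
noncomputable def avr (Ω : Finset T) (F : T → ℝ) : ℝ := (∑ x ∈ Ω, F x) / (Ω.card : ℝ)

/-- the average of a complex function -/
noncomputable def av (Ω : Finset T) (F : T → ℂ) : ℂ := (∑ x ∈ Ω, F x) / (Ω.card : ℂ)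

lemma card_pos' {Ω : Finset T} (h : Ω.Nonempty) : (0 : ℝ) < Ω.card := by
  exact_mod_cast card_pos.2 h

lemma avr_mono {Ω : Finset T} {F G : T → ℝ} (h : ∀ x ∈ Ω, F x ≤ G x) : avr Ω F ≤ avr Ω G :=
  div_le_div_of_nonneg_right (sum_le_sum h) (Nat.cast_nonneg _)

lemma avr_const {Ω : Finset T} (h : Ω.Nonempty) (c : ℝ) : avr Ω (fun _ => c) = c := by
  unfold avr
  have := (card_pos' h).ne'
  rw [sum_const, nsmul_eq_mul]
  field_simp

lemma avr_add (Ω : Finset T) (F G : T → ℝ) : avr Ω (fun x => F x + G x) = avr Ω F + avr Ω G := by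
  unfold avr
  rw [sum_add_distrib, add_div]

lemma avr_sub (Ω : Finset T) (F G : T → ℝ) : avr Ω (fun x => F x - G x) = avr Ω F - avr Ω G := by
  unfold avr
  rw [sum_sub_distrib, sub_div]

lemma avr_mul (Ω : Finset T) (c : ℝ) (F : T → ℝ) : avr Ω (fun x => c * F x) = c * avr Ω F := by
  unfold avr
  rw [← mul_sum, mul_div_assoc]

lemma avr_sum {κ : Type*} (Ω : Finset T) (s : Finset κ) (F : κ → T → ℝ) :
    avr Ω (fun x => ∑ i ∈ s, F i x) = ∑ i ∈ s, avr Ω (F i) := by
  unfold avr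
  rw [sum_comm, sum_div]

lemma avr_nonneg {Ω : Finset T} {F : T → ℝ} (h : ∀ x ∈ Ω, 0 ≤ F x) : 0 ≤ avr Ω F :=
  div_nonneg (sum_nonneg h) (Nat.cast_nonneg _)

lemma av_add (Ω : Finset T) (F G : T → ℂ) : av Ω (fun x => F x + G x) = av Ω F + av Ω G := by
  unfold av
  rw [sum_add_distrib, add_div]

lemma av_sub (Ω : Finset T) (F G : T → ℂ) : av Ω (fun x => F x - G x) = av Ω F - av Ω G := by
  unfold av
  rw [sum_sub_distrib, sub_div]

lemma av_mul (Ω : Finset T) (c : ℂ) (F : T → ℂ) : av Ω (fun x => c * F x) = c * av Ω F := by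
  unfold av
  rw [← mul_sum, mul_div_assoc]

lemma av_sum {κ : Type*} (Ω : Finset T) (s : Finset κ) (F : κ → T → ℂ) :
    av Ω (fun x => ∑ i ∈ s, F i x) = ∑ i ∈ s, av Ω (F i) := by
  unfold av
  rw [sum_comm, sum_div]

lemma av_ofReal (Ω : Finset T) (F : T → ℝ) : av Ω (fun x => (F x : ℂ)) = (avr Ω F : ℂ) := by
  unfold av avr
  push_cast
  rfl

lemma norm_av (Ω : Finset T) (F : T → ℂ) : ‖av Ω F‖ ≤ avr Ω (fun x => ‖F x‖) := by
  unfold av avr
  rw [norm_div]
  have : ‖(Ω.card : ℂ)‖ = Ω.card := by simp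
  rw [this]
  exact div_le_div_of_nonneg_right (norm_sum_le _ _) (Nat.cast_nonneg _)

end av

section prod

variable {ι : Type*} [DecidableEq ι] {R : ι → Type*} [∀ i, Fintype (R i)]

/-- independence -/
lemma av_pi (P : Finset ι) (g : ∀ i, R i → ℂ) :
    av (univ : Finset (∀ i : P, R i)) (fun r => ∏ i : P, g i (r i)) =
      ∏ i ∈ P, av univ (g i) := by
  unfold av
  rw [← prod_coe_sort P, ← Fintype.piFinset_univ, ← prod_univ_sum, Fintype.card_piFinset]
  rw [prod_div_distrib]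
  push_cast
  rfl

/-- independence -/
lemma avr_pi (P : Finset ι) (g : ∀ i, R i → ℝ) :
    avr (univ : Finset (∀ i : P, R i)) (fun r => ∏ i : P, g i (r i)) =
      ∏ i ∈ P, avr univ (g i) := by
  unfold avr
  rw [← prod_coe_sort P, ← Fintype.piFinset_univ, ← prod_univ_sum, Fintype.card_piFinset]
  rw [prod_div_distrib]
  push_cast
  rfl

end prod

section quant

variable {ι : Type*} [DecidableEq ι] {R : ι → Type*} [∀ i, Fintype (R i)] [∀ i, Nonempty (R i)]
  {T : Type*}

/-- the discrepancy of the reductions -/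
def Disc (P : Finset ι) (ρ : ∀ i, T → R i) (Ω : Finset T) (k : ℕ) (δ : ℝ) : Prop :=
  ∀ (c : Fin k → P) (u : ∀ j, R (c j) → ℝ), (∀ j r, |u j r| ≤ 1) →
    |avr Ω (fun x => ∏ j, u j (ρ (c j) x)) -
      avr (univ : Finset (∀ i : P, R i)) (fun r => ∏ j, u j (r (c j)))| ≤ δ

/-- the comparison of the moments -/
lemma moment {P : Finset ι} {ρ : ∀ i, T → R i} {Ω : Finset T} {k : ℕ} {δ : ℝ}
    (hD : Disc P ρ Ω k δ) {h : ∀ i, R i → ℝ} (hb : ∀ i r, |h i r| ≤ 1) :
    |avr Ω (fun x => (∑ i : P, h i (ρ i x)) ^ k) -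
      avr (univ : Finset (∀ i : P, R i)) (fun r => (∑ i : P, h i (r i)) ^ k)| ≤
        (P.card : ℝ) ^ k * δ := by
  simp only [Fintype.sum_pow]
  rw [avr_sum, avr_sum, ← sum_sub_distrib]
  refine (abs_sum_le_sum_abs _ _).trans ?_
  refine (sum_le_sum fun c _ => hD c (fun j => h (c j)) fun j r => hb _ r).trans (le_of_eq ?_)
  rw [sum_const, nsmul_eq_mul, card_univ, Fintype.card_fun, Fintype.card_fin, Fintype.card_coe]
  push_cast
  rfl

lemma exp_le {x : ℝ} (hx : |x| ≤ 1) : Real.exp x ≤ 1 + x + x ^ 2 := by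
  have := (abs_le.1 (Real.abs_exp_sub_one_sub_id_le hx)).2
  linarith

/-- the exponential moment -/
lemma exp_moment {P : Finset ι} {h : ∀ i, R i → ℝ} {b s : ℝ} (hb : ∀ i r, |h i r| ≤ b)
    (hs : |s| * b ≤ 1) (h0 : ∀ i, avr univ (h i) = 0) :
    avr (univ : Finset (∀ i : P, R i)) (fun r => Real.exp (s * ∑ i : P, h i (r i))) ≤
      Real.exp (s ^ 2 * ∑ i ∈ P, avr univ (fun r => h i r ^ 2)) := by
  have h1 : (fun r : (∀ i : P, R i) => Real.exp (s * ∑ i : P, h i (r i))) =
      fun r => ∏ i : P, Real.exp (s * h i (r i)) := by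
    funext r
    rw [mul_sum, Real.exp_sum]
  have h1' := avr_pi P (fun i (r : R i) => Real.exp (s * h i r))
  beta_reduce at h1'
  rw [h1, h1', mul_sum, Real.exp_sum]
  refine prod_le_prod (fun i _ => avr_nonneg fun r _ => (Real.exp_pos _).le) fun i _ => ?_
  have h2 : avr univ (fun r : R i => Real.exp (s * h i r)) ≤
      avr univ (fun r : R i => 1 + s * h i r + s ^ 2 * h i r ^ 2) := by
    refine avr_mono fun r _ => ?_
    have h3 : |s * h i r| ≤ 1 := by
      rw [abs_mul]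
      exact (mul_le_mul_of_nonneg_left (hb i r) (abs_nonneg s)).trans hs
    refine (exp_le h3).trans (le_of_eq ?_)
    ring
  refine h2.trans ?_
  rw [avr_add, avr_add, avr_const univ_nonempty, avr_mul, avr_mul, h0, mul_zero, add_zero]
  exact (add_comm (1 : ℝ) _).le.trans (Real.add_one_le_exp _)

/-- the even moments -/
lemma even_moment {P : Finset ι} {h : ∀ i, R i → ℝ} {b s : ℝ} (hb : ∀ i r, |h i r| ≤ b)
    (hs0 : 0 < s) (hs : s * b ≤ 1) (h0 : ∀ i, avr univ (h i) = 0) {K : ℕ} (hK : Even K) :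
    avr (univ : Finset (∀ i : P, R i)) (fun r => (∑ i : P, h i (r i)) ^ K) / (K.factorial : ℝ) ≤
      2 * Real.exp (s ^ 2 * ∑ i ∈ P, avr univ (fun r => h i r ^ 2)) / s ^ K := by
  have hKf : (0 : ℝ) < K.factorial := by exact_mod_cast K.factorial_pos
  have hsK : 0 < s ^ K := by positivity
  have h1 : ∀ r : (∀ i : P, R i), (∑ i : P, h i (r i)) ^ K ≤ (K.factorial : ℝ) / s ^ K *
      (Real.exp (s * ∑ i : P, h i (r i)) + Real.exp (-s * ∑ i : P, h i (r i))) := by
    intro r
    set G := ∑ i : P, h i (r i) with hG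
    have h2 := Real.pow_div_factorial_le_exp |s * G| (abs_nonneg _) K
    have h3 : |s * G| ^ K = s ^ K * G ^ K := by
      rw [hK.pow_abs, mul_pow]
    rw [h3] at h2
    have h4 : Real.exp |s * G| ≤ Real.exp (s * G) + Real.exp (-s * G) := by
      rcases abs_cases (s * G) with ⟨h5, _⟩ | ⟨h5, _⟩
      · rw [h5]
        linarith [Real.exp_pos (-s * G)]
      · rw [h5, ← neg_mul]
        linarith [Real.exp_pos (s * G)]
    have h5 := h2.trans h4
    rw [div_le_iff₀ hKf] at h5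
    rw [div_mul_eq_mul_div, le_div_iff₀ hsK]
    linarith
  have h2 := avr_mono (Ω := (univ : Finset (∀ i : P, R i))) fun r _ => h1 r
  rw [avr_mul, avr_add] at h2
  have h3 := exp_moment (P := P) (s := s) hb (by rwa [abs_of_pos hs0]) h0
  have h4 := exp_moment (P := P) (s := -s) hb (by rwa [abs_neg, abs_of_pos hs0]) h0
  rw [neg_sq] at h4
  rw [div_le_iff₀ hKf]
  refine h2.trans ?_
  have h5 : (K.factorial : ℝ) / s ^ K * (avr (univ : Finset (∀ i : P, R i))
      (fun r => Real.exp (s * ∑ i : P, h i (r i))) + avr (univ : Finset (∀ i : P, R i))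
      (fun r => Real.exp (-s * ∑ i : P, h i (r i)))) ≤ (K.factorial : ℝ) / s ^ K *
      (Real.exp (s ^ 2 * ∑ i ∈ P, avr univ (fun r => h i r ^ 2)) +
        Real.exp (s ^ 2 * ∑ i ∈ P, avr univ (fun r => h i r ^ 2))) :=
    mul_le_mul_of_nonneg_left (add_le_add h3 h4) (by positivity)
  refine h5.trans (le_of_eq ?_)
  ring

/-- the characteristic function of the independent model -/
lemma char_model {P : Finset ι} {h : ∀ i, R i → ℝ} {b : ℝ} (hb : ∀ i r, |h i r| ≤ b)
    (hb1 : b ≤ 1) (h0 : ∀ i, avr univ (h i) = 0) :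
    ‖av (univ : Finset (∀ i : P, R i)) (fun r => cexp (I * ((∑ i : P, h i (r i) : ℝ) : ℂ))) -
      cexp (-((∑ i ∈ P, avr univ (fun r => h i r ^ 2) : ℝ) : ℂ) / 2)‖ ≤
      2 * b * ∑ i ∈ P, avr univ (fun r => h i r ^ 2) := by
  have h1 : (fun r : (∀ i : P, R i) => cexp (I * ((∑ i : P, h i (r i) : ℝ) : ℂ))) =
      fun r => ∏ i : P, cexp (I * (h i (r i) : ℂ)) := by
    funext r
    push_cast
    rw [mul_sum, Complex.exp_sum]
  have h1' := av_pi P (fun i (r : R i) => cexp (I * (h i r : ℂ)))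
  beta_reduce at h1'
  have h2 : cexp (-((∑ i ∈ P, avr univ (fun r => h i r ^ 2) : ℝ) : ℂ) / 2) =
      ∏ i ∈ P, cexp (-((avr univ (fun r => h i r ^ 2) : ℝ) : ℂ) / 2) := by
    rw [← Complex.exp_sum]
    push_cast
    rw [← sum_div, sum_neg_distrib]
  have hV0 : ∀ i, 0 ≤ avr univ (fun r : R i => h i r ^ 2) := fun i =>
    avr_nonneg fun r _ => sq_nonneg _
  rw [h1, h1', h2]
  refine (prod_sub P _ _ (fun i _ => ?_) (fun i _ => ?_)).trans ?_
  · refine (norm_av _ _).trans (le_of_eq ?_)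
    have : (fun r : R i => ‖cexp (I * (h i r : ℂ))‖) = fun _ => 1 := by
      funext r
      exact norm_exp_I_mul_ofReal _
    rw [this, avr_const univ_nonempty]
  · have h3 : -((avr univ (fun r : R i => h i r ^ 2) : ℝ) : ℂ) / 2 =
        ((-(avr univ (fun r : R i => h i r ^ 2)) / 2 : ℝ) : ℂ) := by push_cast; ring
    rw [h3, ← Complex.ofReal_exp, Complex.norm_real, Real.norm_eq_abs, abs_of_pos (Real.exp_pos _)]
    apply Real.exp_le_one_iff.2
    have := hV0 i
    linarith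
  · rw [mul_sum]
    refine sum_le_sum fun i _ => ?_
    obtain ⟨r0⟩ : Nonempty (R i) := inferInstance
    have hb0 : 0 ≤ b := (abs_nonneg _).trans (hb i r0)
    set V := avr univ (fun r : R i => h i r ^ 2) with hV
    have hVb : V ≤ b ^ 2 := by
      have : V ≤ avr univ (fun _ : R i => b ^ 2) := avr_mono fun r _ => by
        rw [← sq_abs]
        exact pow_le_pow_left₀ (abs_nonneg _) (hb i r) 2
      rwa [avr_const univ_nonempty] at this
    have e1 : av univ (fun r : R i => (1 : ℂ) + I * (h i r : ℂ) - ((h i r ^ 2 : ℝ) : ℂ) / 2) =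
        1 - (V : ℂ) / 2 := by
      have q1 : av univ (fun _ : R i => (1 : ℂ)) = 1 := by
        have := av_ofReal (univ : Finset (R i)) (fun _ => (1 : ℝ))
        rw [avr_const univ_nonempty] at this
        simpa using this
      have q2 : av univ (fun r : R i => I * (h i r : ℂ)) = 0 := by
        rw [av_mul, av_ofReal, h0]
        simp
      have q3 : av univ (fun r : R i => ((h i r ^ 2 : ℝ) : ℂ) / 2) = (V : ℂ) / 2 := by
        have : (fun r : R i => ((h i r ^ 2 : ℝ) : ℂ) / 2) =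
            fun r => (1 / 2 : ℂ) * ((h i r ^ 2 : ℝ) : ℂ) := by funext r; ring
        rw [this, av_mul, av_ofReal]
        ring
      rw [av_sub, av_add, q1, q2, q3, add_zero]
    have e2 : ‖av univ (fun r : R i => cexp (I * (h i r : ℂ))) - (1 - (V : ℂ) / 2)‖ ≤ b * V := by
      rw [← e1, ← av_sub]
      refine (norm_av _ _).trans ?_
      rw [hV, ← avr_mul]
      refine avr_mono fun r _ => ?_
      have h3 := taylor (h i r) 3
      have h4 : ∑ k ∈ range 3, (I * (h i r : ℂ)) ^ k / (k.factorial : ℂ) =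
          1 + I * (h i r : ℂ) - ((h i r ^ 2 : ℝ) : ℂ) / 2 := by
        simp only [sum_range_succ, range_zero, sum_empty, Nat.factorial]
        push_cast
        rw [mul_pow I _ 2, Complex.I_sq]
        ring
      rw [h4] at h3
      refine h3.trans ?_
      have h5 : |h i r| ^ 3 = |h i r| * h i r ^ 2 := by rw [pow_succ, sq_abs, mul_comm]
      rw [h5]
      have h6 : |h i r| * h i r ^ 2 ≤ b * h i r ^ 2 :=
        mul_le_mul_of_nonneg_right (hb i r) (sq_nonneg _)
      have h7 : (1 : ℝ) ≤ ((3 : ℕ).factorial : ℝ) := by norm_num [Nat.factorial]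
      exact (div_le_self (by positivity) h7).trans h6
    have e3 : ‖(1 - (V : ℂ) / 2) - cexp (-(V : ℂ) / 2)‖ ≤ b * V := by
      have h3 : (1 - (V : ℂ) / 2) - cexp (-(V : ℂ) / 2) =
          ((-(Real.exp (-V / 2) - 1 - (-V / 2)) : ℝ) : ℂ) := by
        push_cast
        ring
      rw [h3, Complex.norm_real, Real.norm_eq_abs, abs_neg]
      have h4 : |-V / 2| ≤ 1 := by
        rw [neg_div, abs_neg, abs_of_nonneg (by have := hV0 i; positivity)]
        nlinarith
      refine (Real.abs_exp_sub_one_sub_id_le h4).trans ?_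
      have hV0' : 0 ≤ V := hV0 i
      have h5 : (-V / 2) ^ 2 = V * V / 4 := by ring
      rw [h5]
      have h6 : V * V ≤ b ^ 2 * V := mul_le_mul_of_nonneg_right hVb hV0'
      have h7 : b ^ 2 * V ≤ b * V := mul_le_mul_of_nonneg_right (by nlinarith) hV0'
      nlinarith [mul_nonneg hb0 hV0']
    have e4 := norm_add_le (av univ (fun r : R i => cexp (I * (h i r : ℂ))) - (1 - (V : ℂ) / 2))
      ((1 - (V : ℂ) / 2) - cexp (-(V : ℂ) / 2))
    rw [sub_add_sub_cancel] at e4
    linarith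

/-- the Taylor expansion of the characteristic function -/
lemma char_taylor {T' : Type*} (Ω : Finset T') (G : T' → ℝ) {K : ℕ} (hK : Even K) :
    ‖av Ω (fun x => cexp (I * (G x : ℂ))) -
      ∑ k ∈ range K, I ^ k / (k.factorial : ℂ) * ((avr Ω (fun x => G x ^ k) : ℝ) : ℂ)‖ ≤
      avr Ω (fun x => G x ^ K) / (K.factorial : ℝ) := by
  have h1 : ∑ k ∈ range K, I ^ k / (k.factorial : ℂ) * ((avr Ω (fun x => G x ^ k) : ℝ) : ℂ) =
      av Ω (fun x => ∑ k ∈ range K, (I * (G x : ℂ)) ^ k / (k.factorial : ℂ)) := by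
    rw [av_sum]
    refine sum_congr rfl fun k _ => ?_
    rw [← av_ofReal, ← av_mul]
    congr 1
    funext x
    push_cast
    ring
  rw [h1, ← av_sub]
  refine (norm_av _ _).trans ?_
  have h2 : avr Ω (fun x => G x ^ K) / (K.factorial : ℝ) =
      avr Ω (fun x => 1 / (K.factorial : ℝ) * G x ^ K) := by
    rw [avr_mul]
    ring
  rw [h2]
  refine avr_mono fun x _ => ?_
  refine (taylor (G x) K).trans (le_of_eq ?_)
  rw [hK.pow_abs]
  ring

/-- **the characteristic function of a sum of almost independent functions** -/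
theorem quant {P : Finset ι} {ρ : ∀ i, T → R i} {Ω : Finset T} {h : ∀ i, R i → ℝ} {b : ℝ}
    (hb : ∀ i r, |h i r| ≤ b) (hb1 : 2 * b ≤ 1) (h0 : ∀ i, avr univ (h i) = 0) {K : ℕ}
    (hK : Even K) {δ : ℕ → ℝ} (hD : ∀ k, k ≤ K → Disc P ρ Ω k (δ k)) :
    ‖av Ω (fun x => cexp (I * ((∑ i : P, h i (ρ i x) : ℝ) : ℂ))) -
      cexp (-((∑ i ∈ P, avr univ (fun r => h i r ^ 2) : ℝ) : ℂ) / 2)‖ ≤
      ∑ k ∈ range (K + 1), (P.card : ℝ) ^ k * δ k +
        4 * Real.exp (4 * ∑ i ∈ P, avr univ (fun r => h i r ^ 2)) / 2 ^ K +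
        2 * b * ∑ i ∈ P, avr univ (fun r => h i r ^ 2) := by
  set V := ∑ i ∈ P, avr univ (fun r => h i r ^ 2) with hV
  have hb' : ∀ i r, |h i r| ≤ 1 := by
    intro i r
    have h1 := hb i r
    have h2 := abs_nonneg (h i r)
    linarith
  set G : T → ℝ := fun x => ∑ i : P, h i (ρ i x) with hG
  set G' : (∀ i : P, R i) → ℝ := fun r => ∑ i : P, h i (r i) with hG'
  have hKf : (1 : ℝ) ≤ K.factorial := by exact_mod_cast K.factorial_pos
  have hKf0 : (0 : ℝ) < K.factorial := by linarith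
  have hmom : ∀ k, k ≤ K → |avr Ω (fun x => G x ^ k) - avr univ (fun r => G' r ^ k)| ≤
      (P.card : ℝ) ^ k * δ k := fun k hk => moment (hD k hk) hb'
  have hev : avr univ (fun r => G' r ^ K) / (K.factorial : ℝ) ≤ 2 * Real.exp (4 * V) / 2 ^ K := by
    have := even_moment (P := P) (s := 2) hb (by norm_num) hb1 h0 hK
    norm_num at this ⊢
    exact this
  have t1 := char_taylor Ω G hK
  have t2 := char_taylor univ G' hK
  have t3 := char_model (P := P) hb (by linarith [abs_nonneg b]) h0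
  have hdiff : ‖(∑ k ∈ range K, I ^ k / (k.factorial : ℂ) *
      ((avr Ω (fun x => G x ^ k) : ℝ) : ℂ)) - ∑ k ∈ range K, I ^ k / (k.factorial : ℂ) *
      ((avr univ (fun x => G' x ^ k) : ℝ) : ℂ)‖ ≤ ∑ k ∈ range K, (P.card : ℝ) ^ k * δ k := by
    rw [← sum_sub_distrib]
    refine (norm_sum_le _ _).trans (sum_le_sum fun k hk => ?_)
    rw [← mul_sub, norm_mul, ← Complex.ofReal_sub, Complex.norm_real, Real.norm_eq_abs]
    have h1 : ‖I ^ k / (k.factorial : ℂ)‖ ≤ 1 := by
      rw [norm_div, norm_pow, Complex.norm_I, one_pow]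
      have h2 : (1 : ℝ) ≤ ‖(k.factorial : ℂ)‖ := by
        have : ‖(k.factorial : ℂ)‖ = (k.factorial : ℝ) := by simp
        rw [this]
        exact_mod_cast k.factorial_pos
      exact (div_le_one (by linarith)).2 h2
    have h2 := hmom k (mem_range.1 hk).le
    calc _ ≤ 1 * |avr Ω (fun x => G x ^ k) - avr univ (fun r => G' r ^ k)| :=
          mul_le_mul_of_nonneg_right h1 (abs_nonneg _)
      _ ≤ _ := by rw [one_mul]; exact h2
  have htop : avr Ω (fun x => G x ^ K) / (K.factorial : ℝ) ≤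
      (P.card : ℝ) ^ K * δ K + 2 * Real.exp (4 * V) / 2 ^ K := by
    have h1 := (abs_le.1 (hmom K le_rfl)).2
    have h1' : avr Ω (fun x => G x ^ K) ≤ (P.card : ℝ) ^ K * δ K + avr univ (fun r => G' r ^ K) := by
      linarith
    have h2 : 0 ≤ (P.card : ℝ) ^ K * δ K := (abs_nonneg _).trans (hmom K le_rfl)
    have h3 : avr Ω (fun x => G x ^ K) / (K.factorial : ℝ) ≤
        ((P.card : ℝ) ^ K * δ K) / (K.factorial : ℝ) +
          avr univ (fun r => G' r ^ K) / (K.factorial : ℝ) := by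
      rw [← add_div]
      exact div_le_div_of_nonneg_right h1' hKf0.le
    have h4 : ((P.card : ℝ) ^ K * δ K) / (K.factorial : ℝ) ≤ (P.card : ℝ) ^ K * δ K :=
      div_le_self h2 hKf
    linarith
  rw [sum_range_succ]
  have e1 : av Ω (fun x => cexp (I * (G x : ℂ))) - cexp (-(V : ℂ) / 2) =
      (av Ω (fun x => cexp (I * (G x : ℂ))) - ∑ k ∈ range K, I ^ k / (k.factorial : ℂ) *
        ((avr Ω (fun x => G x ^ k) : ℝ) : ℂ)) +
      ((∑ k ∈ range K, I ^ k / (k.factorial : ℂ) *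
        ((avr Ω (fun x => G x ^ k) : ℝ) : ℂ)) - ∑ k ∈ range K, I ^ k / (k.factorial : ℂ) *
        ((avr univ (fun x => G' x ^ k) : ℝ) : ℂ)) -
      (av univ (fun r => cexp (I * (G' r : ℂ))) - ∑ k ∈ range K, I ^ k / (k.factorial : ℂ) *
        ((avr univ (fun x => G' x ^ k) : ℝ) : ℂ)) +
      (av univ (fun r => cexp (I * (G' r : ℂ))) - cexp (-(V : ℂ) / 2)) := by ring
  rw [e1]
  refine (norm_add_le _ _).trans ?_
  refine (add_le_add_left ((norm_sub_le _ _).trans (add_le_add_left (norm_add_le _ _) _)) _).trans ?_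
  have e2 : 4 * Real.exp (4 * V) / 2 ^ K = 2 * Real.exp (4 * V) / 2 ^ K +
      2 * Real.exp (4 * V) / 2 ^ K := by ring
  rw [e2]
  have t3' : ‖av univ (fun r => cexp (I * (G' r : ℂ))) - cexp (-(V : ℂ) / 2)‖ ≤ 2 * b * V := t3
  linarith

end quant

end Pool.Agent.X217.EK
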