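import Pool.Agent.X217.EK.Det

/-!
# The additive functions of the three quotients
-/

set_option autoImplicit false
set_option linter.unusedSectionVars false

namespace Pool.Agent.X217.EK

open Finset

open Pool.Agent.TH841.NO (S2 C1g)

open Pool.Agent.Y676.IS (tri tri_ne)

/-- the primes of bad reduction, at least `11` -/
noncomputable def QN (A B : ℤ) : Finset ℕ :=
  (A * B * (A - B)).natAbs.primeFactors.filter (fun p => 11 ≤ p)

/-- the primes of bad reduction, at least `11` -/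
noncomputable def QQ (A B : ℤ) : Finset Pr := (QN A B).subtype Nat.Prime

lemma mem_QN {A B : ℤ} (hA : A ≠ 0) (hB : B ≠ 0) (hAB : A ≠ B) {p : ℕ} :
    p ∈ QN A B ↔ p.Prime ∧ 11 ≤ p ∧ ((p : ℤ) ∣ A * B ∨ (p : ℤ) ∣ A - B) := by
  unfold QN
  rw [mem_filter, mem_pf]
  have h0 : A * B * (A - B) ≠ 0 := mul_ne_zero (mul_ne_zero hA hB) (sub_ne_zero.2 hAB)
  constructor
  · rintro ⟨⟨h1, h2, -⟩, h3⟩
    exact ⟨h1, h3, (Nat.prime_iff_prime_int.1 h1).dvd_or_dvd h2⟩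
  · rintro ⟨h1, h3, h2 | h2⟩
    · exact ⟨⟨h1, h2.mul_right _, h0⟩, h3⟩
    · exact ⟨⟨h1, h2.mul_left _, h0⟩, h3⟩

lemma mem_QQ {A B : ℤ} (hA : A ≠ 0) (hB : B ≠ 0) (hAB : A ≠ B) {p : Pr} :
    p ∈ QQ A B ↔ 11 ≤ p.1 ∧ ((p.1 : ℤ) ∣ A * B ∨ (p.1 : ℤ) ∣ A - B) := by
  unfold QQ
  rw [mem_subtype, mem_QN hA hB hAB]
  exact ⟨fun h => h.2, fun h => ⟨p.2, h⟩⟩

lemma QQ_tri (i : Fin 3) (A B : ℤ) : QQ (tri i A B).1 (tri i A B).2 = QQ A B := by
  unfold QQ QN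
  have h : ((tri i A B).1 * (tri i A B).2 * ((tri i A B).1 - (tri i A B).2)).natAbs =
      (A * B * (A - B)).natAbs := by
    fin_cases i
    · rfl
    · change (-A * (B - A) * (-A - (B - A))).natAbs = _
      rw [← Int.natAbs_neg]
      congr 1
      ring
    · change (-B * (A - B) * (-B - (A - B))).natAbs = _
      congr 1
      ring
  rw [h]

open Classical in
/-- the local function at a natural number -/
noncomputable def gn (A B : ℤ) (p : ℕ) : ℝ := (if (p : ℤ) ∣ A * B then 1 else 0) -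
  (if (p : ℤ) ∣ A - B ∧ ¬ (p : ℤ) ∣ A ∧ jacobiSym A p = 1 then 1 else 0)

lemma jac_iff {p : Pr} {A : ℤ} (h : ¬ (p.1 : ℤ) ∣ A) :
    jacobiSym A p.1 = 1 ↔ IsSquare ((A : ℤ) : ZMod p.1) := by
  rw [← jacobiSym.legendreSym.to_jacobiSym]
  have h0 : (A : ZMod p.1) ≠ 0 := fun h' => h ((ZMod.intCast_zmod_eq_zero_iff_dvd A p.1).1 h')
  exact legendreSym.eq_one_iff p.1 h0

lemma Gl_gn (p : Pr) (A B : ℤ) : Gl ((A : ℤ) : ZMod p.1) ((B : ℤ) : ZMod p.1) = gn A B p.1 := by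
  classical
  unfold Gl gn
  have h1 : ((A : ℤ) : ZMod p.1) * ((B : ℤ) : ZMod p.1) = 0 ↔ (p.1 : ℤ) ∣ A * B := by
    rw [← Int.cast_mul, ZMod.intCast_zmod_eq_zero_iff_dvd]
  have h2 : ((A : ℤ) : ZMod p.1) = ((B : ℤ) : ZMod p.1) ↔ (p.1 : ℤ) ∣ A - B := by
    rw [← sub_eq_zero, ← Int.cast_sub, ZMod.intCast_zmod_eq_zero_iff_dvd]
  have h3 : ((A : ℤ) : ZMod p.1) ≠ 0 ↔ ¬ (p.1 : ℤ) ∣ A := by
    rw [Ne, ZMod.intCast_zmod_eq_zero_iff_dvd]
  congr 1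
  · simp only [h1]
  · by_cases hA : (p.1 : ℤ) ∣ A
    · have : ¬ ((A : ℤ) : ZMod p.1) ≠ 0 := fun h => (h3.1 h) hA
      simp [this, hA]
    · simp only [h2, h3, jac_iff hA]

/-- the additive function as a sum -/
lemma GG_sum {A B : ℤ} (hA : A ≠ 0) (hB : B ≠ 0) (hAB : A ≠ B) :
    GG A B = ∑ p ∈ QQ A B, Gl ((A : ℤ) : ZMod p.1) ((B : ℤ) : ZMod p.1) := by
  classical
  rw [sum_congr rfl fun p _ => Gl_gn p A B]
  have e1 : ∑ p ∈ QQ A B, gn A B p.1 = ∑ p ∈ QN A B, gn A B p := by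
    unfold QQ
    rw [sum_subtype_eq_sum_filter (fun p : ℕ => gn A B p)]
    refine sum_congr ?_ fun _ _ => rfl
    rw [filter_eq_self]
    intro p hp
    exact ((mem_QN hA hB hAB).1 hp).1
  rw [e1]
  unfold GG gn
  rw [sum_sub_distrib, sum_boole, sum_boole]
  congr 2
  · congr 1
    ext p
    unfold S2
    rw [mem_filter, mem_filter, mem_QN hA hB hAB, mem_pf]
    constructor
    · rintro ⟨⟨h1, h2, -⟩, h3⟩
      exact ⟨⟨h1, h3, Or.inl h2⟩, h2⟩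
    · rintro ⟨⟨h1, h3, -⟩, h2⟩
      exact ⟨⟨h1, h2, mul_ne_zero hA hB⟩, h3⟩
  · congr 1
    ext p
    unfold C1g
    rw [mem_filter, mem_filter, mem_QN hA hB hAB, mem_pf]
    constructor
    · rintro ⟨⟨h1, h2, -⟩, h3, h4⟩
      exact ⟨⟨h1, h3, Or.inr h2⟩, h2, h4⟩
    · rintro ⟨⟨h1, h3, -⟩, h2, h4⟩
      exact ⟨⟨h1, h2, sub_ne_zero.2 hAB⟩, h3, h4⟩

lemma Fl_tri (i : Fin 3) (p : Pr) (A B : ℤ) : Fl i p (red2 p (A, B)) =
    Gl (((tri i A B).1 : ℤ) : ZMod p.1) (((tri i A B).2 : ℤ) : ZMod p.1) := by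
  unfold Fl red2
  fin_cases i
  · rfl
  · change Gl (-(A : ZMod p.1)) ((B : ZMod p.1) - (A : ZMod p.1)) =
      Gl ((-A : ℤ) : ZMod p.1) ((B - A : ℤ) : ZMod p.1)
    push_cast
    rfl
  · change Gl (-(B : ZMod p.1)) ((A : ZMod p.1) - (B : ZMod p.1)) =
      Gl ((-B : ℤ) : ZMod p.1) ((A - B : ℤ) : ZMod p.1)
    push_cast
    rfl

lemma GG_tri {A B : ℤ} (hA : A ≠ 0) (hB : B ≠ 0) (hAB : A ≠ B) (i : Fin 3) :
    GG (tri i A B).1 (tri i A B).2 = ∑ p ∈ QQ A B, Fl i p (red2 p (A, B)) := by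
  obtain ⟨h1, h2, h3⟩ := tri_ne hA hB hAB i
  rw [GG_sum h1 h2 h3, QQ_tri]
  exact sum_congr rfl fun p _ => (Fl_tri i p A B).symm

lemma Fl_zero {A B : ℤ} (hA : A ≠ 0) (hB : B ≠ 0) (hAB : A ≠ B) (i : Fin 3) {p : Pr}
    (h11 : 11 ≤ p.1) (hp : p ∉ QQ A B) : Fl i p (red2 p (A, B)) = 0 := by
  rw [Fl_tri]
  have hp' : p ∉ QQ (tri i A B).1 (tri i A B).2 := by rwa [QQ_tri]
  obtain ⟨h1, h2, h3⟩ := tri_ne hA hB hAB i
  rw [mem_QQ h1 h2 h3, not_and, not_or] at hp'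
  obtain ⟨h4, h5⟩ := hp' h11
  have e1 : (((tri i A B).1 : ℤ) : ZMod p.1) * (((tri i A B).2 : ℤ) : ZMod p.1) ≠ 0 := by
    rw [← Int.cast_mul, Ne, ZMod.intCast_zmod_eq_zero_iff_dvd]
    exact h4
  refine Gl_off (left_ne_zero_of_mul e1) (right_ne_zero_of_mul e1) ?_
  intro h
  apply h5
  rw [← sub_eq_zero, ← Int.cast_sub, ZMod.intCast_zmod_eq_zero_iff_dvd] at h
  exact h

lemma abs_Fl (i : Fin 3) (p : Pr) (r : ZMod p.1 × ZMod p.1) : |Fl i p r| ≤ 2 := by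
  unfold Fl
  fin_cases i <;> exact abs_Gl _ _

/-- the large primes of bad reduction -/
noncomputable def Big (Y : ℕ) (A B : ℤ) : Finset Pr := (QQ A B).filter (fun p => Y < p.1)

/-- the truncation of the additive function -/
lemma trunc {A B : ℤ} (hA : A ≠ 0) (hB : B ≠ 0) (hAB : A ≠ B) (i : Fin 3) (n : ℕ) :
    |GG (tri i A B).1 (tri i A B).2 - ∑ p ∈ PP n, Fl i p (red2 p (A, B))| ≤
      2 * (Big (YY n) A B).card := by
  classical
  rw [GG_tri hA hB hAB i]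
  have e1 : ∑ p ∈ PP n, Fl i p (red2 p (A, B)) =
      ∑ p ∈ (QQ A B).filter (fun p => ¬ YY n < p.1), Fl i p (red2 p (A, B)) := by
    symm
    refine sum_subset ?_ ?_
    · intro p hp
      rw [mem_filter, mem_QQ hA hB hAB] at hp
      rw [mem_PP]
      exact ⟨hp.1.1, not_lt.1 hp.2⟩
    · intro p hp hp'
      rw [mem_PP] at hp
      apply Fl_zero hA hB hAB i hp.1
      intro h
      exact hp' (mem_filter.2 ⟨h, not_lt.2 hp.2⟩)
  rw [e1, ← sum_filter_add_sum_filter_not (QQ A B) (fun p => YY n < p.1), add_sub_cancel_right]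
  refine (abs_sum_le_sum_abs _ _).trans ((sum_le_sum fun p _ => abs_Fl i p _).trans ?_)
  rw [sum_const, nsmul_eq_mul, mul_comm]
  rfl

/-- the number of the large primes -/
lemma card_Big {A B : ℤ} (hA : A ≠ 0) (hB : B ≠ 0) (hAB : A ≠ B) {Y : ℕ} (hY : 1 ≤ Y) :
    ((Big Y A B).card : ℝ) * Real.log Y ≤ Real.log ((A * B * (A - B)).natAbs : ℝ) := by
  classical
  have h0 : A * B * (A - B) ≠ 0 := mul_ne_zero (mul_ne_zero hA hB) (sub_ne_zero.2 hAB)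
  have h1 : ∏ p ∈ Big Y A B, p.1 ∣ (A * B * (A - B)).natAbs := by
    rw [← Int.natCast_dvd]
    push_cast
    refine Finset.prod_dvd_of_coprime ?_ ?_
    · intro p _ q _ hpq
      rw [Function.onFun, Int.isCoprime_iff_gcd_eq_one, Int.gcd_natCast_natCast]
      exact (Nat.coprime_primes p.2 q.2).2 fun h => hpq (Subtype.ext h)
    · intro p hp
      unfold Big at hp
      rw [mem_filter, mem_QQ hA hB hAB] at hp
      rcases hp.1.2 with h | h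
      · exact h.mul_right _
      · exact h.mul_left _
  have h2 : Y ^ (Big Y A B).card ≤ ∏ p ∈ Big Y A B, p.1 := by
    refine Finset.pow_card_le_prod _ _ _ fun p hp => ?_
    unfold Big at hp
    exact (mem_filter.1 hp).2.le
  have h3 : Y ^ (Big Y A B).card ≤ (A * B * (A - B)).natAbs :=
    h2.trans (Nat.le_of_dvd (Int.natAbs_pos.2 h0) h1)
  have h4 : ((Y : ℝ) ^ (Big Y A B).card) ≤ ((A * B * (A - B)).natAbs : ℝ) := by exact_mod_cast h3
  have hY0 : (0 : ℝ) < Y := by exact_mod_cast (by omega : 0 < Y)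
  have h5 := Real.log_le_log (by positivity) h4
  rwa [Real.log_pow] at h5

lemma log_prod_le {n : ℕ} {A B : ℤ} (h : (A, B) ∈ Sq n) (hAB : A ≠ B) :
    Real.log ((A * B * (A - B)).natAbs : ℝ) ≤ 3 * Real.log n := by
  unfold Sq at h
  rw [mem_product, mem_Ioc, mem_Ioc] at h
  obtain ⟨⟨h1, h2⟩, h3, h4⟩ := h
  simp only at h1 h2 h3 h4
  have h0 : A * B * (A - B) ≠ 0 := mul_ne_zero (mul_ne_zero (by omega) (by omega))
    (sub_ne_zero.2 hAB)
  have h5 : (A * B * (A - B)).natAbs ≤ n ^ 3 := by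
    rw [Int.natAbs_mul, Int.natAbs_mul]
    have e1 : A.natAbs ≤ n := by omega
    have e2 : B.natAbs ≤ n := by omega
    have e3 : (A - B).natAbs ≤ n := by omega
    calc A.natAbs * B.natAbs * (A - B).natAbs ≤ n * n * n :=
          Nat.mul_le_mul (Nat.mul_le_mul e1 e2) e3
      _ = n ^ 3 := by ring
  have h6 : ((A * B * (A - B)).natAbs : ℝ) ≤ (n : ℝ) ^ 3 := by exact_mod_cast h5
  have h7 : (0 : ℝ) < ((A * B * (A - B)).natAbs : ℝ) := by
    exact_mod_cast Int.natAbs_pos.2 h0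
  have h8 := Real.log_le_log h7 h6
  rw [Real.log_pow] at h8
  exact_mod_cast h8

end Pool.Agent.X217.EK
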