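import Pool.Agent.X217.EK.Abs

/-!
# From characteristic functions to the distribution functions
-/

set_option autoImplicit false

namespace Pool.Agent.X217.EK

open Finset Filter Topology MeasureTheory ProbabilityTheory

variable {d : ℕ} {T : Type*}

/-- the space -/
abbrev Es (d : ℕ) : Type := EuclideanSpace ℝ (Fin d)

/-- the empirical measure -/
noncomputable def emp (Ω : Finset T) (Z : T → Fin d → ℝ) : Measure (Es d) :=
  ((Ω.card : ENNReal)⁻¹) • ∑ x ∈ Ω, Measure.dirac (WithLp.toLp 2 (Z x))

lemma emp_apply (Ω : Finset T) (Z : T → Fin d → ℝ) {B : Set (Es d)} (hB : MeasurableSet B)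
    [DecidablePred fun x => WithLp.toLp 2 (Z x) ∈ B] :
    emp Ω Z B = ((Ω.card : ENNReal)⁻¹) *
      ((Ω.filter (fun x => WithLp.toLp 2 (Z x) ∈ B)).card : ENNReal) := by
  unfold emp
  rw [Measure.smul_apply, Measure.coe_finsetSum, Finset.sum_apply, smul_eq_mul]
  congr 1
  rw [Finset.card_filter]
  push_cast
  refine sum_congr rfl fun x _ => ?_
  rw [Measure.dirac_apply' _ hB, Set.indicator_apply]
  simp

lemma emp_prob {Ω : Finset T} (h : Ω.Nonempty) (Z : T → Fin d → ℝ) :
    IsProbabilityMeasure (emp Ω Z) := by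
  classical
  constructor
  rw [emp_apply Ω Z MeasurableSet.univ]
  have : (Ω.filter (fun x => WithLp.toLp 2 (Z x) ∈ (Set.univ : Set (Es d)))) = Ω := by
    ext x
    simp
  rw [this]
  refine ENNReal.inv_mul_cancel ?_ (ENNReal.natCast_ne_top _)
  exact_mod_cast (card_pos.2 h).ne'

lemma emp_char (Ω : Finset T) (Z : T → Fin d → ℝ) (t : Es d) :
    charFun (emp Ω Z) t = av Ω (fun x => Complex.exp (Complex.I *
      ((∑ i, t i * Z x i : ℝ) : ℂ))) := by
  rw [charFun_apply]
  unfold emp
  rw [integral_smul_measure, integral_finsetSum_measure (fun x _ => integrable_dirac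
    (by simp))]
  unfold av
  simp only [integral_dirac]
  rw [ENNReal.toReal_inv, ENNReal.toReal_natCast, div_eq_inv_mul]
  rw [Complex.real_smul]
  push_cast
  congr 1
  refine sum_congr rfl fun x _ => ?_
  congr 1
  rw [mul_comm, PiLp.inner_apply]
  simp only [RCLike.inner_apply, conj_trivial]
  push_cast
  rfl

/-- the limit measure of a box -/
lemma std_box (z : Fin d → ℝ) :
    stdGaussian (Es d) {x : Es d | ∀ i, x i ≤ z i} = ∏ i, gaussianReal 0 1 (Set.Iic (z i)) := by
  have hB : MeasurableSet {x : Es d | ∀ i, x i ≤ z i} := by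
    have : {x : Es d | ∀ i, x i ≤ z i} = ⋂ i, {x : Es d | x i ≤ z i} := by
      ext x
      simp
    rw [this]
    refine MeasurableSet.iInter fun i => ?_
    exact measurableSet_le (by fun_prop) measurable_const
  rw [← map_pi_eq_stdGaussian, Measure.map_apply (by fun_prop) hB]
  have h1 : (WithLp.toLp 2) ⁻¹' {x : Es d | ∀ i, x i ≤ z i} =
      Set.pi Set.univ (fun i => Set.Iic (z i)) := by
    ext y
    simp [Pi.le_def]
  rw [h1, Measure.pi_pi]

/-- the boundary of a box -/
lemma std_frontier (z : Fin d → ℝ) :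
    stdGaussian (Es d) (frontier {x : Es d | ∀ i, x i ≤ z i}) = 0 := by
  have hsub : frontier {x : Es d | ∀ i, x i ≤ z i} ⊆ ⋃ i, {x : Es d | x i = z i} := by
    intro x hx
    have hcl : IsClosed {x : Es d | ∀ i, x i ≤ z i} := by
      have : {x : Es d | ∀ i, x i ≤ z i} = ⋂ i, {x : Es d | x i ≤ z i} := by
        ext x
        simp
      rw [this]
      exact isClosed_iInter fun i => isClosed_le (by fun_prop) continuous_const
    have h1 : x ∈ {x : Es d | ∀ i, x i ≤ z i} := by
      have := frontier_subset_closure hx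
      rwa [hcl.closure_eq] at this
    by_contra hcon
    simp only [Set.mem_iUnion, Set.mem_ofPred_eq, not_exists] at hcon
    have h2 : ∀ i, x i < z i := fun i => lt_of_le_of_ne (h1 i) (hcon i)
    have h3 : IsOpen {x : Es d | ∀ i, x i < z i} := by
      have : {x : Es d | ∀ i, x i < z i} = ⋂ i, {x : Es d | x i < z i} := by
        ext x
        simp
      rw [this]
      exact isOpen_iInter_of_finite fun i => isOpen_lt (by fun_prop) continuous_const
    have h4 : x ∈ interior {x : Es d | ∀ i, x i ≤ z i} :=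
      mem_interior.2 ⟨_, fun y hy i => (hy i).le, h3, h2⟩
    exact hx.2 h4
  refine measure_mono_null hsub ?_
  rw [measure_iUnion_null_iff]
  intro i
  have hB : MeasurableSet {x : Es d | x i = z i} :=
    measurableSet_eq_fun (by fun_prop) measurable_const
  rw [← map_pi_eq_stdGaussian, Measure.map_apply (by fun_prop) hB]
  have h1 : (WithLp.toLp 2) ⁻¹' {x : Es d | x i = z i} = {y : Fin d → ℝ | y i = z i} := by
    ext y
    simp
  rw [h1]
  have hna : NullSingletonClass (gaussianReal 0 1) :=
    nullSingletonClass_gaussianReal (by norm_num)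
  exact Measure.pi_hyperplane (fun _ : Fin d => gaussianReal 0 1) i (z i)

open Classical in
/-- **the distribution functions** -/
theorem box {Ω : ℕ → Finset T} (hΩ : ∀ n, (Ω n).Nonempty) (Z : ℕ → T → Fin d → ℝ)
    (h : ∀ t : Fin d → ℝ, Tendsto (fun n => av (Ω n) (fun x => Complex.exp (Complex.I *
      ((∑ i, t i * Z n x i : ℝ) : ℂ)))) atTop (𝓝 (Complex.exp (-((∑ i, t i ^ 2 : ℝ) : ℂ) / 2))))
    (z : Fin d → ℝ) :
    Tendsto (fun n => (((Ω n).filter (fun x => ∀ i, Z n x i ≤ z i)).card : ℝ) / (Ω n).card) atTop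
      (𝓝 (∏ i, (gaussianReal 0 1).real (Set.Iic (z i)))) := by
  let μ : ℕ → ProbabilityMeasure (Es d) := fun n => ⟨emp (Ω n) (Z n), emp_prob (hΩ n) (Z n)⟩
  let μ₀ : ProbabilityMeasure (Es d) := ⟨stdGaussian (Es d), inferInstance⟩
  have h1 : Tendsto μ atTop (𝓝 μ₀) := by
    apply ProbabilityMeasure.tendsto_of_tendsto_charFun
    intro t
    have h2 : charFun (μ₀ : Measure (Es d)) t = Complex.exp (-((∑ i, t i ^ 2 : ℝ) : ℂ) / 2) := by
      change charFun (stdGaussian (Es d)) t = _
      rw [charFun_stdGaussian]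
      congr 2
      have h3 := EuclideanSpace.real_norm_sq_eq t
      rw [← h3]
      push_cast
      rfl
    rw [h2]
    refine (tendsto_congr fun n => ?_).2 (h t)
    exact emp_char (Ω n) (Z n) t
  have h2 := ProbabilityMeasure.tendsto_measure_of_null_frontier_of_tendsto' h1
    (E := {x : Es d | ∀ i, x i ≤ z i}) (std_frontier z)
  have h3 : (μ₀ : Measure (Es d)) {x : Es d | ∀ i, x i ≤ z i} =
      ∏ i, gaussianReal 0 1 (Set.Iic (z i)) := std_box z
  rw [h3] at h2
  have hfin : ∏ i, gaussianReal 0 1 (Set.Iic (z i)) ≠ ⊤ :=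
    ENNReal.prod_ne_top fun i _ => measure_ne_top _ _
  have h4 := (ENNReal.tendsto_toReal hfin).comp h2
  have h5 : (∏ i, gaussianReal 0 1 (Set.Iic (z i))).toReal =
      ∏ i, (gaussianReal 0 1).real (Set.Iic (z i)) := by
    rw [ENNReal.toReal_prod]
    rfl
  rw [h5] at h4
  refine (tendsto_congr fun n => ?_).1 h4
  have hB : MeasurableSet {x : Es d | ∀ i, x i ≤ z i} := by
    have : {x : Es d | ∀ i, x i ≤ z i} = ⋂ i, {x : Es d | x i ≤ z i} := by
      ext x
      simp
    rw [this]
    refine MeasurableSet.iInter fun i => ?_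
    exact measurableSet_le (by fun_prop) measurable_const
  change (emp (Ω n) (Z n) {x : Es d | ∀ i, x i ≤ z i}).toReal = _
  rw [emp_apply _ _ hB, ENNReal.toReal_mul, ENNReal.toReal_inv, ENNReal.toReal_natCast,
    ENNReal.toReal_natCast, div_eq_inv_mul]
  rfl

end Pool.Agent.X217.EK
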