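import Pool.Agent.X217.EK.Dis

/-!
# The discrepancy of the reductions modulo primes of the integers of an interval and of the pairs
of integers of a box
-/

set_option autoImplicit false

namespace Pool.Agent.X217.EK

open Finset

/-- the primes -/
abbrev Pr : Type := {p : ℕ // p.Prime}

instance (p : Pr) : Fact p.1.Prime := ⟨p.2⟩

/-- arithmetic progressions -/
lemma cntAP {d : ℕ} (hd : 0 < d) (v N : ℤ) (M : ℕ) :
    |(((Ioc N (N + (M : ℤ))).filter (fun t => t ≡ v [ZMOD (d : ℤ)])).card : ℝ) - (M : ℝ) / d| ≤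
      1 := by
  have hd' : (0 : ℤ) < (d : ℤ) := by exact_mod_cast hd
  have hdq : (0 : ℚ) < (d : ℚ) := by exact_mod_cast hd
  have h := Int.Ioc_filter_modEq_card N (N + (M : ℤ)) hd' v
  set n := ((Ioc N (N + (M : ℤ))).filter (fun t => t ≡ v [ZMOD (d : ℤ)])).card with hn
  set x : ℚ := ((N - v : ℤ) : ℚ) / ((d : ℤ) : ℚ) with hx
  set y : ℚ := ((N + M - v : ℤ) : ℚ) / ((d : ℤ) : ℚ) with hy
  have hxy : y - x = (M : ℚ) / d := by
    rw [hx, hy]
    push_cast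
    field_simp
    ring
  have hxy0 : x ≤ y := by
    have : (0 : ℚ) ≤ (M : ℚ) / d := by positivity
    linarith
  have h1 : (n : ℤ) = ⌊y⌋ - ⌊x⌋ := by
    rw [h]
    have e1 : (((N + M : ℤ) : ℚ) - (v : ℚ)) / ((d : ℤ) : ℚ) = y := by rw [hy]; push_cast; ring
    have e2 : ((N : ℚ) - (v : ℚ)) / ((d : ℤ) : ℚ) = x := by rw [hx]; push_cast; ring
    rw [e1, e2]
    have := Int.floor_le_floor hxy0
    rw [max_eq_left (by omega)]
  have h2 : (n : ℚ) = (⌊y⌋ : ℚ) - (⌊x⌋ : ℚ) := by exact_mod_cast h1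
  have f1 := Int.floor_le y
  have f2 := Int.lt_floor_add_one y
  have f3 := Int.floor_le x
  have f4 := Int.lt_floor_add_one x
  have h3 : |(n : ℚ) - (M : ℚ) / d| ≤ 1 := by
    rw [abs_le, h2, ← hxy]
    constructor <;> linarith
  have h4 : ((|(n : ℚ) - (M : ℚ) / d| : ℚ) : ℝ) ≤ ((1 : ℚ) : ℝ) := by exact_mod_cast h3
  push_cast at h4
  exact h4

/-- the Chinese remainder theorem -/
lemma exists_res (S : Finset Pr) (y : ∀ i : S, ZMod i.1.1) : ∃ v : ℤ, ∀ t : ℤ,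
    (∀ i : S, ((t : ℤ) : ZMod i.1.1) = y i) ↔ t ≡ v [ZMOD ((∏ i ∈ S, i.1 : ℕ) : ℤ)] := by
  classical
  let a : Pr → ℕ := fun i => if h : i ∈ S then (y ⟨i, h⟩).val else 0
  have hpp : Set.Pairwise (S : Set Pr) (Function.onFun Nat.Coprime (fun i : Pr => i.1)) := by
    intro i _ j _ hij
    exact (Nat.coprime_primes i.2 j.2).2 fun h => hij (Subtype.ext h)
  obtain ⟨k, hk⟩ := Nat.chineseRemainderOfFinset a (fun i : Pr => i.1) S
    (fun i _ => i.2.ne_zero) hpp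
  refine ⟨(k : ℤ), fun t => ?_⟩
  have hky : ∀ i : S, ((k : ℤ) : ZMod i.1.1) = y i := by
    intro i
    have h1 := hk i.1 i.2
    simp only [a, dif_pos i.2] at h1
    have h2 := (ZMod.natCast_eq_natCast_iff k (y ⟨i.1, i.2⟩).val i.1.1).2 h1
    rw [Int.cast_natCast, h2, ZMod.natCast_zmod_val]
  have h1 : (∀ i : S, ((t : ℤ) : ZMod i.1.1) = y i) ↔ ∀ i ∈ S, ((i : ℕ) : ℤ) ∣ (k : ℤ) - t := by
    constructor
    · intro h i hi
      have h2 := h ⟨i, hi⟩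
      rw [← hky ⟨i, hi⟩] at h2
      exact (ZMod.intCast_eq_intCast_iff_dvd_sub t (k : ℤ) i.1).1 h2
    · intro h i
      rw [← hky i]
      exact (ZMod.intCast_eq_intCast_iff_dvd_sub t (k : ℤ) i.1.1).2 (h i.1 i.2)
  rw [h1, Int.modEq_iff_dvd]
  constructor
  · intro h
    push_cast
    refine Finset.prod_dvd_of_coprime ?_ h
    intro i hi j hj hij
    exact (Int.isCoprime_iff_gcd_eq_one).2 (by
      rw [Int.gcd_natCast_natCast]
      exact hpp hi hj hij)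
  · intro h i hi
    refine dvd_trans ?_ h
    exact_mod_cast dvd_prod_of_mem (fun i : Pr => i.1) hi

lemma card_R1 (S : Finset Pr) : ∏ i ∈ S, (Fintype.card (ZMod i.1) : ℝ) =
    ((∏ i ∈ S, i.1 : ℕ) : ℝ) := by
  push_cast
  exact prod_congr rfl fun i _ => by rw [ZMod.card]

lemma prod_pos' (S : Finset Pr) : 0 < ∏ i ∈ S, i.1 := prod_pos fun i _ => i.2.pos

lemma prod_le_pow {S : Finset Pr} {k Y : ℕ} (hY : 1 ≤ Y) (hk : S.card ≤ k)
    (hS : ∀ i ∈ S, i.1 ≤ Y) : ∏ i ∈ S, i.1 ≤ Y ^ k :=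
  (prod_le_pow_card S (fun i : Pr => i.1) Y hS).trans (Nat.pow_le_pow_right hY hk)

/-- the count in an interval -/
lemma cnt1 (S : Finset Pr) (y : ∀ i : S, ZMod i.1.1) (N : ℤ) (M : ℕ) :
    |(((Ioc N (N + (M : ℤ))).filter (fun t => ∀ i : S, ((t : ℤ) : ZMod i.1.1) = y i)).card : ℝ) -
      (M : ℝ) / ((∏ i ∈ S, i.1 : ℕ) : ℝ)| ≤ 1 := by
  obtain ⟨v, hv⟩ := exists_res S y
  have h1 := cntAP (prod_pos' S) v N M
  have h2 : (Ioc N (N + (M : ℤ))).filter (fun t => ∀ i : S, ((t : ℤ) : ZMod i.1.1) = y i) =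
      (Ioc N (N + (M : ℤ))).filter (fun t => t ≡ v [ZMOD ((∏ i ∈ S, i.1 : ℕ) : ℤ)]) := by
    ext t
    rw [mem_filter, mem_filter, hv]
  rw [h2]
  exact h1

/-- the reductions of an integer -/
def red1 (p : Pr) (t : ℤ) : ZMod p.1 := (t : ZMod p.1)

/-- the reductions of a pair -/
def red2 (p : Pr) (t : ℤ × ℤ) : ZMod p.1 × ZMod p.1 := ((t.1 : ZMod p.1), (t.2 : ZMod p.1))

/-- the discrepancy in an interval -/
theorem disc1 {P : Finset Pr} {Y : ℕ} (hY : 1 ≤ Y) (hP : ∀ i ∈ P, i.1 ≤ Y) (N : ℤ) {M : ℕ}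
    (hM : 0 < M) (k : ℕ) :
    Disc (R := fun p : Pr => ZMod p.1) P red1 (Ioc N (N + (M : ℤ))) k ((Y : ℝ) ^ k / M) := by
  classical
  apply disc_of
  intro S hSP hSk g hg
  have hne : (Ioc N (N + (M : ℤ))).Nonempty := by
    rw [nonempty_Ioc]
    omega
  have hcard : ((Ioc N (N + (M : ℤ))).card : ℝ) = M := by
    rw [Int.card_Ioc]
    simp
  have h1 := count_disc (R := fun p : Pr => ZMod p.1) (S := S) (ρ := red1) hne (e := 1) (by
    intro y
    rw [hcard, card_R1]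
    have h2 := cnt1 S y N M
    have h3 : ((Ioc N (N + (M : ℤ))).filter (fun x => ∀ i : S, red1 i.1 x = y i)).card =
      ((Ioc N (N + (M : ℤ))).filter (fun t => ∀ i : S, ((t : ℤ) : ZMod i.1.1) = y i)).card := by
      congr
    rw [← h3] at h2
    convert h2) g hg
  refine h1.trans ?_
  rw [card_R1, hcard, mul_one]
  refine div_le_div_of_nonneg_right ?_ (Nat.cast_nonneg _)
  exact_mod_cast prod_le_pow hY hSk fun i hi => hP i (hSP hi)

/-- the discrepancy in a square -/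
theorem disc2 {P : Finset Pr} {Y : ℕ} (hY : 1 ≤ Y) (hP : ∀ i ∈ P, i.1 ≤ Y) (N1 N2 : ℤ) {M : ℕ}
    (hM : 0 < M) (k : ℕ) :
    Disc (R := fun p : Pr => ZMod p.1 × ZMod p.1) P red2
      (Ioc N1 (N1 + (M : ℤ)) ×ˢ Ioc N2 (N2 + (M : ℤ))) k (3 * ((Y : ℝ) ^ (2 * k) / M)) := by
  classical
  apply disc_of
  intro S hSP hSk g hg
  have hM1 : (1 : ℝ) ≤ M := by exact_mod_cast hM
  have hM0 : (0 : ℝ) < M := by linarith
  have hne : (Ioc N1 (N1 + (M : ℤ)) ×ˢ Ioc N2 (N2 + (M : ℤ))).Nonempty := by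
    rw [nonempty_product, nonempty_Ioc, nonempty_Ioc]
    omega
  have hcard : ((Ioc N1 (N1 + (M : ℤ)) ×ˢ Ioc N2 (N2 + (M : ℤ))).card : ℝ) = (M : ℝ) ^ 2 := by
    rw [card_product, Int.card_Ioc, Int.card_Ioc]
    push_cast
    simp
    ring
  set d : ℝ := ((∏ i ∈ S, i.1 : ℕ) : ℝ) with hd
  have hd1 : 1 ≤ d := by
    rw [hd]
    exact_mod_cast prod_pos' S
  have hd0 : 0 < d := by linarith
  have hR : ∏ i ∈ S, (Fintype.card (ZMod i.1 × ZMod i.1) : ℝ) = d ^ 2 := by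
    rw [hd, ← card_R1, ← prod_pow]
    refine prod_congr rfl fun i _ => ?_
    rw [Fintype.card_prod]
    push_cast
    ring
  have h1 := count_disc (R := fun p : Pr => ZMod p.1 × ZMod p.1) (S := S) (ρ := red2) hne
    (e := 2 * (M / d) + 1) (by
    intro y
    have c1 := cnt1 S (fun i => (y i).1) N1 M
    have c2 := cnt1 S (fun i => (y i).2) N2 M
    rw [← hd] at c1 c2
    set A1 := (Ioc N1 (N1 + (M : ℤ))).filter (fun t => ∀ i : S, ((t : ℤ) : ZMod i.1.1) = (y i).1)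
    set A2 := (Ioc N2 (N2 + (M : ℤ))).filter (fun t => ∀ i : S, ((t : ℤ) : ZMod i.1.1) = (y i).2)
    have e1 : (Ioc N1 (N1 + (M : ℤ)) ×ˢ Ioc N2 (N2 + (M : ℤ))).filter
        (fun x => ∀ i : S, red2 i.1 x = y i) = A1 ×ˢ A2 := by
      ext ⟨s, t⟩
      simp only [A1, A2, mem_filter, mem_product, red2, Prod.ext_iff]
      constructor
      · rintro ⟨⟨h1, h2⟩, h3⟩
        exact ⟨⟨h1, fun i => (h3 i).1⟩, h2, fun i => (h3 i).2⟩
      · rintro ⟨⟨h1, h3⟩, h2, h4⟩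
        exact ⟨⟨h1, h2⟩, fun i => ⟨h3 i, h4 i⟩⟩
    have e1' : (((Ioc N1 (N1 + (M : ℤ)) ×ˢ Ioc N2 (N2 + (M : ℤ))).filter
        (fun x => ∀ i : S, red2 i.1 x = y i)).card : ℝ) = (A1.card : ℝ) * A2.card := by
      rw [e1, card_product]
      push_cast
      rfl
    rw [hcard, hR]
    have e2 : (M : ℝ) ^ 2 / d ^ 2 = (M / d) * (M / d) := by
      field_simp
    rw [e2]
    refine le_trans (le_of_eq ?_) (show |(A1.card : ℝ) * A2.card - (M / d) * (M / d)| ≤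
      2 * (M / d) + 1 from ?_)
    · rw [← e1']
      congr!
    · have hMd : 0 ≤ (M : ℝ) / d := by positivity
      obtain ⟨l1, u1⟩ := abs_le.1 c1
      obtain ⟨l2, u2⟩ := abs_le.1 c2
      have hn1 : (0 : ℝ) ≤ A1.card := Nat.cast_nonneg _
      have hn2 : (0 : ℝ) ≤ A2.card := Nat.cast_nonneg _
      have e3 : (A1.card : ℝ) * A2.card - (M / d) * (M / d) =
          (A1.card - M / d) * A2.card + (M / d) * (A2.card - M / d) := by ring
      rw [e3]
      refine (abs_add_le _ _).trans ?_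
      rw [abs_mul, abs_mul, abs_of_nonneg hn2, abs_of_nonneg hMd]
      have h5 : |(A1.card : ℝ) - M / d| * A2.card ≤ 1 * A2.card :=
        mul_le_mul_of_nonneg_right c1 hn2
      have h6 : (M / d) * |(A2.card : ℝ) - M / d| ≤ (M / d) * 1 :=
        mul_le_mul_of_nonneg_left c2 hMd
      linarith) g hg
  refine h1.trans ?_
  rw [hR, hcard]
  have hdY : d ≤ (Y : ℝ) ^ k := by
    rw [hd]
    exact_mod_cast prod_le_pow hY hSk fun i hi => hP i (hSP hi)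
  have hdY2 : d ^ 2 ≤ (Y : ℝ) ^ (2 * k) := by
    rw [mul_comm, pow_mul]
    exact pow_le_pow_left₀ hd0.le hdY 2
  have e5 : d ^ 2 * (2 * (M / d) + 1) / (M : ℝ) ^ 2 = 2 * (d / M) + (d ^ 2 / M) / M := by
    field_simp
  rw [e5]
  have h7 : d / M ≤ (Y : ℝ) ^ (2 * k) / M := by
    refine div_le_div_of_nonneg_right ?_ hM0.le
    nlinarith
  have h8 : (d ^ 2 / M) / M ≤ (Y : ℝ) ^ (2 * k) / M :=
    (div_le_self (by positivity) hM1).trans (div_le_div_of_nonneg_right hdY2 hM0.le)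
  linarith

end Pool.Agent.X217.EK
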