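import Pool.Agent.X217.EK.Loc

/-!
# The limit of the characteristic functions for the pairs
-/

set_option autoImplicit false

namespace Pool.Agent.X217.EK

open Finset Filter Topology

/-- the pairs of integers from `1` to `n` -/
noncomputable def Sq (n : ℕ) : Finset (ℤ × ℤ) := Ioc 0 (0 + (n : ℤ)) ×ˢ Ioc 0 (0 + (n : ℤ))

lemma card_Sq (n : ℕ) : ((Sq n).card : ℝ) = (n : ℝ) ^ 2 := by
  unfold Sq
  rw [card_product, Int.card_Ioc]
  push_cast
  simp
  ring

lemma sqrt_inv : Tendsto (fun n => (√(ell n))⁻¹) atTop (𝓝 0) :=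
  (Real.tendsto_sqrt_atTop.comp tendsto_ell).inv_tendsto_atTop

lemma ell_inv : Tendsto (fun n => (ell n)⁻¹) atTop (𝓝 0) := tendsto_ell.inv_tendsto_atTop

lemma sum_inv_ell : Tendsto (fun n => (∑ p ∈ PP n, (1 : ℝ) / p.1) / ell n) atTop (𝓝 1) := by
  have h1 := (sum_inv_PP.mul sqrt_inv).add_const 1
  rw [zero_mul, zero_add] at h1
  refine (tendsto_congr' ?_).1 h1
  filter_upwards [tendsto_ell.eventually_gt_atTop 0] with n hn
  have h2 : √(ell n) * √(ell n) = ell n := Real.mul_self_sqrt hn.le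
  have h3 : √(ell n) ≠ 0 := (Real.sqrt_pos.2 hn).ne'
  rw [← div_eq_mul_inv, div_div, h2, sub_div, div_self hn.ne']
  ring

/-- the sum of the variances -/
lemma sum_va (t : Fin 3 → ℝ) : Tendsto (fun n => (∑ p ∈ PP n, va (gl t p)) / ell n) atTop
    (𝓝 (5 / 2 * (t 0 ^ 2 + t 1 ^ 2 + t 2 ^ 2))) := by
  set q := t 0 ^ 2 + t 1 ^ 2 + t 2 ^ 2 with hq
  set K := 5 * q + 5 * (t 0 + t 1 + t 2) ^ 2 with hK
  have hK0 : 0 ≤ K := by positivity
  have h1 : Tendsto (fun n => (∑ p ∈ PP n, va (gl t p)) / ell n -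
      5 / 2 * q * ((∑ p ∈ PP n, (1 : ℝ) / p.1) / ell n)) atTop (𝓝 0) := by
    rw [tendsto_zero_iff_abs_tendsto_zero]
    refine squeeze_zero' (Eventually.of_forall fun n => abs_nonneg _) ?_
      (by simpa using ell_inv.const_mul (2 * K))
    filter_upwards [tendsto_ell.eventually_gt_atTop 0] with n hn
    rw [Function.comp_apply]
    have e1 : (∑ p ∈ PP n, va (gl t p)) / ell n - 5 / 2 * q * ((∑ p ∈ PP n, (1 : ℝ) / p.1) / ell n) =
        (∑ p ∈ PP n, (va (gl t p) - 5 / 2 * q * (1 / (p.1 : ℝ)))) * (ell n)⁻¹ := by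
      rw [sum_sub_distrib, ← mul_sum]
      ring
    rw [e1, abs_mul, abs_of_pos (inv_pos.2 hn)]
    refine mul_le_mul_of_nonneg_right ?_ (inv_pos.2 hn).le
    refine (abs_sum_le_sum_abs _ _).trans ?_
    have e2 : ∑ p ∈ PP n, |va (gl t p) - 5 / 2 * q * (1 / (p.1 : ℝ))| ≤
        ∑ p ∈ PP n, K * (1 / (p.1 : ℝ) ^ 2) := by
      refine sum_le_sum fun p hp => va_gl t ?_
      have := (mem_PP.1 hp).1
      omega
    rw [← mul_sum] at e2
    have e3 := mul_le_mul_of_nonneg_left (sum_sq_inv n) hK0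
    linarith
  have h2 := h1.add (sum_inv_ell.const_mul (5 / 2 * q))
  rw [zero_add, mul_one] at h2
  refine (tendsto_congr fun n => ?_).1 h2
  ring

/-- the sum of the means -/
lemma sum_me (t : Fin 3 → ℝ) : Tendsto (fun n => (∑ p ∈ PP n, me (gl t p) -
    3 / 2 * (t 0 + t 1 + t 2) * ell n) / √(ell n)) atTop (𝓝 0) := by
  set s := t 0 + t 1 + t 2 with hs
  have h1 : Tendsto (fun n => (∑ p ∈ PP n, me (gl t p) - 3 / 2 * s * ell n) / √(ell n) -
      3 / 2 * s * ((∑ p ∈ PP n, (1 : ℝ) / p.1 - ell n) / √(ell n))) atTop (𝓝 0) := by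
    rw [tendsto_zero_iff_abs_tendsto_zero]
    refine squeeze_zero' (Eventually.of_forall fun n => abs_nonneg _) ?_
      (by simpa using sqrt_inv.const_mul |s|)
    filter_upwards with n
    rw [Function.comp_apply]
    have e1 : (∑ p ∈ PP n, me (gl t p) - 3 / 2 * s * ell n) / √(ell n) -
        3 / 2 * s * ((∑ p ∈ PP n, (1 : ℝ) / p.1 - ell n) / √(ell n)) =
        (-(1 / 2) * s * ∑ p ∈ PP n, 1 / (p.1 : ℝ) ^ 2) * (√(ell n))⁻¹ := by
      have e2 : ∑ p ∈ PP n, me (gl t p) = 3 / 2 * s * ∑ p ∈ PP n, (1 : ℝ) / p.1 -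
          1 / 2 * s * ∑ p ∈ PP n, 1 / (p.1 : ℝ) ^ 2 := by
        rw [mul_sum, mul_sum, ← sum_sub_distrib]
        refine sum_congr rfl fun p hp => ?_
        rw [me_gl t (by have := (mem_PP.1 hp).1; omega)]
        ring
      rw [e2]
      ring
    rw [e1, abs_mul, abs_of_nonneg (inv_nonneg.2 (Real.sqrt_nonneg _))]
    refine mul_le_mul_of_nonneg_right ?_ (inv_nonneg.2 (Real.sqrt_nonneg _))
    have e3 : 0 ≤ ∑ p ∈ PP n, 1 / (p.1 : ℝ) ^ 2 := sum_nonneg fun _ _ => by positivity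
    have e4 := sum_sq_inv n
    rw [abs_mul, abs_mul, abs_of_nonneg e3]
    have e5 : |(-(1 / 2) : ℝ)| = 1 / 2 := by norm_num
    rw [e5]
    nlinarith [abs_nonneg s]
  have h2 := h1.add (sum_inv_PP.const_mul (3 / 2 * s))
  rw [zero_add, mul_zero] at h2
  refine (tendsto_congr fun n => ?_).1 h2
  ring

/-- **the characteristic functions** -/
theorem char_pairs (t : Fin 3 → ℝ) : Tendsto (fun n => av (Sq n) (fun x => Complex.exp (Complex.I *
      (((∑ p ∈ PP n, (gl t p (red2 p x) - me (gl t p))) / √(ell n) : ℝ) : ℂ)))) atTop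
      (𝓝 (Complex.exp (-((5 / 2 * (t 0 ^ 2 + t 1 ^ 2 + t 2 ^ 2) : ℝ) : ℂ) / 2))) := by
  refine lim2 (R := fun p : Pr => ZMod p.1 × ZMod p.1) (ρ := red2) (g := gl t)
    (C := 2 * (|t 0| + |t 1| + |t 2|)) (fun p r => abs_gl t p r) tendsto_ell (sum_va t) ?_
  intro k
  refine ⟨fun n => 3 * ((YY n : ℝ) ^ (2 * k) / n), ?_, ?_⟩
  · filter_upwards [eventually_gt_atTop 0, tendsto_YY.eventually_ge_atTop 1] with n hn hY
    exact disc2 hY (fun i hi => (mem_PP.1 hi).2) 0 0 hn k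
  · have h1 := (YY_pow (3 * k)).const_mul 3
    rw [mul_zero] at h1
    refine squeeze_zero (fun n => by positivity) (fun n => ?_) h1
    have h2 : ((PP n).card : ℝ) ^ k ≤ (YY n : ℝ) ^ k :=
      pow_le_pow_left₀ (Nat.cast_nonneg _) (card_PP n) k
    calc ((PP n).card : ℝ) ^ k * (3 * ((YY n : ℝ) ^ (2 * k) / n)) ≤
          (YY n : ℝ) ^ k * (3 * ((YY n : ℝ) ^ (2 * k) / n)) :=
          mul_le_mul_of_nonneg_right h2 (by positivity)
      _ = 3 * ((YY n : ℝ) ^ (3 * k) / n) := by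
          rw [show 3 * k = k + 2 * k from by ring, pow_add]
          ring

end Pool.Agent.X217.EK
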