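import Pool.Agent.X217.NS.Fam
import Pool.Agent.X217.EK.PLim

/-!
# The Tate-Shafarevich group of the quotient, compared with an additive function
-/

set_option autoImplicit false
set_option linter.unusedSectionVars false

namespace Pool.Agent.X217.EK

open Finset WeierstrassCurve

open Pool.Agent.TH841.SH.D

open Pool.Agent.TH841.LS (WI GA GD C1x C2x)

open Pool.Agent.TH841.PT (EQ)

open Pool.Agent.TH841.NO (SQ fo S2 C1g C2g)

open Pool.Agent.W307.SE (SN Sel)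

open Pool.Agent.X217.NS

/-- the additive function -/
noncomputable def GG (A B : ℤ) : ℝ := ((S2 A B).card : ℝ) - ((C1g A B).card : ℝ)

open Classical in
/-- the exceptional primes -/
noncomputable def TT (A B : ℤ) : Finset ℕ := (A * B).natAbs.primeFactors.filter (fun p => 11 ≤ p ∧
  ((p : ℤ) ^ 2 ∣ A ∨ (p : ℤ) ^ 2 ∣ B ∨ ((p : ℤ) ∣ A ∧ (p : ℤ) ∣ B)))

lemma sq_dvd_of_even {p : ℕ} (hp : p.Prime) {A : ℤ} (hA : A ≠ 0) (hd : (p : ℤ) ∣ A)
    (he : ¬ Odd (padicValInt p A)) : (p : ℤ) ^ 2 ∣ A := by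
  have := Fact.mk hp
  have h1 : 1 ≤ padicValInt p A := by
    rw [Nat.one_le_iff_ne_zero]
    intro h0
    rw [padicValInt.eq_zero_iff] at h0
    rcases h0 with h0 | h0 | h0
    · exact hp.one_lt.ne' h0
    · exact hA h0
    · exact h0 hd
  have h2 : 2 ≤ padicValInt p A := by
    rcases Nat.lt_or_ge (padicValInt p A) 2 with h | h
    · exfalso
      apply he
      rw [show padicValInt p A = 1 by omega]
      exact odd_one
    · exact h
  have h3 : (p : ℤ) ^ (padicValInt p A) ∣ A := padicValInt_dvd A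
  exact (pow_dvd_pow _ h2).trans h3

lemma mem_pf {p : ℕ} {A : ℤ} : p ∈ A.natAbs.primeFactors ↔ p.Prime ∧ (p : ℤ) ∣ A ∧ A ≠ 0 := by
  rw [Nat.mem_primeFactors, Int.natCast_dvd, Int.natAbs_ne_zero]

lemma S2_le {A B : ℤ} (hA : A ≠ 0) (hB : B ≠ 0) :
    (S2 A B).card ≤ (GA A B).card + (TT A B).card := by
  classical
  refine (card_le_card ?_).trans (card_union_le _ _)
  intro p hp
  unfold S2 at hp
  rw [mem_filter, mem_pf] at hp
  obtain ⟨⟨hpp, hd, h0⟩, h11⟩ := hp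
  rw [mem_union]
  unfold GA TT
  rw [mem_filter, mem_filter, mem_pf]
  have hdd := (Nat.prime_iff_prime_int.1 hpp).dvd_or_dvd hd
  by_cases hAB : (p : ℤ) ∣ A - B
  · right
    refine ⟨⟨hpp, hd, h0⟩, h11, Or.inr (Or.inr ?_)⟩
    rcases hdd with h | h
    · exact ⟨h, by simpa using dvd_sub h hAB⟩
    · exact ⟨by simpa using dvd_add hAB h, h⟩
  · by_cases ho : Odd (padicValInt p A) ∨ Odd (padicValInt p B)
    · left
      exact ⟨⟨hpp, hd, h0⟩, h11, hAB, ho⟩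
    · right
      rw [not_or] at ho
      refine ⟨⟨hpp, hd, h0⟩, h11, ?_⟩
      rcases hdd with h | h
      · exact Or.inl (sq_dvd_of_even hpp hA h ho.1)
      · exact Or.inr (Or.inl (sq_dvd_of_even hpp hB h ho.2))

lemma both {p : ℕ} {A B : ℤ} (hAB : (p : ℤ) ∣ A - B) (h : (p : ℤ) ∣ A) : (p : ℤ) ∣ B := by
  simpa using dvd_sub h hAB

lemma jac_cases {p : ℕ} (hp : p.Prime) {A : ℤ} (h : ¬ (p : ℤ) ∣ A) (h1 : jacobiSym A p ≠ -1) :
    jacobiSym A p = 1 := by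
  have := Fact.mk hp
  rw [← jacobiSym.legendreSym.to_jacobiSym] at h1 ⊢
  have h0 : (A : ZMod p) ≠ 0 := fun h' => h ((ZMod.intCast_zmod_eq_zero_iff_dvd A p).1 h')
  rcases legendreSym.eq_one_or_neg_one p h0 with h2 | h2
  · exact h2
  · exact absurd h2 h1

lemma C1x_le {A B : ℤ} (hA : A ≠ 0) (hB : B ≠ 0) :
    (C1x A B).card ≤ (C1g A B).card + (TT A B).card := by
  classical
  refine (card_le_card ?_).trans (card_union_le _ _)
  intro p hp
  unfold C1x at hp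
  rw [mem_filter, mem_pf] at hp
  obtain ⟨⟨hpp, hd, h0⟩, h11, hv, hj⟩ := hp
  rw [mem_union]
  unfold C1g TT
  rw [mem_filter, mem_filter, mem_pf, mem_pf]
  by_cases hpA : (p : ℤ) ∣ A
  · right
    exact ⟨⟨hpp, hpA.mul_right B, mul_ne_zero hA hB⟩, h11, Or.inr (Or.inr ⟨hpA, both hd hpA⟩)⟩
  · left
    exact ⟨⟨hpp, hd, h0⟩, h11, hpA, jac_cases hpp hpA hj⟩

lemma C2x_le {A B : ℤ} (hA : A ≠ 0) (hB : B ≠ 0) : (C2x A B).card ≤ (TT A B).card := by
  classical
  refine card_le_card ?_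
  intro p hp
  unfold C2x at hp
  rw [mem_filter, mem_pf] at hp
  obtain ⟨⟨hpp, hd, h0⟩, h11, hv, -⟩ := hp
  unfold TT
  rw [mem_filter, mem_pf]
  have := Fact.mk hpp
  have hpA : (p : ℤ) ∣ A := by
    by_contra h
    rw [padicValInt.eq_zero_of_not_dvd h] at hv
    exact absurd hv (by decide)
  exact ⟨⟨hpp, hpA.mul_right B, mul_ne_zero hA hB⟩, h11, Or.inr (Or.inr ⟨hpA, both hd hpA⟩)⟩

/-- **one curve** -/
theorem one {A B : ℤ} (hA : A ≠ 0) (hB : B ≠ 0) (hAB : A ≠ B) {R : ℕ}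
    (hR : SN A B < 2 ^ (R + 1)) {j : ℕ} (hj : 1 ≤ j) :
    Finite (ShaTor (EQ A B) (2 ^ j)) ∧ Finite (ShaTor (WI A B) (2 ^ j)) ∧
      (2 : ℝ) ^ rk (EQ A B) * (Nat.card (ShaTor (EQ A B) (2 ^ j)) : ℝ) ^ ((1 : ℝ) / j) ≤
        2 ^ (R + 1) ∧
      |Real.logb 2 (Nat.card (ShaTor (WI A B) (2 ^ j))) - GG A B| ≤
        3 * (TT A B).card + (R + 12) * (j + 1) := by
  have H : ∀ A' B' : ℤ, A * 1 ^ 2 = A' → B * 1 ^ 2 = B' →
      (∀ j : ℕ, Finite (ShaTor (EQ A' B') (2 ^ j))) ∧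
      (∀ j : ℕ, 1 ≤ j → (2 : ℝ) ^ rk (EQ A' B') *
        (Nat.card (ShaTor (EQ A' B') (2 ^ j)) : ℝ) ^ ((1 : ℝ) / j) ≤ 2 ^ (R + 1)) ∧
      ∃ k : ℕ, (GA A B).card + (GD A B).card ≤ k + (C1x A B).card + (C2x A B).card + R + 7 ∧
        ∃ φ : (Fin k → ZMod 2) →+ Sha (WI A' B'), Function.Injective φ := by
    rintro _ _ rfl rfl
    exact Pool.Agent.TH841.LS.one_curve3 A B 1 hAB hA hB one_ne_zero hR
  obtain ⟨k1, k2, k, hk, φ, hφ⟩ := H A B (by ring) (by ring)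
  have h5 := sha_bound hAB hA hB (2 ^ j) (k1 j)
  refine ⟨k1 j, h5.1, k2 j hj, ?_⟩
  have hfin := k1 j
  have hfin' := h5.1
  have hne' : Nonempty (ShaTor (WI A B) (2 ^ j)) := ⟨⟨0, smul_zero _⟩⟩
  have hne : Nonempty (ShaTor (EQ A B) (2 ^ j)) := ⟨⟨0, smul_zero _⟩⟩
  have hc2 : (1 : ℝ) ≤ (Nat.card (ShaTor (WI A B) (2 ^ j)) : ℝ) := by
    exact_mod_cast Nat.card_pos
  have hc1 : (1 : ℝ) ≤ (Nat.card (ShaTor (EQ A B) (2 ^ j)) : ℝ) := by
    exact_mod_cast Nat.card_pos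
  have hj0 : (0 : ℝ) < j := by exact_mod_cast hj
  have hj1 : (1 : ℝ) ≤ j := by exact_mod_cast hj
  have hR0 : (0 : ℝ) ≤ R := Nat.cast_nonneg R
  -- the lower bound
  have low : (k : ℝ) ≤ Real.logb 2 (Nat.card (ShaTor (WI A B) (2 ^ j))) := by
    have h6 := le_card hj h5.1 φ hφ
    have h7 : (2 : ℝ) ^ (k : ℝ) ≤ (Nat.card (ShaTor (WI A B) (2 ^ j)) : ℝ) := by
      rw [Real.rpow_natCast]
      exact_mod_cast h6
    rw [Real.le_logb_iff_rpow_le (by norm_num) (lt_of_lt_of_le (by positivity) h7)]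
    exact h7
  have c1 : ((S2 A B).card : ℝ) ≤ (GA A B).card + (TT A B).card := by exact_mod_cast S2_le hA hB
  have c2 : ((C1x A B).card : ℝ) ≤ (C1g A B).card + (TT A B).card := by exact_mod_cast C1x_le hA hB
  have c3 : ((C2x A B).card : ℝ) ≤ (TT A B).card := by exact_mod_cast C2x_le hA hB
  have c4 : ((GA A B).card : ℝ) + (GD A B).card ≤ k + (C1x A B).card + (C2x A B).card + R + 7 := by
    exact_mod_cast hk
  have c5 : (0 : ℝ) ≤ (GD A B).card := Nat.cast_nonneg _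
  have c6 : (0 : ℝ) ≤ (TT A B).card := Nat.cast_nonneg _
  have c7 : (0 : ℝ) ≤ (C2g A B).card := Nat.cast_nonneg _
  -- the upper bound
  have h6 : (Nat.card (ShaTor (EQ A B) (2 ^ j)) : ℝ) ≤ (2 : ℝ) ^ (((R : ℝ) + 1) * j) := by
    have h7 : (Nat.card (ShaTor (EQ A B) (2 ^ j)) : ℝ) ^ ((1 : ℝ) / j) ≤ 2 ^ (R + 1) := by
      refine le_trans ?_ (k2 j hj)
      exact le_mul_of_one_le_left (by positivity) (one_le_pow₀ (by norm_num))
    have h8 := Real.rpow_le_rpow (by positivity) h7 hj0.le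
    rw [← Real.rpow_mul (by positivity), one_div, inv_mul_cancel₀ hj0.ne', Real.rpow_one] at h8
    refine h8.trans (le_of_eq ?_)
    rw [Real.rpow_mul (by norm_num : (0 : ℝ) ≤ 2)]
    congr 1
    exact_mod_cast (Real.rpow_natCast (2 : ℝ) (R + 1)).symm
  have hub := Pool.Agent.TH841.NO.ub Pool.Agent.TH841.NO.QULf.qul
    Pool.Agent.TH841.NO.LWAf.lwa Pool.Agent.TH841.NO.LWBf.lwb
    Pool.Agent.TH841.NO.LWBf.lwc Pool.Agent.TH841.NO.PRf.pra Pool.Agent.TH841.NO.PRf.prb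
    Pool.Agent.TH841.NO.LIN2f.lin2 hA hB hAB
  have hSQ0 : (SQ (-(A + B)) (A * B)).ncard ≠ 0 ∨ (SQ (-(A + B)) (A * B)).ncard = 0 := by tauto
  have hfo : (2 : ℝ) ^ fo (-(A + B)) (A * B) * 2 ^ ((C1g A B).card + (C2g A B).card) ≤
      2 ^ 10 * 2 ^ (S2 A B).card * 2 ^ (R + 1) := by
    have h9 : ((SQ (-(A + B)) (A * B)).ncard : ℝ) * 2 ^ ((C1g A B).card + (C2g A B).card) ≤
        2 ^ 10 * 2 ^ (S2 A B).card * SN A B := by
      unfold SN
      exact_mod_cast hub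
    have h10 : (2 : ℝ) ^ 10 * 2 ^ (S2 A B).card * SN A B ≤
        2 ^ 10 * 2 ^ (S2 A B).card * 2 ^ (R + 1) :=
      mul_le_mul_of_nonneg_left hR.le (by positivity)
    rcases hSQ0 with h0 | h0
    · have h11 : (2 : ℝ) ^ fo (-(A + B)) (A * B) ≤ ((SQ (-(A + B)) (A * B)).ncard : ℝ) := by
        unfold fo
        exact_mod_cast Nat.pow_log_le_self 2 h0
      exact (mul_le_mul_of_nonneg_right h11 (by positivity)).trans (h9.trans h10)
    · exfalso
      -- the class of one is an element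
      have h12 : fo (-(A + B)) (A * B) = 0 := by
        unfold fo
        rw [h0]
        exact Nat.log_zero_right 2
      have h13 : (1 : ℤ) ∈ SQ (-(A + B)) (A * B) := by
        refine ⟨squarefree_one, one_dvd _, ?_, fun p _ => ?_⟩
        · exact ⟨1, 1, 0, Or.inl one_ne_zero, by push_cast; ring⟩
        · exact ⟨1, 1, 0, Or.inl one_ne_zero, by push_cast; ring⟩
      rw [Set.ncard_eq_zero (Pool.Agent.Y500.IS.sqf _ _ (mul_ne_zero hA hB))] at h0
      rw [h0] at h13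
      exact h13
  have up : Real.logb 2 (Nat.card (ShaTor (WI A B) (2 ^ j))) ≤
      GG A B + 10 + (R + 1) + (R + 1) * j := by
    have h9 : (Nat.card (ShaTor (WI A B) (2 ^ j)) : ℝ) ≤
        (2 : ℝ) ^ (GG A B + 10 + (R + 1) + (R + 1) * j) := by
      have h10 : (Nat.card (ShaTor (WI A B) (2 ^ j)) : ℝ) ≤
          2 ^ fo (-(A + B)) (A * B) * (Nat.card (ShaTor (EQ A B) (2 ^ j)) : ℝ) := by
        exact_mod_cast h5.2
      have h11 : (2 : ℝ) ^ fo (-(A + B)) (A * B) ≤ (2 : ℝ) ^ (GG A B + 10 + ((R : ℝ) + 1)) := by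
        have h12 : (2 : ℝ) ^ fo (-(A + B)) (A * B) * 2 ^ (C1g A B).card ≤
            2 ^ 10 * 2 ^ (S2 A B).card * 2 ^ (R + 1) := by
          refine le_trans ?_ hfo
          refine mul_le_mul_of_nonneg_left ?_ (by positivity)
          exact pow_le_pow_right₀ (by norm_num) (by omega)
        have h13 : (2 : ℝ) ^ (GG A B + 10 + ((R : ℝ) + 1)) * 2 ^ (C1g A B).card =
            2 ^ 10 * 2 ^ (S2 A B).card * 2 ^ (R + 1) := by
          rw [← Real.rpow_natCast 2 (C1g A B).card, ← Real.rpow_natCast 2 (S2 A B).card,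
            ← Real.rpow_natCast 2 10, ← Real.rpow_natCast 2 (R + 1),
            ← Real.rpow_add (by norm_num), ← Real.rpow_add (by norm_num),
            ← Real.rpow_add (by norm_num)]
          congr 1
          unfold GG
          push_cast
          ring
        rw [← h13] at h12
        exact le_of_mul_le_mul_right h12 (by positivity)
      rw [show GG A B + 10 + ((R : ℝ) + 1) + (R + 1) * j =
        (GG A B + 10 + ((R : ℝ) + 1)) + (R + 1) * j by ring, Real.rpow_add (by norm_num)]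
      exact h10.trans (mul_le_mul h11 h6 (by positivity) (by positivity))
    rw [Real.logb_le_iff_le_rpow (by norm_num) (by linarith)]
    exact h9
  have hRj : (R : ℝ) ≤ R * j := le_mul_of_one_le_right hR0 hj1
  rw [abs_le]
  unfold GG at up ⊢
  constructor
  · nlinarith
  · nlinarith

end Pool.Agent.X217.EK
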