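import Pool.Agent.X217.EK.Lim

/-!
# The discrepancy condition from counts
-/

set_option autoImplicit false

namespace Pool.Agent.X217.EK

open Finset Filter Topology Complex

variable {ι : Type*} [DecidableEq ι] {R : ι → Type*} [∀ i, Fintype (R i)] [∀ i, Nonempty (R i)]
  {T : Type*}

/-- the discrepancy from products over sets of indices -/
lemma disc_of {P : Finset ι} {ρ : ∀ i, T → R i} {Ω : Finset T} {k : ℕ} {δ : ℝ}
    (h : ∀ S : Finset ι, S ⊆ P → S.card ≤ k → ∀ g : ∀ i, R i → ℝ, (∀ i r, |g i r| ≤ 1) →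
      |avr Ω (fun x => ∏ i ∈ S, g i (ρ i x)) - ∏ i ∈ S, avr univ (g i)| ≤ δ) :
    Disc P ρ Ω k δ := by
  classical
  intro c u hu
  let S : Finset ι := univ.image (fun j => (c j : ι))
  have hSP : S ⊆ P := by
    intro i hi
    obtain ⟨j, _, rfl⟩ := mem_image.1 hi
    exact (c j).2
  have hSk : S.card ≤ k := by
    have := card_image_le (s := (univ : Finset (Fin k))) (f := fun j => (c j : ι))
    simpa using this
  let g : ∀ i, R i → ℝ := fun i r => ∏ j, if hj : (c j : ι) = i then u j (hj ▸ r) else 1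
  have hg : ∀ i r, |g i r| ≤ 1 := by
    intro i r
    simp only [g]
    rw [abs_prod]
    refine prod_le_one (fun _ _ => abs_nonneg _) fun j _ => ?_
    split_ifs with hj
    · exact hu _ _
    · simp
  have key : ∀ y : ∀ i, R i, ∏ i ∈ S, g i (y i) = ∏ j, u j (y (c j)) := by
    intro y
    simp only [g]
    rw [Finset.prod_comm]
    refine prod_congr rfl fun j _ => ?_
    have hj : (c j : ι) ∈ S := mem_image_of_mem _ (mem_univ j)
    rw [prod_eq_single_of_mem _ hj (fun i _ hne => by rw [dif_neg (fun h => hne h.symm)])]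
    rw [dif_pos rfl]
  have key1 : ∀ i, i ∉ S → g i = fun _ => 1 := by
    intro i hi
    funext r
    simp only [g]
    refine prod_eq_one fun j _ => ?_
    rw [dif_neg]
    intro hj
    exact hi (mem_image.2 ⟨j, mem_univ _, hj⟩)
  have h1 := h S hSP hSk g hg
  have e1 : avr Ω (fun x => ∏ j, u j (ρ (c j) x)) = avr Ω (fun x => ∏ i ∈ S, g i (ρ i x)) := by
    congr 1
    funext x
    exact (key fun i => ρ i x).symm
  have e2 : avr (univ : Finset (∀ i : P, R i)) (fun r => ∏ j, u j (r (c j))) =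
      ∏ i ∈ S, avr univ (g i) := by
    have q1 : (fun r : (∀ i : P, R i) => ∏ j, u j (r (c j))) = fun r => ∏ i : P, g i (r i) := by
      funext r
      let y : ∀ i, R i := fun i => if hi : i ∈ P then r ⟨i, hi⟩ else Classical.arbitrary _
      have hy : ∀ i : P, y i = r i := fun i => by
        simp only [y]
        rw [dif_pos i.2]
      have h2 := key y
      rw [show (∏ j, u j (y (c j))) = ∏ j, u j (r (c j)) from
        prod_congr rfl fun j _ => by rw [hy]] at h2
      rw [← h2]
      have h3 : ∏ i : P, g i (r i) = ∏ i : P, g i (y i) := prod_congr rfl fun i _ => by rw [hy]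
      rw [h3, prod_coe_sort P (fun i => g i (y i))]
      refine prod_subset hSP fun i _ hi => ?_
      rw [key1 i hi]
    rw [q1, avr_pi]
    refine (prod_subset hSP fun i _ hi => ?_).symm
    rw [key1 i hi, avr_const univ_nonempty]
  rw [e1, e2]
  exact h1

open Classical in
/-- products from the counts in the classes -/
lemma count_disc {S : Finset ι} {ρ : ∀ i, T → R i} {Ω : Finset T} (hΩ : Ω.Nonempty) {e : ℝ}
    (hc : ∀ y : (∀ i : S, R i), |((Ω.filter (fun x => ∀ i : S, ρ i x = y i)).card : ℝ) -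
      Ω.card / ∏ i ∈ S, (Fintype.card (R i) : ℝ)| ≤ e)
    (g : ∀ i, R i → ℝ) (hg : ∀ i r, |g i r| ≤ 1) :
    |avr Ω (fun x => ∏ i ∈ S, g i (ρ i x)) - ∏ i ∈ S, avr univ (g i)| ≤
      (∏ i ∈ S, (Fintype.card (R i) : ℝ)) * e / Ω.card := by
  classical
  have hΩ0 := card_pos' hΩ
  set H : ℝ := ∏ i ∈ S, (Fintype.card (R i) : ℝ) with hH
  have hH0 : 0 < H := prod_pos fun i _ => by exact_mod_cast Fintype.card_pos
  have hcardH : (Fintype.card (∀ i : S, R i) : ℝ) = H := by
    rw [Fintype.card_pi, hH]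
    push_cast
    rw [prod_coe_sort S (fun i => (Fintype.card (R i) : ℝ))]
  rw [← avr_pi]
  let Ψ : (∀ i : S, R i) → ℝ := fun r => ∏ i : S, g i (r i)
  have hΨ : ∀ r, |Ψ r| ≤ 1 := by
    intro r
    simp only [Ψ]
    rw [abs_prod]
    exact prod_le_one (fun _ _ => abs_nonneg _) fun i _ => hg _ _
  have e1 : avr Ω (fun x => ∏ i ∈ S, g i (ρ i x)) =
      (∑ y : (∀ i : S, R i), Ψ y * ((Ω.filter (fun x => ∀ i : S, ρ i x = y i)).card : ℝ)) /
        Ω.card := by
    unfold avr
    congr 1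
    have q1 : ∀ x, ∏ i ∈ S, g i (ρ i x) = Ψ (fun i => ρ i x) := fun x => by
      simp only [Ψ]
      rw [prod_coe_sort S (fun i => g i (ρ i x))]
    have q2 : ∀ x, Ψ (fun i => ρ i x) = ∑ y : (∀ i : S, R i),
        if (fun i : S => ρ i x) = y then Ψ y else 0 := by
      intro x
      rw [sum_ite_eq]
      simp
    rw [sum_congr rfl fun x _ => (q1 x).trans (q2 x), sum_comm]
    refine sum_congr rfl fun y _ => ?_
    rw [← sum_filter, sum_const, nsmul_eq_mul, mul_comm]
    congr 3
    ext x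
    rw [mem_filter, mem_filter, funext_iff]
  have e2 : avr (univ : Finset (∀ i : S, R i)) (fun r => ∏ i : S, g i (r i)) =
      (∑ y : (∀ i : S, R i), Ψ y * (Ω.card / H)) / Ω.card := by
    unfold avr
    rw [card_univ, hcardH, ← sum_mul]
    field_simp
    rfl
  rw [e1, e2, ← sub_div, ← sum_sub_distrib, abs_div, abs_of_pos hΩ0]
  refine div_le_div_of_nonneg_right ?_ hΩ0.le
  refine (abs_sum_le_sum_abs _ _).trans ?_
  have h3 : ∀ y ∈ (univ : Finset (∀ i : S, R i)),
      |Ψ y * ((Ω.filter (fun x => ∀ i : S, ρ i x = y i)).card : ℝ) - Ψ y * (Ω.card / H)| ≤ e := by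
    intro y _
    rw [← mul_sub, abs_mul]
    calc _ ≤ 1 * |((Ω.filter (fun x => ∀ i : S, ρ i x = y i)).card : ℝ) - Ω.card / H| :=
          mul_le_mul_of_nonneg_right (hΨ y) (abs_nonneg _)
      _ ≤ e := by rw [one_mul]; exact hc y
  refine (sum_le_sum h3).trans (le_of_eq ?_)
  rw [sum_const, nsmul_eq_mul, card_univ, hcardH]

end Pool.Agent.X217.EK
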