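import Pool.Agent.X217.EK.Abs

/-!
# The central limit theorem for sums of almost independent bounded functions
-/

set_option autoImplicit false

namespace Pool.Agent.X217.EK

open Finset Filter Topology Complex

variable {ι : Type*} [DecidableEq ι] {R : ι → Type*} [∀ i, Fintype (R i)] [∀ i, Nonempty (R i)]
  {T : Type*}

/-- **the limit of the characteristic functions** -/
theorem lim {P : ℕ → Finset ι} {ρ : ∀ i, T → R i} {Ω : ℕ → Finset T} {h : ℕ → ∀ i, R i → ℝ}
    {b : ℕ → ℝ} {v : ℝ} (hb : ∀ n i r, |h n i r| ≤ b n) (hb0 : Tendsto b atTop (𝓝 0))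
    (h0 : ∀ n i, avr univ (h n i) = 0)
    (hV : Tendsto (fun n => ∑ i ∈ P n, avr univ (fun r => h n i r ^ 2)) atTop (𝓝 v))
    (hD : ∀ k : ℕ, ∃ δ : ℕ → ℝ, (∀ᶠ n in atTop, Disc (P n) ρ (Ω n) k (δ n)) ∧
      Tendsto (fun n => ((P n).card : ℝ) ^ k * δ n) atTop (𝓝 0)) :
    Tendsto (fun n => av (Ω n) (fun x => cexp (I * ((∑ i : P n, h n i (ρ i x) : ℝ) : ℂ)))) atTop
      (𝓝 (cexp (-(v : ℂ) / 2))) := by
  choose δ hδ1 hδ2 using hD
  have hexp : Tendsto (fun n => cexp (-((∑ i ∈ P n, avr univ (fun r => h n i r ^ 2) : ℝ) : ℂ) / 2))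
      atTop (𝓝 (cexp (-(v : ℂ) / 2))) := by
    have hc : Continuous (fun x : ℝ => cexp (-(x : ℂ) / 2)) := by fun_prop
    exact (hc.tendsto v).comp hV
  have key : Tendsto (fun n => av (Ω n) (fun x => cexp (I * ((∑ i : P n, h n i (ρ i x) : ℝ) : ℂ))) -
      cexp (-((∑ i ∈ P n, avr univ (fun r => h n i r ^ 2) : ℝ) : ℂ) / 2)) atTop (𝓝 0) := by
    rw [Metric.tendsto_nhds]
    intro ε hε
    obtain ⟨m, hm⟩ : ∃ m : ℕ, 4 * Real.exp (4 * (v + 1)) / 2 ^ (2 * m) < ε / 4 := by
      obtain ⟨m, hm⟩ := pow_unbounded_of_one_lt (4 * Real.exp (4 * (v + 1)) / (ε / 4))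
        (by norm_num : (1 : ℝ) < 2)
      refine ⟨m, ?_⟩
      rw [div_lt_iff₀ (by positivity)] at hm ⊢
      have h1 : (2 : ℝ) ^ m ≤ 2 ^ (2 * m) := pow_le_pow_right₀ (by norm_num) (by omega)
      have h2 : 2 ^ m * (ε / 4) ≤ 2 ^ (2 * m) * (ε / 4) :=
        mul_le_mul_of_nonneg_right h1 (by positivity)
      linarith
    set K := 2 * m with hK
    have hKe : Even K := ⟨m, by omega⟩
    have hsum : Tendsto (fun n => ∑ k ∈ range (K + 1), ((P n).card : ℝ) ^ k * δ k n) atTop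
        (𝓝 0) := by
      have := tendsto_finset_sum (range (K + 1)) (fun k _ => hδ2 k)
      simpa using this
    have hbV : Tendsto (fun n => 2 * b n * ∑ i ∈ P n, avr univ (fun r => h n i r ^ 2)) atTop
        (𝓝 0) := by
      have := (hb0.const_mul 2).mul hV
      simpa using this
    have hDall : ∀ᶠ n in atTop, ∀ k ∈ range (K + 1), Disc (P n) ρ (Ω n) k (δ k n) :=
      (eventually_all_finset _).2 fun k _ => hδ1 k
    have hVv : ∀ᶠ n in atTop, ∑ i ∈ P n, avr univ (fun r => h n i r ^ 2) < v + 1 :=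
      hV.eventually_lt_const (by linarith)
    have hb1 : ∀ᶠ n in atTop, b n < 1 / 2 := hb0.eventually_lt_const (by norm_num)
    filter_upwards [hDall, hVv, hb1, hsum.eventually_lt_const (by positivity : (0 : ℝ) < ε / 4),
      hbV.eventually_lt_const (by positivity : (0 : ℝ) < ε / 4)] with n e1 e2 e3 e4 e5
    rw [dist_zero_right]
    have q := quant (P := P n) (ρ := ρ) (Ω := Ω n) (hb n) (by linarith) (h0 n) hKe
      (δ := fun k => δ k n) (fun k hk => e1 k (mem_range.2 (by omega)))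
    have e6 : 4 * Real.exp (4 * ∑ i ∈ P n, avr univ (fun r => h n i r ^ 2)) / 2 ^ K ≤
        4 * Real.exp (4 * (v + 1)) / 2 ^ K := by
      apply div_le_div_of_nonneg_right _ (by positivity)
      apply mul_le_mul_of_nonneg_left _ (by norm_num)
      apply Real.exp_le_exp.2
      linarith
    refine lt_of_le_of_lt q ?_
    linarith
  have := key.add hexp
  simpa using this

end Pool.Agent.X217.EK
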