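import Pool.Agent.X217.EK.Scale

/-!
# The local means and variances for the pairs
-/

set_option autoImplicit false

namespace Pool.Agent.X217.EK

open Finset Filter Topology

open Classical in
/-- the local function for the quotient by `(0, 0)` -/
noncomputable def Gl {p : Pr} (a b : ZMod p.1) : ℝ :=
  (if a * b = 0 then 1 else 0) - (if a = b ∧ a ≠ 0 ∧ IsSquare a then 1 else 0)

/-- the local functions for the three quotients -/
noncomputable def Fl (i : Fin 3) (p : Pr) (r : ZMod p.1 × ZMod p.1) : ℝ :=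
  ![Gl r.1 r.2, Gl (-r.1) (r.2 - r.1), Gl (-r.2) (r.1 - r.2)] i

/-- a linear combination -/
noncomputable def gl (t : Fin 3 → ℝ) (p : Pr) (r : ZMod p.1 × ZMod p.1) : ℝ :=
  t 0 * Fl 0 p r + t 1 * Fl 1 p r + t 2 * Fl 2 p r

lemma Gl_zero_left {p : Pr} {b : ZMod p.1} : Gl (0 : ZMod p.1) b = 1 := by
  unfold Gl
  simp

lemma Gl_zero_right {p : Pr} {a : ZMod p.1} : Gl a (0 : ZMod p.1) = 1 := by
  unfold Gl
  have : ¬ (a = 0 ∧ a ≠ 0 ∧ IsSquare a) := fun h => h.2.1 h.1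
  simp [this]

open Classical in
lemma Gl_diag {p : Pr} {a : ZMod p.1} (ha : a ≠ 0) :
    Gl a a = if IsSquare a then -1 else 0 := by
  unfold Gl
  by_cases h : IsSquare a
  · simp [ha, h]
  · simp [ha, h]

lemma Gl_off {p : Pr} {a b : ZMod p.1} (ha : a ≠ 0) (hb : b ≠ 0) (hab : a ≠ b) :
    Gl a b = 0 := by
  unfold Gl
  simp [ha, hb, hab]

lemma gl_off (t : Fin 3 → ℝ) {p : Pr} {a b : ZMod p.1} (ha : a ≠ 0) (hb : b ≠ 0) (hab : a ≠ b) :
    gl t p (a, b) = 0 := by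
  unfold gl Fl
  have h1 := Gl_off ha hb hab
  have h2 : Gl (-a) (b - a) = 0 := Gl_off (neg_ne_zero.2 ha) (sub_ne_zero.2 hab.symm) (by
    intro h
    apply hb
    have : b = (b - a) + a := by ring
    rw [this, ← h]
    ring)
  have h3 : Gl (-b) (a - b) = 0 := Gl_off (neg_ne_zero.2 hb) (sub_ne_zero.2 hab) (by
    intro h
    apply ha
    have : a = (a - b) + b := by ring
    rw [this, ← h]
    ring)
  simp [h1, h2, h3]

lemma gl_zero (t : Fin 3 → ℝ) (p : Pr) : gl t p (0, 0) = t 0 + t 1 + t 2 := by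
  unfold gl Fl
  simp [Gl_zero_left]

open Classical in
lemma gl_left (t : Fin 3 → ℝ) {p : Pr} {x : ZMod p.1} (hx : x ≠ 0) :
    gl t p (0, x) = if IsSquare (-x) then t 0 + t 1 - t 2 else t 0 + t 1 := by
  unfold gl Fl
  have h1 := Gl_diag (neg_ne_zero.2 hx)
  simp only [Matrix.cons_val_zero, Matrix.cons_val_one, Matrix.cons_val, neg_zero, sub_zero,
    zero_sub, Gl_zero_left, h1]
  split_ifs <;> ring

open Classical in
lemma gl_right (t : Fin 3 → ℝ) {p : Pr} {x : ZMod p.1} (hx : x ≠ 0) :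
    gl t p (x, 0) = if IsSquare (-x) then t 0 + t 2 - t 1 else t 0 + t 2 := by
  unfold gl Fl
  have h1 := Gl_diag (neg_ne_zero.2 hx)
  simp only [Matrix.cons_val_zero, Matrix.cons_val_one, Matrix.cons_val, neg_zero, sub_zero,
    zero_sub, Gl_zero_left, Gl_zero_right, h1]
  split_ifs <;> ring

open Classical in
lemma gl_diag (t : Fin 3 → ℝ) {p : Pr} {x : ZMod p.1} (hx : x ≠ 0) :
    gl t p (x, x) = if IsSquare x then t 1 + t 2 - t 0 else t 1 + t 2 := by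
  unfold gl Fl
  have h1 := Gl_diag hx
  simp only [Matrix.cons_val_zero, Matrix.cons_val_one, Matrix.cons_val, sub_self,
    Gl_zero_right, h1]
  split_ifs <;> ring

/-- sums of functions supported on three lines -/
lemma sum_lines {p : Pr} (H : ZMod p.1 × ZMod p.1 → ℝ)
    (h0 : ∀ a b, a ≠ 0 → b ≠ 0 → a ≠ b → H (a, b) = 0) :
    ∑ r, H r = H (0, 0) + ∑ x ∈ univ.erase (0 : ZMod p.1), (H (0, x) + H (x, 0) + H (x, x)) := by
  classical
  rw [Fintype.sum_prod_type, ← add_sum_erase univ _ (mem_univ (0 : ZMod p.1))]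
  rw [← add_sum_erase univ (fun y => H (0, y)) (mem_univ (0 : ZMod p.1)), add_assoc]
  congr 1
  rw [← sum_add_distrib]
  refine sum_congr rfl fun x hx => ?_
  have hx0 : x ≠ 0 := (mem_erase.1 hx).1
  have h1 : ∑ y, H (x, y) = ∑ y ∈ ({0, x} : Finset (ZMod p.1)), H (x, y) := by
    symm
    refine sum_subset (subset_univ _) fun y _ hy => ?_
    rw [mem_insert, mem_singleton, not_or] at hy
    exact h0 x y hx0 hy.1 (fun h => hy.2 h.symm)
  rw [h1, sum_pair hx0.symm, add_assoc]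

open Classical in
/-- the squares -/
lemma sum_sq {p : Pr} (hp : p.1 ≠ 2) (c1 c2 : ℝ) :
    ∑ x ∈ univ.erase (0 : ZMod p.1), (if IsSquare x then c1 else c2) =
      ((p.1 : ℝ) - 1) / 2 * (c1 + c2) := by
  have hchar : ringChar (ZMod p.1) ≠ 2 := by
    rw [ZMod.ringChar_zmod_n]
    exact hp
  have h0 := quadraticChar_sum_zero (F := ZMod p.1) hchar
  have h1 : ∑ x ∈ univ.erase (0 : ZMod p.1), ((quadraticChar (ZMod p.1) x : ℤ) : ℝ) = 0 := by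
    have h2 := add_sum_erase univ (fun x : ZMod p.1 => ((quadraticChar (ZMod p.1) x : ℤ) : ℝ))
      (mem_univ (0 : ZMod p.1))
    have h3 : ∑ x : ZMod p.1, ((quadraticChar (ZMod p.1) x : ℤ) : ℝ) = 0 := by exact_mod_cast h0
    rw [h3] at h2
    simpa using h2
  have h2 : ∀ x ∈ univ.erase (0 : ZMod p.1), (if IsSquare x then c1 else c2) =
      (c1 + c2) / 2 + (c1 - c2) / 2 * ((quadraticChar (ZMod p.1) x : ℤ) : ℝ) := by
    intro x hx
    have hx0 : x ≠ 0 := (mem_erase.1 hx).1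
    by_cases hsq : IsSquare x
    · rw [if_pos hsq, (quadraticChar_one_iff_isSquare hx0).2 hsq]
      push_cast
      ring
    · rw [if_neg hsq, quadraticChar_neg_one_iff_not_isSquare.2 hsq]
      push_cast
      ring
  rw [sum_congr rfl h2, sum_add_distrib, ← mul_sum, h1, sum_const, card_erase_of_mem (mem_univ _),
    card_univ, ZMod.card, nsmul_eq_mul, Nat.cast_sub p.2.one_lt.le]
  push_cast
  ring

open Classical in
lemma sum_sq_neg {p : Pr} (hp : p.1 ≠ 2) (c1 c2 : ℝ) :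
    ∑ x ∈ univ.erase (0 : ZMod p.1), (if IsSquare (-x) then c1 else c2) =
      ((p.1 : ℝ) - 1) / 2 * (c1 + c2) := by
  rw [← sum_sq hp]
  refine sum_nbij' (fun x => -x) (fun x => -x) ?_ ?_ ?_ ?_ ?_
  · intro x hx
    rw [mem_erase] at hx ⊢
    exact ⟨neg_ne_zero.2 hx.1, mem_univ _⟩
  · intro x hx
    rw [mem_erase] at hx ⊢
    exact ⟨neg_ne_zero.2 hx.1, mem_univ _⟩
  · intro x _
    exact neg_neg x
  · intro x _
    exact neg_neg x
  · intro x _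
    rfl

/-- the sum of a function of the linear combination -/
lemma sum_gl (t : Fin 3 → ℝ) {p : Pr} (hp : p.1 ≠ 2) (φ : ℝ → ℝ) (hφ : φ 0 = 0) :
    ∑ r, φ (gl t p r) = φ (t 0 + t 1 + t 2) + ((p.1 : ℝ) - 1) / 2 *
      (φ (t 0 + t 1 - t 2) + φ (t 0 + t 1) + φ (t 0 + t 2 - t 1) + φ (t 0 + t 2) +
        φ (t 1 + t 2 - t 0) + φ (t 1 + t 2)) := by
  classical
  rw [sum_lines (fun r => φ (gl t p r)) (fun a b ha hb hab => by rw [gl_off t ha hb hab, hφ])]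
  rw [gl_zero]
  congr 1
  have h1 : ∀ x ∈ univ.erase (0 : ZMod p.1),
      φ (gl t p (0, x)) + φ (gl t p (x, 0)) + φ (gl t p (x, x)) =
      (if IsSquare (-x) then φ (t 0 + t 1 - t 2) else φ (t 0 + t 1)) +
      (if IsSquare (-x) then φ (t 0 + t 2 - t 1) else φ (t 0 + t 2)) +
      (if IsSquare x then φ (t 1 + t 2 - t 0) else φ (t 1 + t 2)) := by
    intro x hx
    have hx0 : x ≠ 0 := (mem_erase.1 hx).1
    rw [gl_left t hx0, gl_right t hx0, gl_diag t hx0]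
    split_ifs <;> rfl
  rw [sum_congr rfl h1, sum_add_distrib, sum_add_distrib, sum_sq_neg hp, sum_sq_neg hp, sum_sq hp]
  ring

lemma card_R2 (p : Pr) : ((univ : Finset (ZMod p.1 × ZMod p.1)).card : ℝ) = (p.1 : ℝ) ^ 2 := by
  rw [card_univ, Fintype.card_prod, ZMod.card]
  push_cast
  ring

/-- the mean -/
lemma me_gl (t : Fin 3 → ℝ) {p : Pr} (hp : p.1 ≠ 2) :
    me (gl t p) = (t 0 + t 1 + t 2) * (3 / 2 * (1 / (p.1 : ℝ)) - 1 / 2 * (1 / (p.1 : ℝ) ^ 2)) := by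
  unfold me avr
  have h := sum_gl t hp id rfl
  simp only [id] at h
  rw [h, card_R2]
  have hp0 : (p.1 : ℝ) ≠ 0 := by exact_mod_cast p.2.ne_zero
  field_simp
  ring

/-- the variance -/
lemma va_gl (t : Fin 3 → ℝ) {p : Pr} (hp : p.1 ≠ 2) :
    |va (gl t p) - 5 / 2 * (t 0 ^ 2 + t 1 ^ 2 + t 2 ^ 2) * (1 / (p.1 : ℝ))| ≤
      (5 * (t 0 ^ 2 + t 1 ^ 2 + t 2 ^ 2) + 5 * (t 0 + t 1 + t 2) ^ 2) * (1 / (p.1 : ℝ) ^ 2) := by
  have hp0 : (p.1 : ℝ) ≠ 0 := by exact_mod_cast p.2.ne_zero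
  have hp1 : (1 : ℝ) ≤ p.1 := by exact_mod_cast p.2.one_lt.le
  rw [va_eq, me_gl t hp]
  have h := sum_gl t hp (fun x => x ^ 2) (by norm_num)
  beta_reduce at h
  have h2 : avr univ (fun r => gl t p r ^ 2) = ((t 0 + t 1 + t 2) ^ 2 + ((p.1 : ℝ) - 1) / 2 *
      (5 * (t 0 ^ 2 + t 1 ^ 2 + t 2 ^ 2))) / (p.1 : ℝ) ^ 2 := by
    unfold avr
    rw [h, card_R2]
    congr 1
    ring
  rw [h2]
  set s := t 0 + t 1 + t 2 with hs
  set q := t 0 ^ 2 + t 1 ^ 2 + t 2 ^ 2 with hq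
  have hq0 : 0 ≤ q := by positivity
  set x : ℝ := 1 / (p.1 : ℝ) with hx
  have hx0 : 0 ≤ x := by positivity
  have hx1 : x ≤ 1 := by
    rw [hx]
    exact (div_le_one (by linarith)).2 hp1
  have e1 : (s ^ 2 + ((p.1 : ℝ) - 1) / 2 * (5 * q)) / (p.1 : ℝ) ^ 2 =
      s ^ 2 * x ^ 2 + 5 / 2 * q * x - 5 / 2 * q * x ^ 2 := by
    rw [hx]
    field_simp
    ring
  have e2 : 1 / (p.1 : ℝ) ^ 2 = x ^ 2 := by
    rw [hx, one_div, one_div, inv_pow]
  rw [e1, e2]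
  have e3 : s ^ 2 * x ^ 2 + 5 / 2 * q * x - 5 / 2 * q * x ^ 2 -
      (s * (3 / 2 * x - 1 / 2 * x ^ 2)) ^ 2 - 5 / 2 * q * x =
      x ^ 2 * (s ^ 2 * (1 - (3 / 2 - 1 / 2 * x) ^ 2) - 5 / 2 * q) := by ring
  rw [e3, abs_mul, abs_of_nonneg (sq_nonneg x)]
  have e4 : |s ^ 2 * (1 - (3 / 2 - 1 / 2 * x) ^ 2) - 5 / 2 * q| ≤ 5 * q + 5 * s ^ 2 := by
    have h5 : |1 - (3 / 2 - 1 / 2 * x) ^ 2| ≤ 5 := by
      rw [abs_le]
      constructor <;> nlinarith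
    have h6 : |s ^ 2 * (1 - (3 / 2 - 1 / 2 * x) ^ 2)| ≤ s ^ 2 * 5 := by
      rw [abs_mul, abs_of_nonneg (sq_nonneg s)]
      exact mul_le_mul_of_nonneg_left h5 (sq_nonneg s)
    have h7 := abs_sub (s ^ 2 * (1 - (3 / 2 - 1 / 2 * x) ^ 2)) (5 / 2 * q)
    have h8 : |5 / 2 * q| = 5 / 2 * q := abs_of_nonneg (by positivity)
    rw [h8] at h7
    linarith
  calc x ^ 2 * |s ^ 2 * (1 - (3 / 2 - 1 / 2 * x) ^ 2) - 5 / 2 * q| ≤ x ^ 2 * (5 * q + 5 * s ^ 2) :=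
        mul_le_mul_of_nonneg_left e4 (sq_nonneg x)
    _ = _ := by ring

lemma abs_Gl {p : Pr} (a b : ZMod p.1) : |Gl a b| ≤ 2 := by
  unfold Gl
  split_ifs <;> norm_num

lemma abs_gl (t : Fin 3 → ℝ) (p : Pr) (r : ZMod p.1 × ZMod p.1) :
    |gl t p r| ≤ 2 * (|t 0| + |t 1| + |t 2|) := by
  unfold gl
  have h : ∀ i, |Fl i p r| ≤ 2 := by
    intro i
    unfold Fl
    fin_cases i <;> exact abs_Gl _ _
  have h0 : |t 0 * Fl 0 p r| ≤ |t 0| * 2 := by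
    rw [abs_mul]
    exact mul_le_mul_of_nonneg_left (h 0) (abs_nonneg _)
  have h1 : |t 1 * Fl 1 p r| ≤ |t 1| * 2 := by
    rw [abs_mul]
    exact mul_le_mul_of_nonneg_left (h 1) (abs_nonneg _)
  have h2 : |t 2 * Fl 2 p r| ≤ |t 2| * 2 := by
    rw [abs_mul]
    exact mul_le_mul_of_nonneg_left (h 2) (abs_nonneg _)
  have h3 := abs_add_three (t 0 * Fl 0 p r) (t 1 * Fl 1 p r) (t 2 * Fl 2 p r)
  linarith

/-- the sum of `1 / p²` -/
lemma sum_sq_inv (n : ℕ) : ∑ p ∈ PP n, 1 / (p.1 : ℝ) ^ 2 ≤ 2 := by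
  have e2 : ∑ p ∈ PP n, 1 / (p.1 : ℝ) ^ 2 =
      ∑ p ∈ (Finset.Icc 11 (YY n)).filter Nat.Prime, 1 / (p : ℝ) ^ 2 := by
    unfold PP
    exact sum_subtype_eq_sum_filter (fun p : ℕ => 1 / (p : ℝ) ^ 2)
  rw [e2]
  have h1 : ∑ p ∈ (Finset.Icc 11 (YY n)).filter Nat.Prime, 1 / (p : ℝ) ^ 2 ≤
      ∑ p ∈ Finset.Ioc 1 (YY n + 1), 1 / (p : ℝ) ^ 2 := by
    refine sum_le_sum_of_subset_of_nonneg ?_ fun _ _ _ => by positivity
    intro p hp
    simp only [mem_filter, mem_Icc] at hp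
    rw [mem_Ioc]
    omega
  have h2 := sum_Ioc_inv_sq_le_sub (α := ℝ) (k := 1) (n := YY n + 1) one_ne_zero (by omega)
  have h3 : ∑ p ∈ Finset.Ioc 1 (YY n + 1), 1 / (p : ℝ) ^ 2 =
      ∑ p ∈ Finset.Ioc 1 (YY n + 1), ((p : ℝ) ^ 2)⁻¹ := sum_congr rfl fun p _ => one_div _
  rw [h3] at h1
  refine h1.trans (h2.trans ?_)
  have : (0 : ℝ) ≤ ((YY n + 1 : ℕ) : ℝ)⁻¹ := by positivity
  push_cast at this ⊢
  linarith

end Pool.Agent.X217.EK
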