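import Pool.Agent.X217.EK.PenL

/-!
# The densities for the pencils
-/

set_option autoImplicit false
set_option linter.unusedSectionVars false

namespace Pool.Agent.X217.EK

open Finset Filter Topology Polynomial

open Pool.Agent.W262.RK (Jr PS fs)

open Pool.Agent.TH841.LS.TKXf (hh' rc MU)

open Pool.Agent.TH841.NO.CNTUf (W W_ndvd)

open Pool.Agent.TH841.LS (SqMod cst)

open Pool.Agent.TH841.PT (Gp Fval Irr)

variable {J : Type} [Fintype J] [DecidableEq J]

/-- the class of a symbol -/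
def c23 (cls : J → Fin 4) (j : J) : Prop := cls j = 2 ∨ cls j = 3

open Classical in
/-- the mean of the symbol -/
noncomputable def sj (cls : J → Fin 4) (a : Fin 3 → ℤ) (f : J → ℤ[X]) (j : J) : ℝ :=
  if (cls j = 2 ∨ cls j = 3) ∧ ¬ SqMod (f j) (W cls a f j) then 0 else 1

/-- the means of the symbols -/
noncomputable def se (cls : J → Fin 4) (a : Fin 3 → ℤ) (f : J → ℤ[X]) (x : J × Bool) : ℝ :=
  if x.2 = true then sj cls a f x.1 else 1

/-- the means of the products of two symbols -/
noncomputable def Se (cls : J → Fin 4) (a : Fin 3 → ℤ) (f : J → ℤ[X]) (x y : J × Bool) : ℝ :=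
  if x.2 = y.2 then 1 else sj cls a f x.1

lemma den_one1 {f : ℤ[X]} (hf : Irreducible f) (hd : 0 < f.natDegree) : Den f 1 1 := by
  refine den_one hf hd ⟨1, ?_⟩ ⟨0, fun p hp _ t _ h => ?_⟩
  · simp
  · rw [eval_one] at h
    exact hp.one_lt.ne' (by
      have := Int.natCast_dvd.1 h
      simpa using this)

lemma W_nd {cls : J → Fin 4} {a : Fin 3 → ℤ} {f : J → ℤ[X]} {z c : ℕ} (h : Gp a f z c) {j : J}
    (hj : cls j = 2 ∨ cls j = 3) : ∃ z0 : ℕ, ∀ p : ℕ, p.Prime → z0 ≤ p → ∀ t : ℤ,
      (p : ℤ) ∣ (f j).eval t → ¬ (p : ℤ) ∣ (W cls a f j).eval t :=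
  ⟨z + 1, fun p hp hz t ht => W_ndvd (cls := cls) h hj hp (by omega) ht⟩

lemma den_W {cls : J → Fin 4} {a : Fin 3 → ℤ} {f : J → ℤ[X]} {z c : ℕ} (h : Gp a f z c)
    (hf : Irr f) {j : J} (hj : cls j = 2 ∨ cls j = 3) :
    Den (f j) (W cls a f j) (sj cls a f j) := by
  unfold sj
  by_cases hs : SqMod (f j) (W cls a f j)
  · rw [if_neg (fun h' => h'.2 hs)]
    exact den_one (hf.irr j) (hf.deg j) hs (W_nd h hj)
  · rw [if_pos ⟨hj, hs⟩]
    exact den_zero (hf.irr j) (hf.deg j) hs

lemma den_WW {cls : J → Fin 4} {a : Fin 3 → ℤ} {f : J → ℤ[X]} {z c : ℕ} (h : Gp a f z c)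
    (hf : Irr f) {j : J} (hj : cls j = 2 ∨ cls j = 3) :
    Den (f j) (W cls a f j * W cls a f j) 1 := by
  obtain ⟨z0, hz0⟩ := W_nd (cls := cls) h hj
  refine den_one (hf.irr j) (hf.deg j) ⟨(W cls a f j).map (Int.castRingHom ℚ), ?_⟩
    ⟨z0, fun p hp hz t ht h' => ?_⟩
  · rw [Polynomial.map_mul, sq, sub_self]
    exact dvd_zero _
  · rw [eval_mul] at h'
    rcases (Nat.prime_iff_prime_int.1 hp).dvd_or_dvd h' with h1 | h1
    · exact hz0 p hp hz t ht h1
    · exact hz0 p hp hz t ht h1

lemma den_we {cls : J → Fin 4} {a : Fin 3 → ℤ} {f : J → ℤ[X]} {z c : ℕ} (h : Gp a f z c)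
    (hf : Irr f) (x : J × Bool) : Den (fe f x) (we cls a f x) (se cls a f x) := by
  obtain ⟨j, b⟩ := x
  unfold fe we se
  simp only
  by_cases hj : cls j = 2 ∨ cls j = 3
  · cases b
    · simpa using den_one1 (hf.irr j) (hf.deg j)
    · rw [if_pos ⟨rfl, hj⟩, if_pos rfl]
      exact den_W h hf hj
  · have hs : sj cls a f j = 1 := by
      unfold sj
      rw [if_neg (fun h' => hj h'.1)]
    rw [if_neg (fun h' => hj h'.2), hs, ite_self]
    exact den_one1 (hf.irr j) (hf.deg j)

lemma fe_inj {f : J → ℤ[X]} (hf : Irr f) {x y : J × Bool} (h : fe f x = fe f y) : x.1 = y.1 := by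
  by_contra hne
  apply hf.assoc x.1 y.1 hne
  unfold fe at h
  rw [h]

lemma den_wewe {cls : J → Fin 4} {a : Fin 3 → ℤ} {f : J → ℤ[X]} {z c : ℕ} (h : Gp a f z c)
    (hf : Irr f) (x y : J × Bool) (hxy : fe f x = fe f y) :
    Den (fe f x) (we cls a f x * we cls a f y) (Se cls a f x y) := by
  have h1 := fe_inj hf hxy
  obtain ⟨j, b⟩ := x
  obtain ⟨j', b'⟩ := y
  simp only at h1
  subst h1
  unfold fe we Se
  simp only
  by_cases hj : cls j = 2 ∨ cls j = 3
  · cases b <;> cases b'
    · simpa using den_one1 (hf.irr j) (hf.deg j)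
    · simpa [hj] using den_W h hf hj
    · simpa [hj] using den_W h hf hj
    · simpa [hj] using den_WW h hf hj
  · have hs : sj cls a f j = 1 := by
      unfold sj
      rw [if_neg (fun h' => hj h'.1)]
    rw [if_neg (fun h' => hj h'.2), if_neg (fun h' => hj h'.2), hs, ite_self, mul_one]
    exact den_one1 (hf.irr j) (hf.deg j)

lemma cop_fe {a : Fin 3 → ℤ} {f : J → ℤ[X]} {z c : ℕ} (h : Gp a f z c) : Cop (fe f) z := by
  intro p hp hz x y hxy t
  refine h.pair p hp hz x.1 y.1 ?_ t
  intro h'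
  apply hxy
  unfold fe
  rw [h']

open Classical in
/-- the variance -/
noncomputable def vst (cls : J → Fin 4) (a : Fin 3 → ℤ) (f : J → ℤ[X]) : ℝ :=
  ((univ.filter (fun j => cls j = 0)).card : ℝ) + (univ.filter (fun j => cls j = 1)).card +
    ((univ.filter (fun j => cls j = 2)).card +
      (univ.filter (fun j => cls j = 2 ∧ SqMod (f j) (C (a 0) * ∏ l ∈ fs cls 0, f l))).card) / 2 +
    ((univ.filter (fun j => cls j = 3 ∧ ¬ SqMod (f j) (C (a 0 * a 1) *
      ((∏ l ∈ univ.filter (fun l => cls l = 0), f l) *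
        ∏ l ∈ univ.filter (fun l => cls l = 1), f l)))).card : ℝ) / 2

lemma card_eq_sum (p : J → Prop) [DecidablePred p] :
    ((univ.filter p).card : ℝ) = ∑ j, if p j then 1 else 0 := by
  rw [card_filter]
  push_cast
  rfl

open Classical in
lemma sj2 {cls : J → Fin 4} {a : Fin 3 → ℤ} {f : J → ℤ[X]} {j : J} (h : cls j = 2) :
    sj cls a f j = if SqMod (f j) (C (a 0) * ∏ l ∈ fs cls 0, f l) then 1 else 0 := by
  unfold sj W
  rw [if_pos h]
  by_cases hs : SqMod (f j) (C (a 0) * ∏ l ∈ fs cls 0, f l)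
  · rw [if_neg (fun h' => h'.2 hs), if_pos hs]
  · rw [if_pos ⟨Or.inl h, hs⟩, if_neg hs]

open Classical in
lemma sj3 {cls : J → Fin 4} {a : Fin 3 → ℤ} {f : J → ℤ[X]} {j : J} (h : cls j = 3) :
    sj cls a f j = if SqMod (f j) (C (a 0 * a 1) *
      ((∏ l ∈ univ.filter (fun l => cls l = 0), f l) *
        ∏ l ∈ univ.filter (fun l => cls l = 1), f l)) then 1 else 0 := by
  have h2 : ¬ cls j = 2 := by rw [h]; decide
  unfold sj W
  rw [if_neg h2]
  by_cases hs : SqMod (f j) (C (a 0 * a 1) *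
      ((∏ l ∈ univ.filter (fun l => cls l = 0), f l) *
        ∏ l ∈ univ.filter (fun l => cls l = 1), f l))
  · rw [if_neg (fun h' => h'.2 hs), if_pos hs]
  · rw [if_pos ⟨Or.inr h, hs⟩, if_neg hs]

/-- the mean constant -/
lemma kap_eq (cls : J → Fin 4) (a : Fin 3 → ℤ) (f : J → ℤ[X]) :
    kap (ce cls) (se cls a f) = cst cls a f := by
  classical
  unfold kap cst
  simp only [card_eq_sum]
  rw [Fintype.sum_prod_type, ← sum_add_distrib, ← sum_add_distrib, sum_div, sum_div,
    ← sum_sub_distrib, ← sum_add_distrib]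
  refine sum_congr rfl fun j _ => ?_
  rw [Fintype.sum_bool]
  have hse1 : se cls a f (j, true) = sj cls a f j := by unfold se; simp
  have hse0 : se cls a f (j, false) = 1 := by unfold se; simp
  rw [hse1, hse0]
  rcases cls_cases (cls j) with h | h | h
  · have c1 : ce cls (j, true) = 0 := by rcases h with h | h <;> simp [ce, h]
    have c0 : ce cls (j, false) = 1 := by rcases h with h | h <;> simp [ce, h]
    rw [c1, c0]
    rcases h with h | h <;> simp [h]
  · have c1 : ce cls (j, true) = -(1 / 2) := by simp [ce, h]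
    have c0 : ce cls (j, false) = -(1 / 2) := by simp [ce, h]
    rw [c1, c0, sj2 h]
    generalize SqMod (f j) (C (a 0) * ∏ l ∈ fs cls 0, f l) = P
    generalize SqMod (f j) (C (a 0 * a 1) *
      ((∏ l ∈ univ.filter (fun l => cls l = 0), f l) *
        ∏ l ∈ univ.filter (fun l => cls l = 1), f l)) = P'
    by_cases hs : P
    · simp [h, hs] <;> norm_num
    · simp [h, hs] <;> norm_num
  · have c1 : ce cls (j, true) = -(1 / 2) := by simp [ce, h]
    have c0 : ce cls (j, false) = 1 / 2 := by simp [ce, h]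
    rw [c1, c0, sj3 h]
    generalize SqMod (f j) (C (a 0) * ∏ l ∈ fs cls 0, f l) = P
    generalize SqMod (f j) (C (a 0 * a 1) *
      ((∏ l ∈ univ.filter (fun l => cls l = 0), f l) *
        ∏ l ∈ univ.filter (fun l => cls l = 1), f l)) = P'
    by_cases hs : P'
    · simp [h, hs]
    · simp [h, hs]

/-- the variance constant -/
lemma Vr_eq {cls : J → Fin 4} {a : Fin 3 → ℤ} {f : J → ℤ[X]} (hf : Irr f) :
    Vr (ce cls) (fe f) (Se cls a f) = vst cls a f := by
  classical
  have h1 : Vr (ce cls) (fe f) (Se cls a f) = ∑ j, (ce cls (j, true) ^ 2 +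
      ce cls (j, false) ^ 2 + 2 * (ce cls (j, true) * ce cls (j, false) * sj cls a f j)) := by
    unfold Vr
    rw [Fintype.sum_prod_type]
    refine sum_congr rfl fun j _ => ?_
    have h2 : ∀ b : Bool, (∑ y : J × Bool, if fe f (j, b) = fe f y then
        ce cls (j, b) * ce cls y * Se cls a f (j, b) y else 0) =
        ∑ b' : Bool, ce cls (j, b) * ce cls (j, b') * Se cls a f (j, b) (j, b') := by
      intro b
      rw [Fintype.sum_prod_type]
      rw [sum_eq_single j]
      · refine sum_congr rfl fun b' _ => ?_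
        rw [if_pos (show fe f (j, b) = fe f (j, b') from rfl)]
      · intro j' _ hj'
        refine sum_eq_zero fun b' _ => ?_
        rw [if_neg]
        intro h3
        exact hj' (fe_inj hf h3).symm
      · intro h3
        exact absurd (mem_univ _) h3
    rw [Fintype.sum_bool, h2, h2, Fintype.sum_bool, Fintype.sum_bool]
    unfold Se
    simp only
    simp
    ring
  rw [h1]
  unfold vst
  simp only [card_eq_sum]
  rw [← sum_add_distrib, ← sum_add_distrib, sum_div, sum_div, ← sum_add_distrib,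
    ← sum_add_distrib]
  refine sum_congr rfl fun j _ => ?_
  rcases cls_cases (cls j) with h | h | h
  · have c1 : ce cls (j, true) = 0 := by rcases h with h | h <;> simp [ce, h]
    have c0 : ce cls (j, false) = 1 := by rcases h with h | h <;> simp [ce, h]
    rw [c1, c0]
    rcases h with h | h <;> simp [h]
  · have c1 : ce cls (j, true) = -(1 / 2) := by simp [ce, h]
    have c0 : ce cls (j, false) = -(1 / 2) := by simp [ce, h]
    rw [c1, c0, sj2 h]
    generalize SqMod (f j) (C (a 0) * ∏ l ∈ fs cls 0, f l) = P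
    generalize SqMod (f j) (C (a 0 * a 1) *
      ((∏ l ∈ univ.filter (fun l => cls l = 0), f l) *
        ∏ l ∈ univ.filter (fun l => cls l = 1), f l)) = P'
    by_cases hs : P
    · simp [h, hs] <;> norm_num
    · simp [h, hs] <;> norm_num
  · have c1 : ce cls (j, true) = -(1 / 2) := by simp [ce, h]
    have c0 : ce cls (j, false) = 1 / 2 := by simp [ce, h]
    rw [c1, c0, sj3 h]
    generalize SqMod (f j) (C (a 0) * ∏ l ∈ fs cls 0, f l) = P
    generalize SqMod (f j) (C (a 0 * a 1) *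
      ((∏ l ∈ univ.filter (fun l => cls l = 0), f l) *
        ∏ l ∈ univ.filter (fun l => cls l = 1), f l)) = P'
    by_cases hs : P'
    · simp [h, hs] <;> norm_num
    · simp [h, hs] <;> norm_num

end Pool.Agent.X217.EK
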