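import Pool.Agent.X217.EK.PenT
import Pool.Agent.X217.EK.Pert

/-!
# The limit law for pencils
-/

set_option autoImplicit false
set_option linter.unusedSectionVars false

namespace Pool.Agent.X217.EK

open Finset Filter Topology Polynomial MeasureTheory ProbabilityTheory

open Pool.Agent.W262.RK (Jr PS fs)

open Pool.Agent.TH841.LS.CNTf (Tq size zeros markov)

open Pool.Agent.TH841.LS (WI GA GD C1x C2x SqMod cst)

open Pool.Agent.TH841.NO (S2 C1g C2g)

open Pool.Agent.TH841.PT (Gp Fval Irr exists_Gp)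

open Pool.Agent.TH841.SH.D

open Pool.Agent.W307.SE (SN)

section scal

variable {I : Type} [Fintype I]

lemma FF_smul (c : ℝ) (e : I → ℝ) (f w : I → ℤ[X]) (p : ℕ) (t : ℤ) :
    FF (fun a => c * e a) f w p t = c * FF e f w p t := by
  unfold FF
  rw [mul_sum]
  exact sum_congr rfl fun a _ => by ring

lemma me_smul (c : ℝ) (e : I → ℝ) (f w : I → ℤ[X]) (p : Pr) :
    me (gs (fun a => c * e a) f w p) = c * me (gs e f w p) := by
  rw [me_gs, me_gs, ← mul_div_assoc, mul_sum]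
  congr 1
  exact sum_congr rfl fun a _ => by ring

lemma Vr_smul (c : ℝ) (e : I → ℝ) (f : I → ℤ[X]) (S : I → I → ℝ) :
    Vr (fun a => c * e a) f S = c ^ 2 * Vr e f S := by
  unfold Vr
  rw [mul_sum]
  refine sum_congr rfl fun a _ => ?_
  rw [mul_sum]
  refine sum_congr rfl fun b _ => ?_
  split_ifs
  · ring
  · ring

end scal

variable {J : Type} [Fintype J] [DecidableEq J]

/-- the logarithm of the order -/
noncomputable def LGp (cls : J → Fin 4) (a : Fin 3 → ℤ) (f : J → ℤ[X]) (j : ℕ) (t : ℤ) : ℝ :=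
  Real.logb 2 (Nat.card (ShaTor (WI (Fval cls a (fun l => (f l).eval t) 0)
    (Fval cls a (fun l => (f l).eval t) 1)) (2 ^ j)))

/-- the normalised variable -/
noncomputable def Zp (cls : J → Fin 4) (a : Fin 3 → ℤ) (f : J → ℤ[X]) (Jn : ℕ → ℕ) (n : ℕ) (t : ℤ)
    (_ : Fin 1) : ℝ :=
  (LGp cls a f (Jn n) t - cst cls a f * ell n) / √(vst cls a f * ell n)

/-- the model variable -/
noncomputable def Wp (cls : J → Fin 4) (a : Fin 3 → ℤ) (f : J → ℤ[X]) (z : ℕ) (n : ℕ) (t : ℤ)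
    (_ : Fin 1) : ℝ :=
  (∑ p ∈ PPz z n, (FF (ce cls) (fe f) (we cls a f) p.1 t -
    me (gs (ce cls) (fe f) (we cls a f) p))) / √(vst cls a f * ell n)

/-- the error -/
noncomputable def errp (cls : J → Fin 4) (a : Fin 3 → ℤ) (f : J → ℤ[X]) (z : ℕ) (c1 c2 c3 : ℝ)
    (Jn : ℕ → ℕ) (n : ℕ) : ℝ :=
  (c1 + c2 * Jn n + c3 * rr n + |∑ p ∈ PPz z n, me (gs (ce cls) (fe f) (we cls a f) p) -
    cst cls a f * ell n|) / √(vst cls a f * ell n)

lemma errp_tendsto {cls : J → Fin 4} {a : Fin 3 → ℤ} {f : J → ℤ[X]} {z : ℕ}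
    (hm : Tendsto (fun n => (∑ p ∈ PPz z n, me (gs (ce cls) (fe f) (we cls a f) p) -
      cst cls a f * ell n) / √(ell n)) atTop (𝓝 0)) (hv : 0 < vst cls a f) (c1 c2 c3 : ℝ)
    {Jn : ℕ → ℕ} (hJ : Tendsto (fun n => (Jn n : ℝ) / √(ell n)) atTop (𝓝 0)) :
    Tendsto (errp cls a f z c1 c2 c3 Jn) atTop (𝓝 0) := by
  have h1 := ((sqrt_inv.const_mul c1).add (hJ.const_mul c2)).add (rr_div.const_mul c3)
  have h2 := h1.add hm.abs
  have h3 := h2.const_mul (√(vst cls a f))⁻¹
  simp only [mul_zero, add_zero, abs_zero] at h3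
  refine (tendsto_congr fun n => ?_).1 h3
  unfold errp
  rw [Real.sqrt_mul hv.le, abs_div, abs_of_nonneg (Real.sqrt_nonneg (ell n))]
  rw [div_eq_mul_inv _ (√(vst cls a f) * √(ell n)), mul_inv]
  ring

/-- the number of the large prime factors of a value -/
lemma large_count {b : ℕ} : ∀ᶠ n : ℕ in atTop, ∀ x : ℤ, x ≠ 0 → x.natAbs < (n + 1) ^ (b + 1) →
    ∀ S : Finset ℕ, (∀ p ∈ S, p.Prime ∧ (p : ℤ) ∣ x ∧ YY n < p) →
      (S.card : ℝ) ≤ 4 * ((b : ℝ) + 1) * rr n := by
  filter_upwards [log_YY, log_div_rr.eventually_ge_atTop 2, tendsto_rr.eventually_ge_atTop 1,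
    tendsto_YY.eventually_ge_atTop 1, eventually_ge_atTop 2] with n h1 h2 h3 h4 h5 x hx hxs S hS
  have hr : 0 < rr n := by linarith
  have hn2 : (2 : ℝ) ≤ n := by exact_mod_cast h5
  have hn0 : (0 : ℝ) < n := by linarith
  have g1 := card_large hx h4 S hS
  have k1 : Real.log n / rr n / 2 ≤ Real.log (YY n) := by
    have := (abs_le.1 h1).1
    linarith
  have k2 : 0 < Real.log n := by
    have : 0 < Real.log n / rr n := by linarith
    exact (div_pos_iff_of_pos_right hr).1 this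
  have k3 : Real.log (x.natAbs : ℝ) ≤ (b + 1) * (2 * Real.log n) := by
    have e1 : (x.natAbs : ℝ) ≤ ((n : ℝ) + 1) ^ (b + 1) := by exact_mod_cast hxs.le
    have e2 : (0 : ℝ) < (x.natAbs : ℝ) := by exact_mod_cast Int.natAbs_pos.2 hx
    have e3 := Real.log_le_log e2 e1
    rw [Real.log_pow] at e3
    have e4 : Real.log ((n : ℝ) + 1) ≤ 2 * Real.log n := by
      have e5 : Real.log ((n : ℝ) ^ 2) = 2 * Real.log n := by
        rw [Real.log_pow]
        norm_num
      rw [← e5]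
      apply Real.log_le_log (by linarith)
      nlinarith
    push_cast at e3
    exact e3.trans (mul_le_mul_of_nonneg_left e4 (by positivity))
  have k4 : (S.card : ℝ) * (Real.log n / rr n / 2) ≤ (b + 1) * (2 * Real.log n) :=
    (mul_le_mul_of_nonneg_left k1 (Nat.cast_nonneg _)).trans (g1.trans k3)
  have k5 : (S.card : ℝ) * (Real.log n / rr n / 2) = (S.card : ℝ) / (2 * rr n) * Real.log n := by
    field_simp
  have k6 : ((b : ℝ) + 1) * (2 * Real.log n) = (2 * ((b : ℝ) + 1)) * Real.log n := by ring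
  rw [k5, k6] at k4
  have k7 := le_of_mul_le_mul_right k4 k2
  rw [div_le_iff₀ (by positivity)] at k7
  linarith

/-- **the limit law, in terms of the classes** -/
theorem main_J (cls : J → Fin 4) (a : Fin 3 → ℤ) (f : J → ℤ[X]) (ha : ∀ k, a k ≠ 0) (hf : Irr f)
    (hF : C (a 0) * ∏ l ∈ fs cls 0, f l - C (a 1) * ∏ l ∈ fs cls 1, f l =
      C (a 2) * ∏ l ∈ fs cls 2, f l) (hv : 0 < vst cls a f) (L : ℕ) (N : ℕ → ℤ)
    (hN : ∀ n : ℕ, |N n| ≤ (n : ℤ) ^ L) {Jn : ℕ → ℕ} (hJ1 : ∀ n, 1 ≤ Jn n)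
    (hJ : Tendsto (fun n => (Jn n : ℝ) / √(ell n)) atTop (𝓝 0))
    (hSN : ∀ ε : ℝ, 0 < ε → ∃ R : ℕ, ∀ᶠ n : ℕ in atTop,
      ∀ S : Finset ℤ, (∀ t ∈ S, t ∈ Ioc (N n) (N n + (n : ℤ)) ∧
        ¬ SN (Fval cls a (fun l => (f l).eval t) 0) (Fval cls a (fun l => (f l).eval t) 1) <
          2 ^ (R + 1)) → (S.card : ℝ) ≤ ε * n) (x : ℝ) :
    Tendsto (fun n : ℕ => (((Ioc (N n) (N n + (n : ℤ))).filter (fun t =>
      (LGp cls a f (Jn n) t - cst cls a f * ell n) / √(vst cls a f * ell n) ≤ x)).card : ℝ) / n)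
      atTop (𝓝 ((gaussianReal 0 1).real (Set.Iic x))) := by
  classical
  -- the constants
  obtain ⟨z1, hz1⟩ := exists_Gp Pool.Agent.TH841.PT.GDPf.gdp hf ha ((∏ j, f j).natDegree + 1) le_rfl
  have hG1 := hz1 z1 le_rfl
  have hirr : ∀ y : J × Bool, Irreducible (fe f y) := fun y => hf.irr y.1
  obtain ⟨z2, hz2⟩ := means (ce cls) (fe f) (we cls a f) (se cls a f) (den_we (cls := cls) hG1 hf)
  obtain ⟨z3, hz3⟩ := char_sym (fe f) (we cls a f) hirr (cop_fe hG1) (Se cls a f)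
    (fun y y' h => den_wewe (cls := cls) hG1 hf y y' h)
  obtain ⟨z, hz⟩ : ∃ z : ℕ, z = z1 + z2 + z3 + 11 := ⟨_, rfl⟩
  have hz11 : 11 ≤ z := by omega
  have hG := hz1 z (by omega)
  have hmean := hz2 z (by omega)
  rw [kap_eq] at hmean
  have hchar := fun e => hz3 z (by omega) e N
  set c := (∏ j, f j).natDegree + 1 with hc
  have hsub : ∀ t, Fval cls a (fun l => (f l).eval t) 0 - Fval cls a (fun l => (f l).eval t) 1 =
      Fval cls a (fun l => (f l).eval t) 2 := by
    intro t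
    have h5 := congrArg (Polynomial.eval t) hF
    rw [eval_sub, eval_mul, eval_mul, eval_mul, eval_C, eval_C, eval_C, eval_prod, eval_prod,
      eval_prod] at h5
    exact h5
  have hD0 : (∏ j, f j) ≠ 0 := prod_ne_zero_iff.2 fun j _ => (hf.irr j).ne_zero
  obtain ⟨b, M1, hsize⟩ := size (∏ j, f j) L
  choose bj Mj hsizej using fun j => size (f j) L
  have hne : ∀ᶠ n in atTop, (Ioc (N n) (N n + (n : ℤ))).Nonempty := by
    filter_upwards [eventually_ge_atTop 1] with n hn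
    rw [nonempty_Ioc]
    omega
  have hcard : ∀ n : ℕ, ((Ioc (N n) (N n + (n : ℤ))).card : ℝ) = n := by
    intro n
    rw [Int.card_Ioc]
    simp
  set B : ℝ := ∑ j, 4 * ((bj j : ℝ) + 1) with hB
  -- the comparison outside of the exceptional set
  have compare : ∀ K R : ℕ, ∀ᶠ n in atTop, ∀ t ∈ Ioc (N n) (N n + (n : ℤ)),
      (∏ j, f j).eval t ≠ 0 → SN (Fval cls a (fun l => (f l).eval t) 0)
        (Fval cls a (fun l => (f l).eval t) 1) < 2 ^ (R + 1) →
      ((Tq (∏ j, f j) z t).card : ℝ) ≤ K → ∀ i : Fin 1,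
      |Zp cls a f Jn n t i - Wp cls a f z n t i| ≤ errp cls a f z
        ((R : ℝ) + 7 + 10 + (R + 1) + ((Fintype.card J : ℝ) + 1) * (((z : ℝ) + 1) + K))
        ((R : ℝ) + 1) B Jn n := by
    intro K R
    have hlc : ∀ᶠ n : ℕ in atTop, ∀ j, ∀ x : ℤ, x ≠ 0 → x.natAbs < (n + 1) ^ (bj j + 1) →
        ∀ S : Finset ℕ, (∀ p ∈ S, p.Prime ∧ (p : ℤ) ∣ x ∧ YY n < p) →
        (S.card : ℝ) ≤ 4 * ((bj j : ℝ) + 1) * rr n := by
      rw [eventually_all]
      exact fun j => large_count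
    filter_upwards [hlc, eventually_ge_atTop (∑ j, Mj j), tendsto_ell.eventually_gt_atTop 0]
      with n h1 h2 h3 t ht ht0 htR htK i
    have h0 : ∀ j, (f j).eval t ≠ 0 := by
      rw [eval_prod] at ht0
      exact fun j => (prod_ne_zero_iff.1 ht0) j (mem_univ j)
    have hA : Fval cls a (fun l => (f l).eval t) 0 ≠ 0 :=
      Pool.Agent.TH841.LS.CNTf.Fval_ne ha h0 0
    have hB' : Fval cls a (fun l => (f l).eval t) 1 ≠ 0 :=
      Pool.Agent.TH841.LS.CNTf.Fval_ne ha h0 1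
    have hAB : Fval cls a (fun l => (f l).eval t) 0 ≠ Fval cls a (fun l => (f l).eval t) 1 := by
      rw [← sub_ne_zero, hsub t]
      exact Pool.Agent.TH841.LS.CNTf.Fval_ne ha h0 2
    obtain ⟨-, k1, k2⟩ := two hA hB' hAB htR (hJ1 n)
    have k3 := AF_le (cls := cls) hG hz11 ha h0 (hsub t) rfl rfl
    have k4 := le_AF (cls := cls) hG hz11 ha h0 (hsub t) rfl rfl
    have k5 := AF_trunc cls a f hz11 h0 n
    have k6 : ∑ j, (((Qz f z t j).filter (fun p => ¬ p ≤ YY n)).card : ℝ) ≤ B * rr n := by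
      rw [hB, sum_mul]
      refine sum_le_sum fun j _ => ?_
      refine h1 j ((f j).eval t) (h0 j) ?_ _ fun p hp => ?_
      · refine hsizej j (N n) n (le_trans ?_ h2) (hN n) t ht
        exact single_le_sum (f := Mj) (fun _ _ => Nat.zero_le _) (mem_univ j)
      · rw [mem_filter, mem_Qz (h0 j)] at hp
        exact ⟨hp.1.1, hp.1.2.1, not_le.1 hp.2⟩
    have hs : 0 < √(vst cls a f * ell n) := Real.sqrt_pos.2 (by positivity)
    unfold Zp Wp errp
    rw [← sub_div, abs_div, abs_of_pos hs]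
    refine div_le_div_of_nonneg_right ?_ hs.le
    set LG := LGp cls a f (Jn n) t with hLG
    have hLG' : LG = Real.logb 2 (Nat.card (ShaTor (WI (Fval cls a (fun l => (f l).eval t) 0)
      (Fval cls a (fun l => (f l).eval t) 1)) (2 ^ (Jn n)))) := rfl
    rw [← hLG'] at k1 k2
    set E := ((Fintype.card J : ℝ) + 1) * (((z : ℝ) + 1) + (K : ℝ)) with hE
    have k7 : ((Fintype.card J : ℝ) + 1) * (((z : ℝ) + 1) + ((Tq (∏ j, f j) z t).card : ℝ)) ≤ E := by
      rw [hE]
      exact mul_le_mul_of_nonneg_left (by linarith) (by positivity)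
    have hRJ : (0 : ℝ) ≤ ((R : ℝ) + 1) * Jn n := by positivity
    have hR0 : (0 : ℝ) ≤ R := Nat.cast_nonneg R
    have k8 : |LG - AF cls a f z t| ≤ (R : ℝ) + 7 + 10 + (R + 1) + E + (R + 1) * Jn n := by
      rw [abs_le]
      constructor
      · linarith
      · linarith
    have e1 : LG - cst cls a f * ell n - ∑ p ∈ PPz z n, (FF (ce cls) (fe f) (we cls a f) p.1 t -
        me (gs (ce cls) (fe f) (we cls a f) p)) = (LG - AF cls a f z t) +
        (AF cls a f z t - ∑ p ∈ PPz z n, FF (ce cls) (fe f) (we cls a f) p.1 t) +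
        (∑ p ∈ PPz z n, me (gs (ce cls) (fe f) (we cls a f) p) - cst cls a f * ell n) := by
      rw [sum_sub_distrib]
      ring
    rw [e1]
    refine (abs_add_le _ _).trans (add_le_add ?_ le_rfl)
    refine (abs_add_le _ _).trans ?_
    linarith
  -- the exceptional set
  have bad : ∀ ε : ℝ, 0 < ε → ∀ η : ℝ, 0 < η → ∀ᶠ n in atTop,
      (((Ioc (N n) (N n + (n : ℤ))).filter (fun t => ∃ i, η < |Zp cls a f Jn n t i -
        Wp cls a f z n t i|)).card : ℝ) ≤ ε * (Ioc (N n) (N n + (n : ℤ))).card := by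
    intro ε hε η hη
    obtain ⟨R, hR⟩ := hSN (ε / 3) (by positivity)
    obtain ⟨K, hK⟩ := exists_nat_gt (3 * (2 * (c : ℝ) + b) / ε)
    have herr := errp_tendsto hmean hv
      ((R : ℝ) + 7 + 10 + (R + 1) + ((Fintype.card J : ℝ) + 1) * (((z : ℝ) + 1) + K))
      ((R : ℝ) + 1) B hJ
    filter_upwards [compare K R, hR, herr.eventually_le_const hη, eventually_ge_atTop (M1 + z + 1),
      (tendsto_natCast_atTop_atTop (R := ℝ)).eventually_ge_atTop
        (3 * ((∏ j, f j).natDegree : ℝ) / ε)] with n h1 h2 h3 h4 h5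
    have hn0 : (0 : ℝ) < n := by exact_mod_cast (by omega : 0 < n)
    rw [hcard n]
    set S0 := (Ioc (N n) (N n + (n : ℤ))).filter (fun t => (∏ j, f j).eval t = 0) with hS0
    set S1 := (Ioc (N n) (N n + (n : ℤ))).filter (fun t => (∏ j, f j).eval t ≠ 0 ∧
      (K : ℝ) < ((Tq (∏ j, f j) z t).card : ℝ)) with hS1
    set S2' := (Ioc (N n) (N n + (n : ℤ))).filter (fun t =>
      ¬ SN (Fval cls a (fun l => (f l).eval t) 0) (Fval cls a (fun l => (f l).eval t) 1) <
          2 ^ (R + 1)) with hS2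
    have hsubset : (Ioc (N n) (N n + (n : ℤ))).filter (fun t => ∃ i, η < |Zp cls a f Jn n t i -
        Wp cls a f z n t i|) ⊆ (S0 ∪ S1) ∪ S2' := by
      intro t ht
      rw [mem_filter] at ht
      obtain ⟨ht1, i, hi⟩ := ht
      by_contra hcon
      rw [mem_union, mem_union, not_or, not_or] at hcon
      obtain ⟨⟨c1, c2⟩, c3⟩ := hcon
      have d1 : (∏ j, f j).eval t ≠ 0 := fun h => c1 (mem_filter.2 ⟨ht1, h⟩)
      have d2 : ((Tq (∏ j, f j) z t).card : ℝ) ≤ K := by
        by_contra h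
        exact c2 (mem_filter.2 ⟨ht1, d1, not_le.1 h⟩)
      have d3 : SN (Fval cls a (fun l => (f l).eval t) 0) (Fval cls a (fun l => (f l).eval t) 1) <
          2 ^ (R + 1) := by
        by_contra h
        exact c3 (mem_filter.2 ⟨ht1, h⟩)
      have := h1 t ht1 d1 d3 d2 i
      linarith
    have q0 : (S0.card : ℝ) ≤ ε / 3 * n := by
      have := zeros hD0 (N n) n
      have h6 : (S0.card : ℝ) ≤ ((∏ j, f j).natDegree : ℝ) := by exact_mod_cast this
      rw [div_le_iff₀ hε] at h5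
      linarith
    have q1 : (S1.card : ℝ) ≤ ε / 3 * n := by
      have h6 := markov (b := b) hG.good (by omega) (N n) n (by omega)
        (hsize (N n) n (by omega) (hN n)) (K : ℝ)
      have hK0 : (0 : ℝ) < K := lt_of_le_of_lt (by positivity) hK
      rw [div_lt_iff₀ hε] at hK
      have h7 : (S1.card : ℝ) * K ≤ (2 * c + b) * n := h6
      have h8 : (2 * (c : ℝ) + b) * n ≤ (ε / 3 * n) * K := by nlinarith
      exact le_of_mul_le_mul_right (h7.trans h8) hK0
    have q2 : (S2'.card : ℝ) ≤ ε / 3 * n := h2 S2' fun t ht => mem_filter.1 ht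
    have q3 : (((Ioc (N n) (N n + (n : ℤ))).filter (fun t => ∃ i, η < |Zp cls a f Jn n t i -
        Wp cls a f z n t i|)).card : ℝ) ≤ S0.card + S1.card + S2'.card := by
      exact_mod_cast (card_le_card hsubset).trans ((card_union_le _ _).trans
        (Nat.add_le_add_right (card_union_le _ _) _))
    linarith
  -- the characteristic functions
  have charW : ∀ s : Fin 1 → ℝ, Tendsto (fun n => av (Ioc (N n) (N n + (n : ℤ)))
      (fun t => Complex.exp (Complex.I * ((∑ i, s i * Wp cls a f z n t i : ℝ) : ℂ)))) atTop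
      (𝓝 (Complex.exp (-((∑ i, s i ^ 2 : ℝ) : ℂ) / 2))) := by
    intro s
    set q := √(vst cls a f) with hq
    have hq0 : 0 < q := Real.sqrt_pos.2 hv
    have hq2 : q ^ 2 = vst cls a f := Real.sq_sqrt hv.le
    have h1 := hchar (fun y => s 0 / q * ce cls y)
    have e1 : Vr (fun y => s 0 / q * ce cls y) (fe f) (Se cls a f) = ∑ i, s i ^ 2 := by
      rw [Vr_smul, Vr_eq hf, div_pow, hq2, Fin.sum_univ_one]
      field_simp
    rw [e1] at h1
    refine (tendsto_congr fun n => ?_).1 h1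
    congr 1
    funext t
    congr 3
    rw [Fin.sum_univ_one]
    unfold Wp
    rw [Real.sqrt_mul hv.le, ← hq]
    have e2 : ∀ p ∈ PPz z n, FF (fun y => s 0 / q * ce cls y) (fe f) (we cls a f) p.1 t -
        me (gs (fun y => s 0 / q * ce cls y) (fe f) (we cls a f) p) =
        s 0 / q * (FF (ce cls) (fe f) (we cls a f) p.1 t -
          me (gs (ce cls) (fe f) (we cls a f) p)) := by
      intro p _
      rw [FF_smul, me_smul]
      ring
    rw [sum_congr rfl e2, ← mul_sum, div_mul_eq_mul_div, div_div, mul_div_assoc]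
  have h1 := law hne (Zp cls a f Jn) (fun s => pert hne (Zp cls a f Jn) (Wp cls a f z) bad s
    (charW s)) (fun _ => x)
  rw [Fin.prod_univ_one] at h1
  refine (tendsto_congr fun n => ?_).1 h1
  rw [hcard n]
  congr 2
  refine congrArg Finset.card (filter_congr fun t _ => ?_)
  constructor
  · intro h
    exact h 0
  · intro h i
    exact h

end Pool.Agent.X217.EK
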