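import Pool.Agent.X217.EK.SymC
import Pool.Agent.X217.EK.Det

/-!
# The local comparison for the pencils
-/

set_option autoImplicit false
set_option linter.unusedSectionVars false

namespace Pool.Agent.X217.EK

open Finset Filter Topology Polynomial

open Pool.Agent.W262.RK (Jr PS fs)

open Pool.Agent.TH841.LS.TKXf (hh' rc MU Jr_abs Jr_mod hh_abs rc_abs)

open Pool.Agent.TH841.PM.BADf (Rt card_Rt SS mem_PS)

open Pool.Agent.H474R2.PG (rho)

open Pool.Agent.TH841.NO.CNTUf (W Gj mem_Gj W_ndvd W_two C1g_ge C2g_ge)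

open Pool.Agent.TH841.LS.CNTf (Tq Pj mem_Pj GA_ge mem_Tq_prod)

open Pool.Agent.TH841.LS.CNTXf (GD_ge W3)

open Pool.Agent.TH841.LS (GA GD C1x C2x)

open Pool.Agent.TH841.NO (S2 C1g C2g)

open Pool.Agent.TH841.PT (Gp Fval)

variable {J : Type} [Fintype J] [DecidableEq J]

/-- the coefficients -/
noncomputable def ce (cls : J → Fin 4) (x : J × Bool) : ℝ :=
  if x.2 = true then (if cls x.1 = 2 ∨ cls x.1 = 3 then -(1 / 2) else 0)
  else (if cls x.1 = 2 then -(1 / 2) else if cls x.1 = 3 then 1 / 2 else 1)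

/-- the factors -/
def fe (f : J → ℤ[X]) (x : J × Bool) : ℤ[X] := f x.1

/-- the symbols -/
noncomputable def we (cls : J → Fin 4) (a : Fin 3 → ℤ) (f : J → ℤ[X]) (x : J × Bool) : ℤ[X] :=
  if x.2 = true ∧ (cls x.1 = 2 ∨ cls x.1 = 3) then W cls a f x.1 else 1

/-- the prime factors above `z` -/
noncomputable def Qz (f : J → ℤ[X]) (z : ℕ) (t : ℤ) (j : J) : Finset ℕ :=
  ((f j).eval t).natAbs.primeFactors.filter (fun p => z < p)

/-- the term of a prime factor -/
noncomputable def trm (cls : J → Fin 4) (a : Fin 3 → ℤ) (f : J → ℤ[X]) (t : ℤ) (j : J) (p : ℕ) : ℝ :=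
  ce cls (j, false) + ce cls (j, true) * Jr ((we cls a f (j, true)).eval t) p

/-- the additive function -/
noncomputable def AF (cls : J → Fin 4) (a : Fin 3 → ℤ) (f : J → ℤ[X]) (z : ℕ) (t : ℤ) : ℝ :=
  ∑ j, ∑ p ∈ Qz f z t j, trm cls a f t j p

lemma mem_Qz {f : J → ℤ[X]} {z : ℕ} {t : ℤ} {j : J} (h0 : (f j).eval t ≠ 0) {p : ℕ} :
    p ∈ Qz f z t j ↔ p.Prime ∧ (p : ℤ) ∣ (f j).eval t ∧ z < p := by
  unfold Qz
  rw [mem_filter, Nat.mem_primeFactors, ← Int.natCast_dvd]
  constructor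
  · rintro ⟨⟨h1, h2, _⟩, h3⟩
    exact ⟨h1, h2, h3⟩
  · rintro ⟨h1, h2, h3⟩
    exact ⟨⟨h1, h2, Int.natAbs_ne_zero.2 h0⟩, h3⟩

lemma trm01 {cls : J → Fin 4} {a : Fin 3 → ℤ} {f : J → ℤ[X]} {t : ℤ} {j : J} {p : ℕ}
    (h : cls j = 0 ∨ cls j = 1) : trm cls a f t j p = 1 := by
  have h2 : ¬ (cls j = 2) := by rcases h with h | h <;> rw [h] <;> decide
  have h3 : ¬ (cls j = 3) := by rcases h with h | h <;> rw [h] <;> decide
  unfold trm ce
  simp [h2, h3]

lemma trm2 {cls : J → Fin 4} {a : Fin 3 → ℤ} {f : J → ℤ[X]} {t : ℤ} {j : J} {p : ℕ}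
    (h : cls j = 2) : trm cls a f t j p = -(1 / 2) + -(1 / 2) * Jr ((W cls a f j).eval t) p := by
  unfold trm ce we
  simp [h]

lemma trm3 {cls : J → Fin 4} {a : Fin 3 → ℤ} {f : J → ℤ[X]} {t : ℤ} {j : J} {p : ℕ}
    (h : cls j = 3) : trm cls a f t j p = 1 / 2 + -(1 / 2) * Jr ((W cls a f j).eval t) p := by
  have h2 : ¬ (cls j = 2) := by rw [h]; decide
  unfold trm ce we
  simp [h]

lemma cls_cases (k : Fin 4) : (k = 0 ∨ k = 1) ∨ k = 2 ∨ k = 3 := by
  revert k
  decide

lemma abs_trm (cls : J → Fin 4) (a : Fin 3 → ℤ) (f : J → ℤ[X]) (t : ℤ) (j : J) (p : ℕ) :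
    |trm cls a f t j p| ≤ 1 := by
  have hJ := abs_le.1 (Jr_abs ((W cls a f j).eval t) p)
  rcases cls_cases (cls j) with h | h | h
  · rw [trm01 h]
    norm_num
  · rw [trm2 h, abs_le]
    constructor <;> linarith [hJ.1, hJ.2]
  · rw [trm3 h, abs_le]
    constructor <;> linarith [hJ.1, hJ.2]

/-- the sum of the symbols over the small primes -/
lemma sum_FF (cls : J → Fin 4) (a : Fin 3 → ℤ) (f : J → ℤ[X]) {z : ℕ} (hz : 11 ≤ z) {t : ℤ}
    (h0 : ∀ j, (f j).eval t ≠ 0) (n : ℕ) :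
    ∑ p ∈ PPz z n, FF (ce cls) (fe f) (we cls a f) p.1 t =
      ∑ j, ∑ p ∈ (Qz f z t j).filter (fun p => p ≤ YY n), trm cls a f t j p := by
  classical
  rw [sum_PPz hz (fun p : ℕ => FF (ce cls) (fe f) (we cls a f) p t)]
  have h1 : ∀ p ∈ PS z (YY n), FF (ce cls) (fe f) (we cls a f) p t =
      ∑ j, if (p : ℤ) ∣ (f j).eval t then trm cls a f t j p else 0 := by
    intro p _
    unfold FF
    rw [Fintype.sum_prod_type]
    refine sum_congr rfl fun j _ => ?_
    rw [Fintype.sum_bool]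
    have hw : we cls a f (j, false) = 1 := by
      unfold we
      simp
    have h2 : hh' (fe f (j, false)) (we cls a f (j, false)) p t =
        if (p : ℤ) ∣ (f j).eval t then 1 else 0 := by
      rw [hw]
      unfold hh' fe Jr
      split_ifs
      · simp
      · rfl
    have h3 : hh' (fe f (j, true)) (we cls a f (j, true)) p t =
        if (p : ℤ) ∣ (f j).eval t then Jr ((we cls a f (j, true)).eval t) p else 0 := by
      unfold hh' fe
      rfl
    rw [h2, h3]
    unfold trm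
    split_ifs
    · ring
    · ring
  rw [sum_congr rfl h1, sum_comm]
  refine sum_congr rfl fun j _ => ?_
  rw [← sum_filter]
  refine sum_congr ?_ fun _ _ => rfl
  ext p
  rw [mem_filter, mem_PS, mem_filter, mem_Qz (h0 j)]
  tauto

/-- the truncation -/
lemma AF_trunc (cls : J → Fin 4) (a : Fin 3 → ℤ) (f : J → ℤ[X]) {z : ℕ} (hz : 11 ≤ z) {t : ℤ}
    (h0 : ∀ j, (f j).eval t ≠ 0) (n : ℕ) :
    |AF cls a f z t - ∑ p ∈ PPz z n, FF (ce cls) (fe f) (we cls a f) p.1 t| ≤
      ∑ j, (((Qz f z t j).filter (fun p => ¬ p ≤ YY n)).card : ℝ) := by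
  rw [sum_FF cls a f hz h0 n]
  unfold AF
  rw [← sum_sub_distrib]
  refine (abs_sum_le_sum_abs _ _).trans (sum_le_sum fun j _ => ?_)
  rw [← sum_filter_add_sum_filter_not (Qz f z t j) (fun p => p ≤ YY n), add_sub_cancel_left]
  refine (abs_sum_le_sum_abs _ _).trans ((sum_le_sum fun p _ => abs_trm cls a f t j p).trans ?_)
  rw [sum_const, nsmul_eq_mul, mul_one]

/-- the number of the large prime factors -/
lemma card_large {x : ℤ} (hx : x ≠ 0) {Y : ℕ} (hY : 1 ≤ Y) (S : Finset ℕ)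
    (hS : ∀ p ∈ S, p.Prime ∧ (p : ℤ) ∣ x ∧ Y < p) :
    (S.card : ℝ) * Real.log Y ≤ Real.log (x.natAbs : ℝ) := by
  have h1 : ∏ p ∈ S, p ∣ x.natAbs :=
    Finset.prod_primes_dvd _ (fun p hp => (hS p hp).1.prime)
      (fun p hp => Int.natCast_dvd.1 (hS p hp).2.1)
  have h2 : Y ^ S.card ≤ ∏ p ∈ S, p :=
    Finset.pow_card_le_prod _ _ _ fun p hp => (hS p hp).2.2.le
  have h3 : Y ^ S.card ≤ x.natAbs := h2.trans (Nat.le_of_dvd (Int.natAbs_pos.2 hx) h1)
  have h4 : ((Y : ℝ) ^ S.card) ≤ (x.natAbs : ℝ) := by exact_mod_cast h3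
  have hY0 : (0 : ℝ) < Y := by exact_mod_cast (by omega : 0 < Y)
  have h5 := Real.log_le_log (by positivity) h4
  rwa [Real.log_pow] at h5

lemma split3 (cls : J → Fin 4) (G : J → ℝ) : ∑ j, G j =
    ∑ j ∈ univ.filter (fun j => cls j = 0 ∨ cls j = 1), G j +
    ∑ j ∈ univ.filter (fun j => cls j = 2), G j + ∑ j ∈ univ.filter (fun j => cls j = 3), G j := by
  rw [sum_filter, sum_filter, sum_filter, ← sum_add_distrib, ← sum_add_distrib]
  refine sum_congr rfl fun j _ => ?_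
  generalize cls j = k
  fin_cases k <;> simp

lemma jac_pm {w : ℤ} {p : ℕ} (hp : p.Prime) (h : ¬ (p : ℤ) ∣ w) :
    jacobiSym w p = 1 ∨ jacobiSym w p = -1 := by
  have hg : w.gcd p = 1 := Pool.Agent.TH841.LS.CNTXf.jne hp h
  exact jacobiSym.eq_one_or_neg_one hg

open Classical in
lemma sum_b2 {cls : J → Fin 4} {a : Fin 3 → ℤ} {f : J → ℤ[X]} {z c : ℕ} (h : Gp a f z c)
    {t : ℤ} (h0 : ∀ j, (f j).eval t ≠ 0) {j : J} (hj : cls j = 2) :
    ∑ p ∈ Qz f z t j, trm cls a f t j p =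
      -(((Qz f z t j).filter (fun p => jacobiSym ((W cls a f j).eval t) p = 1)).card : ℝ) := by
  rw [card_filter]
  push_cast
  rw [← sum_neg_distrib]
  refine sum_congr rfl fun p hp => ?_
  rw [mem_Qz (h0 j)] at hp
  obtain ⟨h1, h2, h3⟩ := hp
  rw [trm2 hj]
  unfold Jr
  rcases jac_pm h1 (W_ndvd (cls := cls) h (Or.inl hj) h1 h3 h2) with h4 | h4
  · rw [h4, if_pos rfl]
    norm_num
  · rw [h4, if_neg (by norm_num)]
    norm_num

open Classical in
lemma sum_b3 {cls : J → Fin 4} {a : Fin 3 → ℤ} {f : J → ℤ[X]} {z c : ℕ} (h : Gp a f z c)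
    {t : ℤ} (h0 : ∀ j, (f j).eval t ≠ 0) {j : J} (hj : cls j = 3) :
    ∑ p ∈ Qz f z t j, trm cls a f t j p =
      (((Qz f z t j).filter (fun p => jacobiSym ((W cls a f j).eval t) p = -1)).card : ℝ) := by
  rw [card_filter]
  push_cast
  refine sum_congr rfl fun p hp => ?_
  rw [mem_Qz (h0 j)] at hp
  obtain ⟨h1, h2, h3⟩ := hp
  rw [trm3 hj]
  unfold Jr
  rcases jac_pm h1 (W_ndvd (cls := cls) h (Or.inr hj) h1 h3 h2) with h4 | h4
  · rw [h4, if_neg (by norm_num)]
    norm_num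
  · rw [h4, if_pos rfl]
    norm_num

lemma sum_b01 {cls : J → Fin 4} {a : Fin 3 → ℤ} {f : J → ℤ[X]} {z : ℕ} {t : ℤ} {j : J}
    (hj : cls j = 0 ∨ cls j = 1) :
    ∑ p ∈ Qz f z t j, trm cls a f t j p = ((Qz f z t j).card : ℝ) := by
  rw [sum_congr rfl fun p _ => trm01 hj, sum_const, nsmul_eq_mul, mul_one]

lemma W_three {cls : J → Fin 4} {a : Fin 3 → ℤ} {f : J → ℤ[X]} {j : J} (hj : cls j = 3) :
    W cls a f j = W3 cls a f := by
  have hne2 : ¬ cls j = 2 := by rw [hj]; decide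
  unfold W W3
  rw [if_neg hne2]

/-- the prime factors up to `z` -/
lemma card_pf_le (f : J → ℤ[X]) (z : ℕ) (t : ℤ) (j : J) :
    ((f j).eval t).natAbs.primeFactors.card ≤ (Qz f z t j).card + (z + 1) := by
  have h1 : ((f j).eval t).natAbs.primeFactors ⊆ Qz f z t j ∪ range (z + 1) := by
    intro p hp
    rw [mem_union, mem_range]
    by_cases h : p < z + 1
    · exact Or.inr h
    · left
      unfold Qz
      exact mem_filter.2 ⟨hp, by omega⟩
  refine (card_le_card h1).trans ((card_union_le _ _).trans (Nat.add_le_add_left ?_ _))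
  rw [card_range]

lemma Qz_sub (f : J → ℤ[X]) (z : ℕ) (t : ℤ) (j : J) :
    Qz f z t j ⊆ ((f j).eval t).natAbs.primeFactors := filter_subset _ _

/-- the lower bound -/
lemma AF_le {cls : J → Fin 4} {a : Fin 3 → ℤ} {f : J → ℤ[X]} {z c : ℕ} (h : Gp a f z c)
    (hz11 : 11 ≤ z) (ha : ∀ k, a k ≠ 0) {t : ℤ} (h0 : ∀ j, (f j).eval t ≠ 0)
    (hsub : Fval cls a (fun l => (f l).eval t) 0 - Fval cls a (fun l => (f l).eval t) 1 =
      Fval cls a (fun l => (f l).eval t) 2) {A B : ℤ}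
    (hA : Fval cls a (fun l => (f l).eval t) 0 = A) (hB : Fval cls a (fun l => (f l).eval t) 1 = B) :
    AF cls a f z t + (C1x A B).card + (C2x A B).card ≤ (GA A B).card + (GD A B).card +
      ((Fintype.card J : ℝ) + 1) * (((z : ℝ) + 1) + ((Tq (∏ j, f j) z t).card : ℝ)) := by
  classical
  have g1 := GA_ge (cls := cls) h hz11 ha h0 hsub
  have g2 := GD_ge (cls := cls) h hz11 ha h0 hsub (univ.filter (fun j => cls j = 3))
    (fun j hj => (mem_filter.1 hj).2)
  have g3 := Pool.Agent.TH841.LS.CNTXf.C1x_le (cls := cls) h h0 hsub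
  rw [hA, hB] at g1 g2
  rw [hA, hB] at g3
  set T := (Tq (∏ j, f j) z t).card with hT
  have hTz : (0 : ℝ) ≤ ((z : ℝ) + 1) + (T : ℝ) := by positivity
  -- the classes
  have b01 : ∑ j ∈ univ.filter (fun j => cls j = 0 ∨ cls j = 1),
      ∑ p ∈ Qz f z t j, trm cls a f t j p ≤
      ∑ j ∈ univ.filter (fun j => cls j = 0 ∨ cls j = 1),
        (((f j).eval t).natAbs.primeFactors.card : ℝ) := by
    refine sum_le_sum fun j hj => ?_
    rw [sum_b01 (mem_filter.1 hj).2]
    exact_mod_cast card_le_card (Qz_sub f z t j)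
  have b2 : ∑ j ∈ univ.filter (fun j => cls j = 2), ∑ p ∈ Qz f z t j, trm cls a f t j p ≤
      ∑ j ∈ univ.filter (fun j => cls j = 2), (((z : ℝ) + 1) -
        ((((f j).eval t).natAbs.primeFactors.filter
          (fun p => jacobiSym A p = 1)).card : ℝ)) := by
    refine sum_le_sum fun j hj => ?_
    have hj2 := (mem_filter.1 hj).2
    rw [sum_b2 h h0 hj2]
    have h1 : (((f j).eval t).natAbs.primeFactors.filter (fun p => jacobiSym A p = 1)) ⊆
        (Qz f z t j).filter (fun p => jacobiSym ((W cls a f j).eval t) p = 1) ∪ range (z + 1) := by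
      intro p hp
      rw [mem_filter] at hp
      rw [mem_union, mem_range, mem_filter]
      by_cases h : p < z + 1
      · exact Or.inr h
      · left
        refine ⟨?_, ?_⟩
        · unfold Qz
          exact mem_filter.2 ⟨hp.1, by omega⟩
        · rw [W_two hj2, hA]
          exact hp.2
    have h2 := (card_le_card h1).trans (card_union_le _ _)
    rw [card_range] at h2
    have h3 : ((((f j).eval t).natAbs.primeFactors.filter
        (fun p => jacobiSym A p = 1)).card : ℝ) ≤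
        ((Qz f z t j).filter (fun p => jacobiSym ((W cls a f j).eval t) p = 1)).card +
          ((z : ℝ) + 1) := by exact_mod_cast h2
    linarith
  have b3 : ∑ j ∈ univ.filter (fun j => cls j = 3), ∑ p ∈ Qz f z t j, trm cls a f t j p ≤
      ∑ j ∈ univ.filter (fun j => cls j = 3), ((((Pj f z t j).filter
        (fun p => jacobiSym ((W3 cls a f).eval t) p = -1)).card : ℝ) + T) := by
    refine sum_le_sum fun j hj => ?_
    have hj3 := (mem_filter.1 hj).2
    rw [sum_b3 h h0 hj3, W_three hj3]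
    have h1 : (Qz f z t j).filter (fun p => jacobiSym ((W3 cls a f).eval t) p = -1) ⊆
        (Pj f z t j).filter (fun p => jacobiSym ((W3 cls a f).eval t) p = -1) ∪
          Tq (∏ j, f j) z t := by
      intro p hp
      rw [mem_filter, mem_Qz (h0 j)] at hp
      obtain ⟨⟨h1, h2, h3⟩, h4⟩ := hp
      rw [mem_union, mem_filter, mem_Pj (h0 j)]
      by_cases h5 : ((p ^ 2 : ℕ) : ℤ) ∣ (f j).eval t
      · exact Or.inr (mem_Tq_prod h0 h1 h3 h5)
      · exact Or.inl ⟨⟨h1, h2, h3, h5⟩, h4⟩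
    exact_mod_cast (card_le_card h1).trans (card_union_le _ _)
  have hs := split3 cls (fun j => ∑ p ∈ Qz f z t j, trm cls a f t j p)
  have hn := split3 cls (fun _ => (1 : ℝ))
  simp only [sum_const, nsmul_eq_mul, mul_one, card_univ] at hn
  rw [sum_sub_distrib, sum_const, nsmul_eq_mul] at b2
  rw [sum_add_distrib, sum_const, nsmul_eq_mul] at b3
  have g1' : ∑ j ∈ univ.filter (fun j => cls j = 0 ∨ cls j = 1),
        (((f j).eval t).natAbs.primeFactors.card : ℝ) ≤ (GA A B).card +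
        ((univ.filter (fun j => cls j = 0 ∨ cls j = 1)).card : ℝ) * (((z : ℝ) + 1) + T) := by
    exact_mod_cast g1
  have g2' : ∑ j ∈ univ.filter (fun j => cls j = 3), (((Pj f z t j).filter
        (fun p => jacobiSym ((W3 cls a f).eval t) p = -1)).card : ℝ) + (C2x A B).card ≤
        (GD A B).card := by
    exact_mod_cast g2
  have g3' : ((C1x A B).card : ℝ) ≤ ∑ j ∈ univ.filter (fun j => cls j = 2),
      ((((f j).eval t).natAbs.primeFactors.filter
        (fun p => jacobiSym A p = 1)).card : ℝ) + (((z : ℝ) + 1) + T) := by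
    exact_mod_cast g3
  have hAF : AF cls a f z t = ∑ j, ∑ p ∈ Qz f z t j, trm cls a f t j p := rfl
  have hz0 : (0 : ℝ) ≤ (z : ℝ) + 1 := by positivity
  have hT0 : (0 : ℝ) ≤ (T : ℝ) := Nat.cast_nonneg _
  have k2 : (0 : ℝ) ≤ ((univ.filter (fun j => cls j = 2)).card : ℝ) := Nat.cast_nonneg _
  have k3 : (0 : ℝ) ≤ ((univ.filter (fun j => cls j = 3)).card : ℝ) := Nat.cast_nonneg _
  have m2 := mul_nonneg k2 hT0
  have m3 := mul_nonneg k3 hz0
  rw [hAF, hs, hn]
  linarith

/-- the upper bound -/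
lemma le_AF {cls : J → Fin 4} {a : Fin 3 → ℤ} {f : J → ℤ[X]} {z c : ℕ} (h : Gp a f z c)
    (hz11 : 11 ≤ z) (ha : ∀ k, a k ≠ 0) {t : ℤ} (h0 : ∀ j, (f j).eval t ≠ 0)
    (hsub : Fval cls a (fun l => (f l).eval t) 0 - Fval cls a (fun l => (f l).eval t) 1 =
      Fval cls a (fun l => (f l).eval t) 2) {A B : ℤ}
    (hA : Fval cls a (fun l => (f l).eval t) 0 = A) (hB : Fval cls a (fun l => (f l).eval t) 1 = B) :
    ((S2 A B).card : ℝ) ≤ AF cls a f z t + (C1g A B).card + (C2g A B).card +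
      ((Fintype.card J : ℝ) + 1) * (((z : ℝ) + 1) + ((Tq (∏ j, f j) z t).card : ℝ)) := by
  classical
  have g1 := Pool.Agent.TH841.NO.CNTUf.S2_le (cls := cls) h h0
  have g2 := C1g_ge (cls := cls) h hz11 ha h0 hsub
  have g3 := C2g_ge (cls := cls) h hz11 ha h0 hsub
  rw [hA, hB] at g1 g2 g3
  set T := (Tq (∏ j, f j) z t).card with hT
  have hG : ∀ j, (((Qz f z t j).filter
      (fun p => jacobiSym ((W cls a f j).eval t) p = 1)).card : ℝ) ≤
      ((Gj (f j) (W cls a f j) z t).card : ℝ) + T := by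
    intro j
    have h1 : (Qz f z t j).filter (fun p => jacobiSym ((W cls a f j).eval t) p = 1) ⊆
        Gj (f j) (W cls a f j) z t ∪ Tq (∏ j, f j) z t := by
      intro p hp
      rw [mem_filter, mem_Qz (h0 j)] at hp
      obtain ⟨⟨h1, h2, h3⟩, h4⟩ := hp
      rw [mem_union, mem_Gj (h0 j)]
      by_cases h5 : ((p ^ 2 : ℕ) : ℤ) ∣ (f j).eval t
      · exact Or.inr (mem_Tq_prod h0 h1 h3 h5)
      · exact Or.inl ⟨h1, h2, h3, h5, h4⟩
    exact_mod_cast (card_le_card h1).trans (card_union_le _ _)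
  have b01 : ∑ j ∈ univ.filter (fun j => cls j = 0 ∨ cls j = 1),
        (((f j).eval t).natAbs.primeFactors.card : ℝ) ≤
      ∑ j ∈ univ.filter (fun j => cls j = 0 ∨ cls j = 1),
        (∑ p ∈ Qz f z t j, trm cls a f t j p + ((z : ℝ) + 1)) := by
    refine sum_le_sum fun j hj => ?_
    rw [sum_b01 (mem_filter.1 hj).2]
    exact_mod_cast card_pf_le f z t j
  have b2 : -(∑ j ∈ univ.filter (fun j => cls j = 2), ((Gj (f j) (W cls a f j) z t).card : ℝ)) ≤
      ∑ j ∈ univ.filter (fun j => cls j = 2), (∑ p ∈ Qz f z t j, trm cls a f t j p + T) := by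
    rw [← sum_neg_distrib]
    refine sum_le_sum fun j hj => ?_
    rw [sum_b2 h h0 (mem_filter.1 hj).2]
    have := hG j
    linarith
  have b3 : ∑ j ∈ univ.filter (fun j => cls j = 3),
        ((((f j).eval t).natAbs.primeFactors.card : ℝ) -
          ((Gj (f j) (W cls a f j) z t).card : ℝ)) ≤
      ∑ j ∈ univ.filter (fun j => cls j = 3),
        (∑ p ∈ Qz f z t j, trm cls a f t j p + (((z : ℝ) + 1) + T)) := by
    refine sum_le_sum fun j hj => ?_
    have hj3 := (mem_filter.1 hj).2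
    rw [sum_b3 h h0 hj3]
    have h1 := hG j
    have h2 : (((f j).eval t).natAbs.primeFactors.card : ℝ) ≤
      (Qz f z t j).card + ((z : ℝ) + 1) := by exact_mod_cast card_pf_le f z t j
    have h3 : ((Qz f z t j).card : ℝ) ≤
        ((Qz f z t j).filter (fun p => jacobiSym ((W cls a f j).eval t) p = 1)).card +
        ((Qz f z t j).filter (fun p => jacobiSym ((W cls a f j).eval t) p = -1)).card := by
      have h4 : Qz f z t j ⊆
          (Qz f z t j).filter (fun p => jacobiSym ((W cls a f j).eval t) p = 1) ∪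
          (Qz f z t j).filter (fun p => jacobiSym ((W cls a f j).eval t) p = -1) := by
        intro p hp
        rw [mem_union, mem_filter, mem_filter]
        have hp' := (mem_Qz (h0 j)).1 hp
        rcases jac_pm hp'.1 (W_ndvd (cls := cls) h (Or.inr hj3) hp'.1 hp'.2.2 hp'.2.1) with h5 | h5
        · exact Or.inl ⟨hp, h5⟩
        · exact Or.inr ⟨hp, h5⟩
      exact_mod_cast (card_le_card h4).trans (card_union_le _ _)
    linarith
  have hs := split3 cls (fun j => ∑ p ∈ Qz f z t j, trm cls a f t j p)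
  have hn := split3 cls (fun _ => (1 : ℝ))
  simp only [sum_const, nsmul_eq_mul, mul_one, card_univ] at hn
  rw [sum_add_distrib, sum_const, nsmul_eq_mul] at b01 b2 b3
  rw [sum_sub_distrib] at b3
  -- the sum over the classes different from two
  have hne : ∑ j ∈ univ.filter (fun j => cls j ≠ 2), (((f j).eval t).natAbs.primeFactors.card : ℝ) =
      ∑ j ∈ univ.filter (fun j => cls j = 0 ∨ cls j = 1),
        (((f j).eval t).natAbs.primeFactors.card : ℝ) +
      ∑ j ∈ univ.filter (fun j => cls j = 3),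
        (((f j).eval t).natAbs.primeFactors.card : ℝ) := by
    rw [sum_filter, sum_filter, sum_filter, ← sum_add_distrib]
    refine sum_congr rfl fun j _ => ?_
    generalize cls j = k
    fin_cases k <;> simp
  have g1' : ((S2 A B).card : ℝ) ≤ ∑ j ∈ univ.filter (fun j => cls j ≠ 2),
      (((f j).eval t).natAbs.primeFactors.card : ℝ) + ((z : ℝ) + 1) := by
    exact_mod_cast g1
  have g2' : ∑ j ∈ univ.filter (fun j => cls j = 2), ((Gj (f j) (W cls a f j) z t).card : ℝ) ≤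
      (C1g A B).card := by exact_mod_cast g2
  have g3' : ∑ j ∈ univ.filter (fun j => cls j = 3), ((Gj (f j) (W cls a f j) z t).card : ℝ) ≤
      (C2g A B).card := by exact_mod_cast g3
  have hAF : AF cls a f z t = ∑ j, ∑ p ∈ Qz f z t j, trm cls a f t j p := rfl
  have hz0 : (0 : ℝ) ≤ (z : ℝ) + 1 := by positivity
  have hT0 : (0 : ℝ) ≤ (T : ℝ) := Nat.cast_nonneg _
  have k1 : (0 : ℝ) ≤ ((univ.filter (fun j => cls j = 0 ∨ cls j = 1)).card : ℝ) :=
    Nat.cast_nonneg _
  have k2 : (0 : ℝ) ≤ ((univ.filter (fun j => cls j = 2)).card : ℝ) := Nat.cast_nonneg _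
  have m1 := mul_nonneg k1 hT0
  have m2 := mul_nonneg k2 hz0
  rw [hAF, hs, hn]
  linarith

end Pool.Agent.X217.EK
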