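import Pool.Agent.X217.EK.PenD

/-!
# The Tate-Shafarevich group of the quotient of one curve, two bounds; 2-Selmer groups in pencils
-/

set_option autoImplicit false
set_option linter.unusedSectionVars false

namespace Pool.Agent.X217.EK

open Finset WeierstrassCurve Polynomial

open Pool.Agent.TH841.SH.D

open Pool.Agent.TH841.LS (WI GA GD C1x C2x DG)

open Pool.Agent.TH841.PT (EQ Irr)

open Pool.Agent.TH841.NO (SQ fo S2 C1g C2g)

open Pool.Agent.W307.SE (SN Sel SN_nonneg)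

open Pool.Agent.X217.NS

open Pool.Agent.TH841.TR (UP allf Bal fp)

/-- **one curve, general version** -/
theorem two {A B : ℤ} (hA : A ≠ 0) (hB : B ≠ 0) (hAB : A ≠ B) {R : ℕ}
    (hR : SN A B < 2 ^ (R + 1)) {j : ℕ} (hj : 1 ≤ j) :
    Finite (ShaTor (WI A B) (2 ^ j)) ∧
      ((GA A B).card : ℝ) + (GD A B).card ≤ Real.logb 2 (Nat.card (ShaTor (WI A B) (2 ^ j))) +
        (C1x A B).card + (C2x A B).card + (R + 7) ∧
      Real.logb 2 (Nat.card (ShaTor (WI A B) (2 ^ j))) + (C1g A B).card + (C2g A B).card ≤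
        (S2 A B).card + 10 + (R + 1) + (R + 1) * j := by
  have H : ∀ A' B' : ℤ, A * 1 ^ 2 = A' → B * 1 ^ 2 = B' →
      (∀ j : ℕ, Finite (ShaTor (EQ A' B') (2 ^ j))) ∧
      (∀ j : ℕ, 1 ≤ j → (2 : ℝ) ^ rk (EQ A' B') *
        (Nat.card (ShaTor (EQ A' B') (2 ^ j)) : ℝ) ^ ((1 : ℝ) / j) ≤ 2 ^ (R + 1)) ∧
      ∃ k : ℕ, (GA A B).card + (GD A B).card ≤ k + (C1x A B).card + (C2x A B).card + R + 7 ∧
        ∃ φ : (Fin k → ZMod 2) →+ Sha (WI A' B'), Function.Injective φ := by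
    rintro _ _ rfl rfl
    exact Pool.Agent.TH841.LS.one_curve3 A B 1 hAB hA hB one_ne_zero hR
  obtain ⟨k1, k2, k, hk, φ, hφ⟩ := H A B (by ring) (by ring)
  have h5 := sha_bound hAB hA hB (2 ^ j) (k1 j)
  have hfin := k1 j
  have hfin' := h5.1
  have hne' : Nonempty (ShaTor (WI A B) (2 ^ j)) := ⟨⟨0, smul_zero _⟩⟩
  have hne : Nonempty (ShaTor (EQ A B) (2 ^ j)) := ⟨⟨0, smul_zero _⟩⟩
  have hc2 : (1 : ℝ) ≤ (Nat.card (ShaTor (WI A B) (2 ^ j)) : ℝ) := by
    exact_mod_cast Nat.card_pos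
  have hc1 : (1 : ℝ) ≤ (Nat.card (ShaTor (EQ A B) (2 ^ j)) : ℝ) := by
    exact_mod_cast Nat.card_pos
  have hj0 : (0 : ℝ) < j := by exact_mod_cast hj
  have hj1 : (1 : ℝ) ≤ j := by exact_mod_cast hj
  have hR0 : (0 : ℝ) ≤ R := Nat.cast_nonneg R
  refine ⟨h5.1, ?_, ?_⟩
  · -- the lower bound
    have low : (k : ℝ) ≤ Real.logb 2 (Nat.card (ShaTor (WI A B) (2 ^ j))) := by
      have h6 := le_card hj h5.1 φ hφ
      have h7 : (2 : ℝ) ^ (k : ℝ) ≤ (Nat.card (ShaTor (WI A B) (2 ^ j)) : ℝ) := by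
        rw [Real.rpow_natCast]
        exact_mod_cast h6
      rw [Real.le_logb_iff_rpow_le (by norm_num) (lt_of_lt_of_le (by positivity) h7)]
      exact h7
    have c4 : ((GA A B).card : ℝ) + (GD A B).card ≤
        k + (C1x A B).card + (C2x A B).card + R + 7 := by
      exact_mod_cast hk
    linarith
  · -- the upper bound
    have h6 : (Nat.card (ShaTor (EQ A B) (2 ^ j)) : ℝ) ≤ (2 : ℝ) ^ (((R : ℝ) + 1) * j) := by
      have h7 : (Nat.card (ShaTor (EQ A B) (2 ^ j)) : ℝ) ^ ((1 : ℝ) / j) ≤ 2 ^ (R + 1) := by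
        refine le_trans ?_ (k2 j hj)
        exact le_mul_of_one_le_left (by positivity) (one_le_pow₀ (by norm_num))
      have h8 := Real.rpow_le_rpow (by positivity) h7 hj0.le
      rw [← Real.rpow_mul (by positivity), one_div, inv_mul_cancel₀ hj0.ne', Real.rpow_one] at h8
      refine h8.trans (le_of_eq ?_)
      rw [Real.rpow_mul (by norm_num : (0 : ℝ) ≤ 2)]
      congr 1
      exact_mod_cast (Real.rpow_natCast (2 : ℝ) (R + 1)).symm
    have hub := Pool.Agent.TH841.NO.ub Pool.Agent.TH841.NO.QULf.qul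
      Pool.Agent.TH841.NO.LWAf.lwa Pool.Agent.TH841.NO.LWBf.lwb
      Pool.Agent.TH841.NO.LWBf.lwc Pool.Agent.TH841.NO.PRf.pra Pool.Agent.TH841.NO.PRf.prb
      Pool.Agent.TH841.NO.LIN2f.lin2 hA hB hAB
    have hSQ0 : (SQ (-(A + B)) (A * B)).ncard ≠ 0 ∨ (SQ (-(A + B)) (A * B)).ncard = 0 := by tauto
    have hfo : (2 : ℝ) ^ fo (-(A + B)) (A * B) * 2 ^ ((C1g A B).card + (C2g A B).card) ≤
        2 ^ 10 * 2 ^ (S2 A B).card * 2 ^ (R + 1) := by
      have h9 : ((SQ (-(A + B)) (A * B)).ncard : ℝ) * 2 ^ ((C1g A B).card + (C2g A B).card) ≤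
          2 ^ 10 * 2 ^ (S2 A B).card * SN A B := by
        unfold SN
        exact_mod_cast hub
      have h10 : (2 : ℝ) ^ 10 * 2 ^ (S2 A B).card * SN A B ≤
          2 ^ 10 * 2 ^ (S2 A B).card * 2 ^ (R + 1) :=
        mul_le_mul_of_nonneg_left hR.le (by positivity)
      rcases hSQ0 with h0 | h0
      · have h11 : (2 : ℝ) ^ fo (-(A + B)) (A * B) ≤ ((SQ (-(A + B)) (A * B)).ncard : ℝ) := by
          unfold fo
          exact_mod_cast Nat.pow_log_le_self 2 h0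
        exact (mul_le_mul_of_nonneg_right h11 (by positivity)).trans (h9.trans h10)
      · exfalso
        -- the class of one is an element
        have h13 : (1 : ℤ) ∈ SQ (-(A + B)) (A * B) := by
          refine ⟨squarefree_one, one_dvd _, ?_, fun p _ => ?_⟩
          · exact ⟨1, 1, 0, Or.inl one_ne_zero, by push_cast; ring⟩
          · exact ⟨1, 1, 0, Or.inl one_ne_zero, by push_cast; ring⟩
        rw [Set.ncard_eq_zero (Pool.Agent.Y500.IS.sqf _ _ (mul_ne_zero hA hB))] at h0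
        rw [h0] at h13
        exact h13
    have h10 : (Nat.card (ShaTor (WI A B) (2 ^ j)) : ℝ) ≤
        2 ^ fo (-(A + B)) (A * B) * (Nat.card (ShaTor (EQ A B) (2 ^ j)) : ℝ) := by
      exact_mod_cast h5.2
    have h11 : (fo (-(A + B)) (A * B) : ℝ) + (C1g A B).card + (C2g A B).card ≤
        (S2 A B).card + 10 + (R + 1) := by
      rw [← pow_add, ← pow_add, ← pow_add, pow_le_pow_iff_right₀ (by norm_num)] at hfo
      have : ((fo (-(A + B)) (A * B) + ((C1g A B).card + (C2g A B).card) : ℕ) : ℝ) ≤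
        ((10 + (S2 A B).card + (R + 1) : ℕ) : ℝ) := by exact_mod_cast hfo
      push_cast at this
      linarith
    have h12 : Real.logb 2 (Nat.card (ShaTor (WI A B) (2 ^ j))) ≤
        (fo (-(A + B)) (A * B) : ℝ) + (R + 1) * j := by
      rw [Real.logb_le_iff_le_rpow (by norm_num) (by linarith)]
      rw [Real.rpow_add (by norm_num), Real.rpow_natCast]
      exact h10.trans (mul_le_mul_of_nonneg_left h6 (by positivity))
    linarith

section

variable {n : Fin 3 → ℕ} {m : ℕ}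

open Classical in
/-- few members have a large 2-Selmer group -/
theorem sn_pencil (a : Fin 3 → ℤ) (f : ∀ k : Fin 3, Fin (n k) → ℤ[X]) (c : ℤ) (g : Fin m → ℤ[X])
    (ha : ∀ k, a k ≠ 0) (hc : c ≠ 0) (hf : Irr (allf g f))
    (hU : UP a f 0 - UP a f 1 = UP a f 2)
    (hn : (∀ k, 2 * n k < n 0 + n 1 + n 2) ∨ Bal (DG c g) a f) (L : ℕ) {ε : ℝ} (hε : 0 < ε) :
    ∃ R M0 : ℕ, ∀ (N : ℤ) (M : ℕ), M0 ≤ M → |N| ≤ (M : ℤ) ^ L →
      (((Ioc N (N + (M : ℤ))).filter (fun t => ¬ ((∀ k, (DG c g * UP a f k).eval t ≠ 0) ∧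
        SN ((DG c g * UP a f 0).eval t) ((DG c g * UP a f 1).eval t) < 2 ^ (R + 1)))).card : ℝ) ≤
        ε * M := by
  have hf0 : Irr (fp f) := by
    refine ⟨fun x => hf.irr (Sum.inl x), fun x => hf.deg (Sum.inl x), fun x y hxy => ?_⟩
    exact hf.assoc (Sum.inl x) (Sum.inl y) (fun h => hxy (Sum.inl_injective h))
  have hD : DG c g ≠ 0 := by
    unfold DG
    exact mul_ne_zero (C_ne_zero.2 hc)
      (prod_ne_zero_iff.2 fun i _ => (hf.irr (Sum.inr i)).ne_zero)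
  have hDf : ∀ k i, ¬ f k i ∣ DG c g := by
    intro k i hdvd
    have hirr : Irreducible (f k i) := hf.irr (Sum.inl ⟨k, i⟩)
    have hp : Prime (f k i) := hirr.prime
    unfold DG at hdvd
    rcases hp.dvd_or_dvd hdvd with h1 | h1
    · have h2 := natDegree_le_of_dvd h1 (C_ne_zero.2 hc)
      rw [natDegree_C] at h2
      have h3 : 0 < (f k i).natDegree := hf.deg (Sum.inl ⟨k, i⟩)
      omega
    · obtain ⟨l, _, hl⟩ := (Prime.dvd_finsetProd_iff hp _).1 h1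
      have h2 : Associated (f k i) (g l) :=
        hirr.associated_of_dvd (hf.irr (Sum.inr l)) hl
      exact hf.assoc (Sum.inl ⟨k, i⟩) (Sum.inr l) (by simp) h2
  obtain ⟨Z, hZ1, hZ2, C0, hC0, hC⟩ := Pool.Agent.TH841.LS.rank_in Pool.Agent.TH841.PM.tavz
    Pool.Agent.TH841.TR.tav3x a f ha hf0 hU (DG c g) hD hDf hn L
  obtain ⟨M2, hM2⟩ := hZ1 L (ε / 2) (by positivity)
  obtain ⟨R, hR⟩ : ∃ R : ℕ, 2 * C0 / ε ≤ 2 ^ (R + 1) := by
    obtain ⟨R, hR⟩ := pow_unbounded_of_one_lt (2 * C0 / ε) (one_lt_two : (1 : ℝ) < 2)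
    exact ⟨R, hR.le.trans (pow_le_pow_right₀ (by norm_num) (by omega))⟩
  refine ⟨R, M2 + 1, fun N M hM hN => ?_⟩
  have h2 := hM2 N M (by omega) hN
  have h3 := hC N M (by omega) hN
  set Q : ℤ → ℝ := fun t => SN ((DG c g * UP a f 0).eval t) ((DG c g * UP a f 1).eval t) with hQ
  have h5 : (((Ioc N (N + (M : ℤ))).filter (fun t => t ∉ Z ∧ 2 ^ (R + 1) ≤ Q t)).card : ℝ) ≤
      ε / 2 * M := by
    have h6 : ∀ t ∈ (Ioc N (N + (M : ℤ))).filter (fun t => t ∉ Z ∧ 2 ^ (R + 1) ≤ Q t),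
        (2 : ℝ) ^ (R + 1) ≤ Q t := fun t ht => (mem_filter.1 ht).2.2
    have h7 : ((((Ioc N (N + (M : ℤ))).filter (fun t => t ∉ Z ∧
        2 ^ (R + 1) ≤ Q t)).card : ℝ)) * 2 ^ (R + 1) ≤ C0 * M := by
      rw [← nsmul_eq_mul]
      refine (card_nsmul_le_sum _ _ _ h6).trans (h3 _ fun t ht => ?_)
      obtain ⟨ht1, ht2, _⟩ := mem_filter.1 ht
      exact ⟨ht1, ht2⟩
    have h8 : (0 : ℝ) < 2 ^ (R + 1) := by positivity
    rw [div_le_iff₀ hε] at hR
    have h9 : C0 * M ≤ (ε / 2 * M) * 2 ^ (R + 1) := by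
      have h10 : (0 : ℝ) ≤ M := Nat.cast_nonneg _
      nlinarith
    exact le_of_mul_le_mul_right (h7.trans h9) h8
  have hsub : (Ioc N (N + (M : ℤ))).filter (fun t => ¬ ((∀ k, (DG c g * UP a f k).eval t ≠ 0) ∧
        SN ((DG c g * UP a f 0).eval t) ((DG c g * UP a f 1).eval t) < 2 ^ (R + 1))) ⊆
      (Ioc N (N + (M : ℤ))).filter (fun t => t ∈ Z) ∪
      (Ioc N (N + (M : ℤ))).filter (fun t => t ∉ Z ∧ 2 ^ (R + 1) ≤ Q t) := by
    intro t ht
    rw [mem_filter] at ht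
    rw [mem_union, mem_filter, mem_filter]
    by_cases hZ : t ∈ Z
    · exact Or.inl ⟨ht.1, hZ⟩
    · right
      refine ⟨ht.1, hZ, ?_⟩
      by_contra hcon
      exact ht.2 ⟨hZ2 t hZ, not_le.1 hcon⟩
  have h9 : (((Ioc N (N + (M : ℤ))).filter (fun t => ¬ ((∀ k, (DG c g * UP a f k).eval t ≠ 0) ∧
        SN ((DG c g * UP a f 0).eval t) ((DG c g * UP a f 1).eval t) < 2 ^ (R + 1)))).card : ℝ) ≤
      ((Ioc N (N + (M : ℤ))).filter (fun t => t ∈ Z)).card +
      ((Ioc N (N + (M : ℤ))).filter (fun t => t ∉ Z ∧ 2 ^ (R + 1) ≤ Q t)).card := by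
    exact_mod_cast (card_le_card hsub).trans (card_union_le _ _)
  linarith

end

end Pool.Agent.X217.EK
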