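import Pool.Agent.X217.EK.Crt
import Pool.Agent.Erdos456.Mertens

/-!
# The truncation
-/

set_option autoImplicit false

namespace Pool.Agent.X217.EK

open Finset Filter Topology

section

variable {ι : Type*} [DecidableEq ι] {R : ι → Type*} [∀ i, Fintype (R i)] [∀ i, Nonempty (R i)]
  {T : Type*}

/-- the mean -/
noncomputable def me {A : Type*} [Fintype A] (g : A → ℝ) : ℝ := avr univ g

/-- the variance -/
noncomputable def va {A : Type*} [Fintype A] (g : A → ℝ) : ℝ := avr univ (fun r => (g r - me g) ^ 2)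

lemma abs_me_le {A : Type*} [Fintype A] [Nonempty A] {g : A → ℝ} {C : ℝ} (hg : ∀ r, |g r| ≤ C) :
    |me g| ≤ C := by
  unfold me
  rw [abs_le]
  constructor
  · rw [← avr_const (univ_nonempty (α := A)) (-C)]
    exact avr_mono fun r _ => (abs_le.1 (hg r)).1
  · rw [← avr_const (univ_nonempty (α := A)) C]
    exact avr_mono fun r _ => (abs_le.1 (hg r)).2

lemma va_eq {A : Type*} [Fintype A] [Nonempty A] (g : A → ℝ) :
    va g = avr univ (fun r => g r ^ 2) - me g ^ 2 := by
  unfold va
  have h1 : (fun r => (g r - me g) ^ 2) = fun r => (g r ^ 2 + (-2 * me g) * g r) + me g ^ 2 := by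
    funext r
    ring
  rw [h1, avr_add, avr_add, avr_mul, avr_const univ_nonempty]
  unfold me
  ring

/-- **the limit of the characteristic functions** -/
theorem lim2 {P : ℕ → Finset ι} {ρ : ∀ i, T → R i} {Ω : ℕ → Finset T} {g : ∀ i, R i → ℝ}
    {C v : ℝ} (hg : ∀ i r, |g i r| ≤ C) {s : ℕ → ℝ} (hs : Tendsto s atTop atTop)
    (hV : Tendsto (fun n => (∑ i ∈ P n, va (g i)) / s n) atTop (𝓝 v))
    (hD : ∀ k : ℕ, ∃ δ : ℕ → ℝ, (∀ᶠ n in atTop, Disc (P n) ρ (Ω n) k (δ n)) ∧
      Tendsto (fun n => ((P n).card : ℝ) ^ k * δ n) atTop (𝓝 0)) :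
    Tendsto (fun n => av (Ω n) (fun x => Complex.exp (Complex.I *
      (((∑ i ∈ P n, (g i (ρ i x) - me (g i))) / √(s n) : ℝ) : ℂ)))) atTop
      (𝓝 (Complex.exp (-(v : ℂ) / 2))) := by
  let h : ℕ → ∀ i, R i → ℝ := fun n i r => (g i r - me (g i)) / √(s n)
  have hsq : Tendsto (fun n => √(s n)) atTop atTop := Real.tendsto_sqrt_atTop.comp hs
  have key := lim (P := P) (ρ := ρ) (Ω := Ω) (h := h) (b := fun n => 2 * C / √(s n)) (v := v)
    (fun n i r => by
      simp only [h]
      rw [abs_div, abs_of_nonneg (Real.sqrt_nonneg _)]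
      refine div_le_div_of_nonneg_right ?_ (Real.sqrt_nonneg _)
      have h1 := hg i r
      have h2 := abs_me_le (hg i)
      have h3 := abs_sub (g i r) (me (g i))
      linarith)
    (by
      have := hsq.inv_tendsto_atTop.const_mul (2 * C)
      simpa [div_eq_mul_inv] using this)
    (fun n i => by
      simp only [h]
      have h1 : (fun r => (g i r - me (g i)) / √(s n)) =
          fun r => (√(s n))⁻¹ * (g i r - me (g i)) := by
        funext r
        rw [div_eq_mul_inv, mul_comm]
      rw [h1, avr_mul, avr_sub, avr_const univ_nonempty]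
      unfold me
      ring)
    (by
      have hpos : ∀ᶠ n in atTop, 0 < s n := hs.eventually_gt_atTop 0
      refine (tendsto_congr' ?_).1 hV
      filter_upwards [hpos] with n hn
      rw [sum_div]
      refine sum_congr rfl fun i _ => ?_
      simp only [h]
      unfold va
      have h1 : (fun r => ((g i r - me (g i)) / √(s n)) ^ 2) =
          fun r => (s n)⁻¹ * (g i r - me (g i)) ^ 2 := by
        funext r
        rw [div_pow, Real.sq_sqrt hn.le, div_eq_mul_inv, mul_comm]
      rw [h1, avr_mul, div_eq_mul_inv, mul_comm])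
    hD
  refine (tendsto_congr fun n => ?_).1 key
  congr 1
  funext x
  congr 3
  simp only [h]
  rw [sum_div, sum_coe_sort (P n) (fun i => (g i (ρ i x) - me (g i)) / √(s n))]

end

/-! ### The scale -/

/-- `log log n` -/
noncomputable def ell (n : ℕ) : ℝ := Real.log (Real.log n)

/-- a slowly growing function -/
noncomputable def rr (n : ℕ) : ℝ := (ell n) ^ ((1 : ℝ) / 4)

/-- the truncation point -/
noncomputable def YY (n : ℕ) : ℕ := ⌊Real.exp (Real.log n / rr n)⌋₊

/-- the primes from `11` to the truncation point -/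
noncomputable def PP (n : ℕ) : Finset Pr := (Finset.Icc 11 (YY n)).subtype Nat.Prime

lemma tendsto_ell : Tendsto ell atTop atTop :=
  Real.tendsto_log_atTop.comp (Real.tendsto_log_atTop.comp tendsto_natCast_atTop_atTop)

lemma tendsto_log' : Tendsto (fun n : ℕ => Real.log n) atTop atTop :=
  Real.tendsto_log_atTop.comp tendsto_natCast_atTop_atTop

lemma tendsto_rr : Tendsto rr atTop atTop :=
  (tendsto_rpow_atTop (by norm_num : (0 : ℝ) < 1 / 4)).comp tendsto_ell

/-- `rr n / √(ell n)` tends to `0` -/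
lemma rr_div : Tendsto (fun n => rr n / √(ell n)) atTop (𝓝 0) := by
  have h1 : Tendsto (fun n => (ell n) ^ (-((1 : ℝ) / 4))) atTop (𝓝 0) :=
    (tendsto_rpow_neg_atTop (by norm_num : (0 : ℝ) < 1 / 4)).comp tendsto_ell
  refine (tendsto_congr' ?_).1 h1
  filter_upwards [tendsto_ell.eventually_gt_atTop 0] with n hn
  unfold rr
  rw [Real.sqrt_eq_rpow, ← Real.rpow_sub hn]
  norm_num

/-- `log (rr n) / √(ell n)` tends to `0` -/
lemma logrr_div : Tendsto (fun n => Real.log (rr n) / √(ell n)) atTop (𝓝 0) := by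
  refine squeeze_zero' ?_ ?_ rr_div
  · filter_upwards [tendsto_rr.eventually_ge_atTop 1] with n hn
    exact div_nonneg (Real.log_nonneg hn) (Real.sqrt_nonneg _)
  · filter_upwards [tendsto_rr.eventually_ge_atTop 1] with n hn
    refine div_le_div_of_nonneg_right ?_ (Real.sqrt_nonneg _)
    have := Real.log_le_sub_one_of_pos (by linarith : 0 < rr n)
    linarith

lemma log_div_rr : Tendsto (fun n : ℕ => Real.log n / rr n) atTop atTop := by
  have h1 : ∀ᶠ n : ℕ in atTop, √(Real.log n) ≤ Real.log n / rr n := by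
    filter_upwards [tendsto_rr.eventually_ge_atTop 1, tendsto_ell.eventually_ge_atTop 1,
      tendsto_log'.eventually_gt_atTop 1] with n h1 h2 h3
    have h4 : rr n ≤ √(Real.log n) := by
      have h5 : rr n ≤ ell n := by
        unfold rr
        exact (Real.rpow_le_rpow_of_exponent_le h2 (by norm_num)).trans (le_of_eq (Real.rpow_one _))
      have h6 : ell n ≤ √(Real.log n) := by
        unfold ell
        have h7 : Real.log (Real.log n) = 2 * Real.log (√(Real.log n)) := by
          rw [Real.log_sqrt (by linarith)]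
          ring
        rw [h7]
        have h8 : 0 < √(Real.log n) := Real.sqrt_pos.2 (by linarith)
        have h9 := Real.log_le_sub_one_of_pos (show 0 < √(Real.log n) / 2 by positivity)
        rw [Real.log_div h8.ne' (by norm_num)] at h9
        have h10 := Real.log_two_lt_d9
        nlinarith [Real.log_two_lt_d9, h8]
      exact h5.trans h6
    rw [le_div_iff₀ (by linarith)]
    calc √(Real.log n) * rr n ≤ √(Real.log n) * √(Real.log n) :=
          mul_le_mul_of_nonneg_left h4 (Real.sqrt_nonneg _)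
      _ = Real.log n := Real.mul_self_sqrt (by linarith)
  exact tendsto_atTop_mono' _ h1 (Real.tendsto_sqrt_atTop.comp tendsto_log')

lemma tendsto_YY : Tendsto YY atTop atTop :=
  tendsto_nat_floor_atTop.comp (Real.tendsto_exp_atTop.comp log_div_rr)

lemma YY_pow (m : ℕ) : Tendsto (fun n : ℕ => (YY n : ℝ) ^ m / n) atTop (𝓝 0) := by
  have h1 : Tendsto (fun n : ℕ => Real.exp (-(Real.log n / 2))) atTop (𝓝 0) :=
    Real.tendsto_exp_neg_atTop_nhds_zero.comp (tendsto_log'.atTop_div_const (by norm_num))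
  refine squeeze_zero' (Eventually.of_forall fun n => by positivity) ?_ h1
  filter_upwards [tendsto_rr.eventually_ge_atTop (2 * m + 1), eventually_gt_atTop 1] with n h2 h3
  have hn0 : (0 : ℝ) < n := by exact_mod_cast (by omega : 0 < n)
  have hlog : 0 < Real.log n := Real.log_pos (by exact_mod_cast h3)
  have hm0 : (0 : ℝ) ≤ m := Nat.cast_nonneg m
  have hr : 0 < rr n := by linarith
  have h4 : (YY n : ℝ) ≤ Real.exp (Real.log n / rr n) := Nat.floor_le (Real.exp_pos _).le
  have h5 : (YY n : ℝ) ^ m ≤ Real.exp (m * (Real.log n / rr n)) := by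
    rw [Real.exp_nat_mul]
    exact pow_le_pow_left₀ (Nat.cast_nonneg _) h4 m
  have h6 : (m : ℝ) * (Real.log n / rr n) ≤ Real.log n / 2 := by
    rw [mul_div_assoc', div_le_div_iff₀ hr (by norm_num)]
    nlinarith
  rw [div_le_iff₀ hn0]
  have h7 : (n : ℝ) = Real.exp (Real.log n) := (Real.exp_log hn0).symm
  calc (YY n : ℝ) ^ m ≤ Real.exp (m * (Real.log n / rr n)) := h5
    _ ≤ Real.exp (Real.log n / 2) := Real.exp_le_exp.2 h6
    _ = Real.exp (-(Real.log n / 2)) * Real.exp (Real.log n) := by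
        rw [← Real.exp_add]
        ring_nf
    _ = Real.exp (-(Real.log n / 2)) * n := by rw [← h7]

lemma card_PP (n : ℕ) : ((PP n).card : ℝ) ≤ YY n := by
  unfold PP
  rw [card_subtype]
  have h1 := card_filter_le (Finset.Icc 11 (YY n)) Nat.Prime
  rw [Nat.card_Icc] at h1
  exact_mod_cast (by omega : ((Finset.Icc 11 (YY n)).filter Nat.Prime).card ≤ YY n)

lemma mem_PP {n : ℕ} {p : Pr} : p ∈ PP n ↔ 11 ≤ p.1 ∧ p.1 ≤ YY n := by
  unfold PP
  rw [mem_subtype, mem_Icc]

/-- `log (YY n)` -/
lemma log_YY : ∀ᶠ n : ℕ in atTop, |Real.log (YY n) - Real.log n / rr n| ≤ 1 := by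
  filter_upwards [log_div_rr.eventually_ge_atTop 2] with n hn
  set x := Real.log n / rr n with hx
  have h1 : (YY n : ℝ) ≤ Real.exp x := Nat.floor_le (Real.exp_pos _).le
  have h2 : Real.exp x < YY n + 1 := Nat.lt_floor_add_one _
  have h3 : Real.exp 1 * Real.exp (x - 1) = Real.exp x := by
    rw [← Real.exp_add]
    ring_nf
  have h4 : Real.exp (x - 1) + 1 ≤ Real.exp x := by
    have h5 : (2 : ℝ) ≤ Real.exp 1 := by
      have := Real.add_one_le_exp (1 : ℝ)
      linarith
    have h6 : (1 : ℝ) ≤ Real.exp (x - 1) := Real.one_le_exp (by linarith)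
    nlinarith
  have h5 : Real.exp (x - 1) ≤ YY n := by linarith
  have h6 : (0 : ℝ) < YY n := lt_of_lt_of_le (Real.exp_pos _) h5
  rw [abs_le]
  constructor
  · have := Real.log_le_log (Real.exp_pos _) h5
    rw [Real.log_exp] at this
    linarith
  · have := Real.log_le_log h6 h1
    rw [Real.log_exp] at this
    linarith

/-- the sum of `1 / p` -/
lemma sum_inv_PP : Tendsto (fun n => (∑ p ∈ PP n, (1 : ℝ) / p.1 - ell n) / √(ell n)) atTop
    (𝓝 0) := by
  obtain ⟨C, hC⟩ := Pool.Agent.Erdos456.Mert.mertens_inv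
  have hC0 : 0 ≤ C := (abs_nonneg _).trans (hC 3 le_rfl)
  have hinv : Tendsto (fun n => (√(ell n))⁻¹) atTop (𝓝 0) :=
    (Real.tendsto_sqrt_atTop.comp tendsto_ell).inv_tendsto_atTop
  have hB : Tendsto (fun n => (C + 12) * (√(ell n))⁻¹ + Real.log (rr n) / √(ell n)) atTop
      (𝓝 0) := by
    have := (hinv.const_mul (C + 12)).add logrr_div
    simpa using this
  rw [tendsto_zero_iff_abs_tendsto_zero]
  refine squeeze_zero' (Eventually.of_forall fun n => abs_nonneg _) ?_ hB
  filter_upwards [log_YY, log_div_rr.eventually_ge_atTop 4, tendsto_YY.eventually_ge_atTop 11,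
    tendsto_rr.eventually_ge_atTop 1, tendsto_ell.eventually_gt_atTop 0,
    tendsto_log'.eventually_gt_atTop 1] with n h1 h2 h3 h4 h5 h6
  have h7 := hC (YY n) (by omega)
  have hpos : 0 < Real.log n / rr n := by linarith
  -- the sum over all primes
  have e1 : ∑ p ∈ (Finset.Icc 1 (YY n)).filter Nat.Prime, (1 : ℝ) / p =
      ∑ p ∈ (Finset.Icc 1 10).filter Nat.Prime, (1 : ℝ) / p + ∑ p ∈ PP n, (1 : ℝ) / p.1 := by
    have e2 : ∑ p ∈ PP n, (1 : ℝ) / p.1 =
        ∑ p ∈ (Finset.Icc 11 (YY n)).filter Nat.Prime, (1 : ℝ) / p := by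
      unfold PP
      exact sum_subtype_eq_sum_filter (fun p : ℕ => (1 : ℝ) / p)
    rw [e2, ← sum_union]
    · refine sum_congr ?_ fun _ _ => rfl
      ext p
      simp only [mem_filter, mem_union, mem_Icc]
      constructor
      · rintro ⟨⟨a, b⟩, c⟩
        by_cases hp : p ≤ 10
        · exact Or.inl ⟨⟨a, hp⟩, c⟩
        · exact Or.inr ⟨⟨by omega, b⟩, c⟩
      · rintro (⟨⟨a, b⟩, c⟩ | ⟨⟨a, b⟩, c⟩)
        · exact ⟨⟨a, by omega⟩, c⟩
        · exact ⟨⟨by omega, b⟩, c⟩
    · rw [disjoint_left]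
      intro p hp hp'
      simp only [mem_filter, mem_Icc] at hp hp'
      omega
  have e3 : 0 ≤ ∑ p ∈ (Finset.Icc 1 10).filter Nat.Prime, (1 : ℝ) / p :=
    sum_nonneg fun _ _ => by positivity
  have e4 : ∑ p ∈ (Finset.Icc 1 10).filter Nat.Prime, (1 : ℝ) / p ≤ 10 := by
    have q1 : ∑ p ∈ (Finset.Icc 1 10).filter Nat.Prime, (1 : ℝ) / p ≤
        ∑ p ∈ (Finset.Icc 1 10).filter Nat.Prime, (1 : ℝ) := by
      refine sum_le_sum fun p hp => ?_
      have : 1 ≤ p := (mem_Icc.1 (mem_filter.1 hp).1).1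
      rw [div_le_one (by exact_mod_cast this)]
      exact_mod_cast this
    refine q1.trans ?_
    rw [sum_const, nsmul_eq_mul, mul_one]
    have := card_filter_le (Finset.Icc 1 10) Nat.Prime
    rw [Nat.card_Icc] at this
    exact_mod_cast this
  -- `log log (YY n)`
  have e5 : |Real.log (Real.log (YY n)) - (ell n - Real.log (rr n))| ≤ 1 := by
    have f1 : ell n - Real.log (rr n) = Real.log (Real.log n / rr n) := by
      unfold ell
      rw [Real.log_div (by linarith) (by linarith)]
    rw [f1]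
    set x := Real.log n / rr n with hx
    obtain ⟨l1, u1⟩ := abs_le.1 h1
    have hy : 0 < Real.log (YY n) := by linarith
    rw [← Real.log_div hy.ne' hpos.ne']
    have hr1 : Real.log (YY n) / x ≤ 2 := by
      rw [div_le_iff₀ hpos]
      linarith
    have hr2 : 1 / 2 ≤ Real.log (YY n) / x := by
      rw [le_div_iff₀ hpos]
      linarith
    have hr0 : 0 < Real.log (YY n) / x := by positivity
    rw [abs_le]
    constructor
    · have := Real.log_le_log (by norm_num) hr2
      rw [one_div, Real.log_inv] at this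
      have := Real.log_two_lt_d9
      linarith
    · have := Real.log_le_log hr0 hr1
      have := Real.log_two_lt_d9
      linarith
  have hlr : 0 ≤ Real.log (rr n) := Real.log_nonneg h4
  have e6 : |∑ p ∈ PP n, (1 : ℝ) / p.1 - ell n| ≤ C + 12 + Real.log (rr n) := by
    rw [e1] at h7
    obtain ⟨a1, a2⟩ := abs_le.1 h7
    obtain ⟨b1, b2⟩ := abs_le.1 e5
    rw [abs_le]
    constructor <;> linarith
  rw [Function.comp_apply, abs_div, abs_of_nonneg (Real.sqrt_nonneg _), ← div_eq_mul_inv, ← add_div]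
  exact div_le_div_of_nonneg_right e6 (Real.sqrt_nonneg _)

end Pool.Agent.X217.EK
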