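import Pool.Agent.X217.EK.Loc
import Pool.Agent.TH841.NO.Tkl
import Pool.Agent.TH841.NO.Cntu
import Pool.Agent.TH841.LS.Tkx

/-!
# Sums of symbols over the prime factors of the values of polynomials
-/

set_option autoImplicit false
set_option linter.unusedSectionVars false

namespace Pool.Agent.X217.EK

open Finset Filter Topology Polynomial

open Pool.Agent.W262.RK (Jr PS)

open Pool.Agent.TH841.LS.TKXf (hh' rc MU Jr_abs Jr_mod hh_abs rc_abs)

open Pool.Agent.TH841.PM.BADf (Rt card_Rt SS mem_PS)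

open Pool.Agent.H474R2.PG (rho)

/-- symbols and congruences -/
lemma hh_mod (f w : ℤ[X]) {p : ℕ} {s t : ℤ} (h : s ≡ t [ZMOD p]) : hh' f w p s = hh' f w p t := by
  unfold hh'
  have h1 : (p : ℤ) ∣ f.eval t - f.eval s := (Int.modEq_iff_dvd.1 h).trans (sub_dvd_eval_sub t s f)
  have h2 : (p : ℤ) ∣ f.eval s ↔ (p : ℤ) ∣ f.eval t := (dvd_iff_dvd_of_dvd_sub h1).symm
  rw [Jr_mod w h]
  by_cases h3 : (p : ℤ) ∣ f.eval t
  · rw [if_pos h3, if_pos (h2.2 h3)]
  · rw [if_neg h3, if_neg (fun h4 => h3 (h2.1 h4))]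

/-- the product of two symbols at the same factor -/
lemma hh_mul (f w w' : ℤ[X]) (p : ℕ) (t : ℤ) : hh' f w p t * hh' f w' p t = hh' f (w * w') p t := by
  unfold hh'
  split_ifs
  · unfold Jr
    rw [eval_mul, jacobiSym.mul_left]
    push_cast
    rfl
  · simp

/-- sums over the classes -/
lemma sum_zmod {p : ℕ} [NeZero p] (G : ℕ → ℝ) : ∑ r : ZMod p, G r.val = ∑ x ∈ range p, G x := by
  refine sum_nbij' (fun r => r.val) (fun x => (x : ZMod p)) ?_ ?_ ?_ ?_ ?_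
  · intro r _
    exact mem_range.2 (ZMod.val_lt r)
  · intro x _
    exact mem_univ _
  · intro r _
    exact ZMod.natCast_zmod_val r
  · intro x hx
    exact ZMod.val_cast_of_lt (mem_range.1 hx)
  · intro r _
    rfl

lemma sum_hh (f w : ℤ[X]) (p : ℕ) : ∑ x ∈ range p, hh' f w p (x : ℤ) = rc f w p := by
  unfold hh' rc Rt
  rw [sum_filter]

variable {I : Type} [Fintype I]

/-- the sum of symbols -/
noncomputable def FF (e : I → ℝ) (f w : I → ℤ[X]) (p : ℕ) (t : ℤ) : ℝ :=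
  ∑ a, e a * hh' (f a) (w a) p t

/-- the function on the classes -/
noncomputable def gs (e : I → ℝ) (f w : I → ℤ[X]) (p : Pr) (r : ZMod p.1) : ℝ :=
  FF e f w p.1 (r.val : ℤ)

lemma gs_red (e : I → ℝ) (f w : I → ℤ[X]) (p : Pr) (t : ℤ) :
    gs e f w p (red1 p t) = FF e f w p.1 t := by
  unfold gs FF red1
  have : NeZero p.1 := ⟨p.2.ne_zero⟩
  refine sum_congr rfl fun a _ => ?_
  congr 1
  apply hh_mod
  rw [← ZMod.intCast_eq_intCast_iff]
  rw [Int.cast_natCast, ZMod.natCast_zmod_val]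

lemma abs_FF (e : I → ℝ) (f w : I → ℤ[X]) (p : ℕ) (t : ℤ) : |FF e f w p t| ≤ ∑ a, |e a| := by
  unfold FF
  refine (abs_sum_le_sum_abs _ _).trans (sum_le_sum fun a _ => ?_)
  rw [abs_mul]
  exact mul_le_of_le_one_right (abs_nonneg _) (hh_abs _ _ _ _)

lemma abs_gs (e : I → ℝ) (f w : I → ℤ[X]) (p : Pr) (r : ZMod p.1) :
    |gs e f w p r| ≤ ∑ a, |e a| := abs_FF _ _ _ _ _

lemma card_zmod (p : Pr) : ((univ : Finset (ZMod p.1)).card : ℝ) = p.1 := by
  have : NeZero p.1 := ⟨p.2.ne_zero⟩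
  rw [card_univ, ZMod.card]

/-- the mean -/
lemma me_gs (e : I → ℝ) (f w : I → ℤ[X]) (p : Pr) :
    me (gs e f w p) = (∑ a, e a * rc (f a) (w a) p.1) / p.1 := by
  have : NeZero p.1 := ⟨p.2.ne_zero⟩
  unfold me avr
  rw [card_zmod]
  congr 1
  unfold gs
  rw [sum_zmod (fun x : ℕ => FF e f w p.1 (x : ℤ))]
  unfold FF
  rw [sum_comm]
  refine sum_congr rfl fun a _ => ?_
  rw [← mul_sum, sum_hh]

open Classical in
/-- the second moment -/
lemma sq_gs (e : I → ℝ) (f w : I → ℤ[X]) (p : Pr)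
    (hp : ∀ a b, f a ≠ f b → ∀ t : ℤ, ¬ ((p.1 : ℤ) ∣ (f a).eval t ∧ (p.1 : ℤ) ∣ (f b).eval t)) :
    avr univ (fun r => gs e f w p r ^ 2) =
      (∑ a, ∑ b, if f a = f b then e a * e b * rc (f a) (w a * w b) p.1 else 0) / p.1 := by
  have : NeZero p.1 := ⟨p.2.ne_zero⟩
  unfold avr
  rw [card_zmod]
  congr 1
  unfold gs
  rw [sum_zmod (fun x : ℕ => FF e f w p.1 (x : ℤ) ^ 2)]
  have h1 : ∀ x ∈ range p.1, FF e f w p.1 (x : ℤ) ^ 2 = ∑ a, ∑ b,
      if f a = f b then e a * e b * hh' (f a) (w a * w b) p.1 (x : ℤ) else 0 := by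
    intro x _
    unfold FF
    rw [sq, sum_mul_sum]
    refine sum_congr rfl fun a _ => sum_congr rfl fun b _ => ?_
    split_ifs with h
    · rw [← h, ← hh_mul]
      ring
    · have h2 := hp a b h (x : ℤ)
      unfold hh'
      by_cases h3 : (p.1 : ℤ) ∣ (f a).eval (x : ℤ)
      · have h4 : ¬ (p.1 : ℤ) ∣ (f b).eval (x : ℤ) := fun h4 => h2 ⟨h3, h4⟩
        rw [if_neg h4, mul_zero, mul_zero]
      · rw [if_neg h3, mul_zero, zero_mul]
  rw [sum_congr rfl h1, sum_comm]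
  refine sum_congr rfl fun a _ => ?_
  rw [sum_comm]
  refine sum_congr rfl fun b _ => ?_
  split_ifs with h
  · rw [← mul_sum, sum_hh]
  · simp

/-! ### The sums over the primes -/

/-- the primes above `z` -/
noncomputable def PPz (z n : ℕ) : Finset Pr := (PP n).filter (fun p => z < p.1)

lemma mem_PPz {z n : ℕ} {p : Pr} : p ∈ PPz z n ↔ (11 ≤ p.1 ∧ p.1 ≤ YY n) ∧ z < p.1 := by
  unfold PPz
  rw [mem_filter, mem_PP]

lemma sum_PPz {z n : ℕ} (hz : 11 ≤ z) (G : ℕ → ℝ) :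
    ∑ p ∈ PPz z n, G p.1 = ∑ p ∈ PS z (YY n), G p := by
  have e1 : PPz z n = (Ioc z (YY n)).subtype Nat.Prime := by
    ext p
    rw [mem_PPz, mem_subtype, mem_Ioc]
    constructor
    · rintro ⟨⟨a, b⟩, c⟩
      exact ⟨c, b⟩
    · rintro ⟨a, b⟩
      exact ⟨⟨by omega, b⟩, a⟩
  rw [e1]
  unfold PS
  exact sum_subtype_eq_sum_filter G

/-- the pair `(f, w)` has the density `s` -/
def Den (f w : ℤ[X]) (s : ℝ) : Prop := ∃ z0 : ℕ, ∀ z, z0 ≤ z → ∃ C : ℝ, ∀ y, z < y →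
  |MU f w z y - s * Real.log (Real.log y)| ≤ C

lemma mert' {f : ℤ[X]} (hf : Irreducible f) (hd : 0 < f.natDegree) : ∃ z0 : ℕ, ∀ z, z0 ≤ z →
    ∃ C : ℝ, ∀ y, z < y → |SS f z y - Real.log (Real.log y)| ≤ C := by
  refine ⟨3, fun z hz => ?_⟩
  obtain ⟨C, -, hC⟩ := Pool.Agent.TH841.NO.TKLf.mert hf hd hz
  exact ⟨C, hC⟩

/-- the symbol of a non-square has the mean zero -/
theorem den_zero {f w : ℤ[X]} (hf : Irreducible f) (hd : 0 < f.natDegree)
    (hns : ¬ Pool.Agent.TH841.LS.SqMod f w) : Den f w 0 := by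
  have hns' : ∀ q : ℚ[X], ¬ f.map (Int.castRingHom ℚ) ∣ (q ^ 2 - w.map (Int.castRingHom ℚ)) :=
    fun q hq => hns ⟨q, hq⟩
  have hndvd : ¬ (f.map (Int.castRingHom ℚ)) ∣ w.map (Int.castRingHom ℚ) := by
    intro h
    apply hns' 0
    rw [zero_pow two_ne_zero, zero_sub]
    exact (dvd_neg).2 h
  have hNS : Pool.Agent.TH841.PT.NSqg f w 1 := by
    intro q hq
    apply hns' q
    simpa using hq
  have h1l := Pool.Agent.TH841.TR.H1Lf.h1l_of (Pool.Agent.TH841.PT.M2CGf.m2g_of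
    (Pool.Agent.TH841.PT.M2BGf.m2mg_of (Pool.Agent.TH841.PT.M2AGf.m2ag_of
      Pool.Agent.TH841.PT.LADf.lad)))
  obtain ⟨z1, hz1⟩ := h1l f hf hd w hndvd hNS
  obtain ⟨g, hg, hgd, z2, hz2⟩ := Pool.Agent.TH626.TKL.ext f w hf hd hns'
  obtain ⟨z3, hz3⟩ := mert' hf hd
  obtain ⟨z4, hz4⟩ := mert' hg hgd
  refine ⟨z1 + z2 + z3 + z4, fun z hz => ?_⟩
  obtain ⟨C1, hC1⟩ := hz1 z (by omega)
  obtain ⟨C3, hC3⟩ := hz3 z (by omega)
  obtain ⟨C4, hC4⟩ := hz4 z (by omega)
  refine ⟨|C1| + |C3| + |C4|, fun y hy => ?_⟩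
  have a1 : MU f w z y ≤ C1 := hC1 y hy
  have a3 := abs_le.1 (hC3 y hy)
  have a4 := abs_le.1 (hC4 y hy)
  have a5 := Pool.Agent.TH626.TKL.MU_ge f g w z y (fun p hp hzp => hz2 p hp (by omega))
  have b1 := le_abs_self C1
  have b3 := le_abs_self C3
  have b4 := le_abs_self C4
  have b1' := abs_nonneg C1
  have b3' := abs_nonneg C3
  have b4' := abs_nonneg C4
  rw [zero_mul, sub_zero, abs_le]
  constructor <;> linarith [a3.1, a3.2, a4.1, a4.2]

/-- the symbol of a square has the mean one -/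
theorem den_one {f w : ℤ[X]} (hf : Irreducible f) (hd : 0 < f.natDegree)
    (hs : Pool.Agent.TH841.LS.SqMod f w) (hnd : ∃ z0 : ℕ, ∀ p : ℕ, p.Prime → z0 ≤ p → ∀ t : ℤ,
      (p : ℤ) ∣ f.eval t → ¬ (p : ℤ) ∣ w.eval t) : Den f w 1 := by
  obtain ⟨z1, hz1⟩ := hnd
  obtain ⟨z3, hz3⟩ := mert' hf hd
  obtain ⟨D, q, g, hD, hq⟩ := Pool.Agent.TH841.NO.CNTUf.sqmod_int hs
  refine ⟨z1 + z3 + D.natAbs, fun z hz => ?_⟩
  obtain ⟨C3, hC3⟩ := hz3 z (by omega)
  refine ⟨C3, fun y hy => ?_⟩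
  have h1 : MU f w z y = SS f z y := by
    unfold MU SS
    refine sum_congr rfl fun p hp => ?_
    have hp' := mem_PS.1 hp
    have hpp : p.Prime := hp'.2
    have hzp : z < p := hp'.1.1
    congr 1
    unfold rc
    rw [← card_Rt, card_eq_sum_ones]
    push_cast
    refine sum_congr rfl fun a ha => ?_
    unfold Rt at ha
    have hfa := (mem_filter.1 ha).2
    have hpD : ¬ (p : ℤ) ∣ D := by
      intro h
      have := Nat.le_of_dvd (Int.natAbs_pos.2 hD) (Int.natCast_dvd.1 h)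
      omega
    unfold Jr
    rw [Pool.Agent.TH841.NO.CNTUf.jac_one hq hpp hpD hfa (hz1 p hpp (by omega) _ hfa)]
    norm_num
  rw [h1, one_mul]
  exact hC3 y hy

/-- `log log (YY n)` -/
lemma loglog_YY : ∀ᶠ n : ℕ in atTop,
    |Real.log (Real.log (YY n)) - (ell n - Real.log (rr n))| ≤ 1 := by
  filter_upwards [log_YY, log_div_rr.eventually_ge_atTop 4, tendsto_YY.eventually_ge_atTop 11,
    tendsto_rr.eventually_ge_atTop 1, tendsto_ell.eventually_gt_atTop 0,
    tendsto_log'.eventually_gt_atTop 1] with n h1 h2 h3 h4 h5 h6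
  have hpos : 0 < Real.log n / rr n := by linarith
  have f1 : ell n - Real.log (rr n) = Real.log (Real.log n / rr n) := by
    unfold ell
    rw [Real.log_div (by linarith) (by linarith)]
  rw [f1]
  set x := Real.log n / rr n with hx
  obtain ⟨l1, u1⟩ := abs_le.1 h1
  have hy : 0 < Real.log (YY n) := by linarith
  rw [← Real.log_div hy.ne' hpos.ne']
  have hr1 : Real.log (YY n) / x ≤ 2 := by
    rw [div_le_iff₀ hpos]
    linarith
  have hr2 : 1 / 2 ≤ Real.log (YY n) / x := by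
    rw [le_div_iff₀ hpos]
    linarith
  have hr0 : 0 < Real.log (YY n) / x := by positivity
  rw [abs_le]
  constructor
  · have := Real.log_le_log (by norm_num) hr2
    rw [one_div, Real.log_inv] at this
    have := Real.log_two_lt_d9
    linarith
  · have := Real.log_le_log hr0 hr1
    have := Real.log_two_lt_d9
    linarith

lemma sqrt_inv' : Tendsto (fun n => (√(ell n))⁻¹) atTop (𝓝 0) :=
  (Real.tendsto_sqrt_atTop.comp tendsto_ell).inv_tendsto_atTop

/-- the sum over the primes up to the truncation point -/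
lemma tend_MU {f w : ℤ[X]} {s : ℝ} (h : Den f w s) : ∃ z0 : ℕ, ∀ z, z0 ≤ z →
    Tendsto (fun n => (MU f w z (YY n) - s * ell n) / √(ell n)) atTop (𝓝 0) := by
  obtain ⟨z0, hz0⟩ := h
  refine ⟨z0, fun z hz => ?_⟩
  obtain ⟨C, hC⟩ := hz0 z hz
  have hB : Tendsto (fun n => (|C| + |s|) * (√(ell n))⁻¹ + |s| * (Real.log (rr n) / √(ell n))) atTop
      (𝓝 0) := by
    have := (sqrt_inv'.const_mul (|C| + |s|)).add (logrr_div.const_mul |s|)
    simpa using this
  rw [tendsto_zero_iff_abs_tendsto_zero]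
  refine squeeze_zero' (Eventually.of_forall fun n => abs_nonneg _) ?_ hB
  filter_upwards [loglog_YY, tendsto_YY.eventually_gt_atTop z, tendsto_rr.eventually_ge_atTop 1]
    with n h1 h2 h3
  have h4 := hC (YY n) h2
  have hlr : 0 ≤ Real.log (rr n) := Real.log_nonneg h3
  rw [Function.comp_apply, abs_div, abs_of_nonneg (Real.sqrt_nonneg _)]
  have h5 : |MU f w z (YY n) - s * ell n| ≤ |C| + |s| + |s| * Real.log (rr n) := by
    have e1 : MU f w z (YY n) - s * ell n = (MU f w z (YY n) - s * Real.log (Real.log (YY n))) +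
        s * ((Real.log (Real.log (YY n)) - (ell n - Real.log (rr n))) - Real.log (rr n)) := by ring
    rw [e1]
    refine (abs_add_le _ _).trans ?_
    rw [abs_mul]
    have h6 : |(Real.log (Real.log (YY n)) - (ell n - Real.log (rr n))) - Real.log (rr n)| ≤
        1 + Real.log (rr n) := by
      refine (abs_sub _ _).trans ?_
      rw [abs_of_nonneg hlr]
      linarith
    have h7 := mul_le_mul_of_nonneg_left h6 (abs_nonneg s)
    have h8 := le_abs_self C
    linarith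
  rw [← div_eq_mul_inv, mul_div_assoc', ← add_div]
  exact div_le_div_of_nonneg_right h5 (Real.sqrt_nonneg _)

lemma tend_MU' {f w : ℤ[X]} {s : ℝ} (h : Den f w s) : ∃ z0 : ℕ, ∀ z, z0 ≤ z →
    Tendsto (fun n => MU f w z (YY n) / ell n) atTop (𝓝 s) := by
  obtain ⟨z0, hz0⟩ := tend_MU h
  refine ⟨z0, fun z hz => ?_⟩
  have h1 := ((hz0 z hz).mul sqrt_inv').add_const s
  rw [zero_mul, zero_add] at h1
  refine (tendsto_congr' ?_).1 h1
  filter_upwards [tendsto_ell.eventually_gt_atTop 0] with n hn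
  have h2 : √(ell n) * √(ell n) = ell n := Real.mul_self_sqrt hn.le
  rw [← div_eq_mul_inv, div_div, h2, sub_div, mul_div_assoc, div_self hn.ne']
  ring

end Pool.Agent.X217.EK
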