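import Pool.Agent.X217.EK.Sym
import Pool.Agent.X217.EK.PLim

/-!
# The characteristic functions of the sums of symbols
-/

set_option autoImplicit false
set_option linter.unusedSectionVars false

namespace Pool.Agent.X217.EK

open Finset Filter Topology Polynomial

open Pool.Agent.W262.RK (Jr PS)

open Pool.Agent.TH841.LS.TKXf (hh' rc MU Jr_abs Jr_mod hh_abs rc_abs)

open Pool.Agent.TH841.PM.BADf (Rt card_Rt SS mem_PS)

open Pool.Agent.H474R2.PG (rho)

variable {I : Type} [Fintype I]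

/-- pairwise no common roots -/
def Cop (f : I → ℤ[X]) (z0 : ℕ) : Prop := ∀ p : ℕ, p.Prime → z0 < p → ∀ a b, f a ≠ f b →
  ∀ t : ℤ, ¬ ((p : ℤ) ∣ (f a).eval t ∧ (p : ℤ) ∣ (f b).eval t)

/-- the mean constant -/
noncomputable def kap (e s : I → ℝ) : ℝ := ∑ a, e a * s a

open Classical in
/-- the variance constant -/
noncomputable def Vr (e : I → ℝ) (f : I → ℤ[X]) (S : I → I → ℝ) : ℝ :=
  ∑ a, ∑ b, if f a = f b then e a * e b * S a b else 0

lemma all_z {α : Type} [Fintype α] {P : α → ℕ → Prop} (h : ∀ a, ∃ z0 : ℕ, ∀ z, z0 ≤ z → P a z) :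
    ∃ z0 : ℕ, ∀ z, z0 ≤ z → ∀ a, P a z := by
  choose g hg using h
  refine ⟨∑ a, g a, fun z hz a => hg a z (le_trans ?_ hz)⟩
  exact single_le_sum (f := g) (fun _ _ => Nat.zero_le _) (mem_univ a)

/-- the sum of the means -/
lemma sum_me_gs (e : I → ℝ) (f w : I → ℤ[X]) {z : ℕ} (hz : 11 ≤ z) (n : ℕ) :
    ∑ p ∈ PPz z n, me (gs e f w p) = ∑ a, e a * MU (f a) (w a) z (YY n) := by
  have h1 : ∑ p ∈ PPz z n, me (gs e f w p) =
      ∑ p ∈ PPz z n, (fun p : ℕ => (∑ a, e a * rc (f a) (w a) p) / (p : ℝ)) p.1 :=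
    sum_congr rfl fun p _ => me_gs e f w p
  refine h1.trans ((sum_PPz hz (fun p : ℕ => (∑ a, e a * rc (f a) (w a) p) / (p : ℝ))).trans ?_)
  unfold MU
  simp only [sum_div, mul_sum]
  rw [sum_comm]
  refine sum_congr rfl fun a _ => sum_congr rfl fun p _ => ?_
  rw [mul_div_assoc]

lemma means (e : I → ℝ) (f w : I → ℤ[X]) (s : I → ℝ) (hs : ∀ a, Den (f a) (w a) (s a)) :
    ∃ z0 : ℕ, ∀ z, z0 ≤ z → Tendsto (fun n => (∑ p ∈ PPz z n, me (gs e f w p) -
      kap e s * ell n) / √(ell n)) atTop (𝓝 0) := by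
  obtain ⟨z0, hz0⟩ := all_z (fun a => tend_MU (hs a))
  refine ⟨z0 + 11, fun z hz => ?_⟩
  have h1 : Tendsto (fun n => ∑ a, e a * ((MU (f a) (w a) z (YY n) - s a * ell n) / √(ell n)))
      atTop (𝓝 (∑ a : I, e a * 0)) :=
    tendsto_finsetSum _ fun a _ => (hz0 z (by omega) a).const_mul (e a)
  simp only [mul_zero, sum_const_zero] at h1
  refine (tendsto_congr fun n => ?_).1 h1
  rw [sum_me_gs e f w (by omega)]
  unfold kap
  rw [sum_mul, ← sum_sub_distrib, sum_div]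
  refine sum_congr rfl fun a _ => ?_
  ring

/-- the sum of the second moments -/
lemma sum_sq_gs (e : I → ℝ) (f w : I → ℤ[X]) {z : ℕ} (hz : 11 ≤ z) (hc : Cop f z) (n : ℕ) :
    ∑ p ∈ PPz z n, avr univ (fun r => gs e f w p r ^ 2) =
      Vr e f (fun a b => MU (f a) (w a * w b) z (YY n)) := by
  classical
  have h1 : ∑ p ∈ PPz z n, avr univ (fun r => gs e f w p r ^ 2) =
      ∑ p ∈ PPz z n, (fun p : ℕ => (∑ a, ∑ b, if f a = f b then
        e a * e b * rc (f a) (w a * w b) p else 0) / (p : ℝ)) p.1 := by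
    refine sum_congr rfl fun p hp => ?_
    rw [sq_gs e f w p (hc p.1 p.2 (mem_PPz.1 hp).2)]
  refine h1.trans ((sum_PPz hz (fun p : ℕ => (∑ a, ∑ b, if f a = f b then
        e a * e b * rc (f a) (w a * w b) p else 0) / (p : ℝ))).trans ?_)
  unfold Vr MU
  simp only [sum_div]
  rw [sum_comm]
  refine sum_congr rfl fun a _ => ?_
  rw [sum_comm]
  refine sum_congr rfl fun b _ => ?_
  split_ifs with h
  · rw [mul_sum]
    refine sum_congr rfl fun p _ => ?_
    rw [mul_div_assoc]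
  · simp

lemma rho_all (f : I → ℤ[X]) (hf : ∀ a, Irreducible (f a)) : ∃ z0 : ℕ, ∀ z, z0 ≤ z → ∀ a,
    ∀ p : ℕ, p.Prime → z < p → rho (f a) p ≤ (f a).natDegree := by
  refine all_z fun a => ?_
  obtain ⟨B, hB⟩ := Pool.Agent.H474R2.PG.rho_le (f a) (hf a).ne_zero
  exact ⟨B, fun z hz p hp hzp => hB p hp (by omega)⟩

lemma vars (f w : I → ℤ[X]) (hf : ∀ a, Irreducible (f a)) {z1 : ℕ}
    (hc : Cop f z1) (S : I → I → ℝ)
    (hS : ∀ a b, f a = f b → Den (f a) (w a * w b) (S a b)) :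
    ∃ z0 : ℕ, ∀ z, z0 ≤ z → ∀ e : I → ℝ, Tendsto (fun n => (∑ p ∈ PPz z n, va (gs e f w p)) / ell n) atTop
      (𝓝 (Vr e f S)) := by
  classical
  obtain ⟨z2, hz2⟩ := rho_all f hf
  have h3 : ∀ x : I × I, ∃ z0 : ℕ, ∀ z, z0 ≤ z → (f x.1 = f x.2 →
      Tendsto (fun n => MU (f x.1) (w x.1 * w x.2) z (YY n) / ell n) atTop (𝓝 (S x.1 x.2))) := by
    intro x
    by_cases h : f x.1 = f x.2
    · obtain ⟨z0, hz0⟩ := tend_MU' (hS x.1 x.2 h)
      exact ⟨z0, fun z hz _ => hz0 z hz⟩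
    · exact ⟨0, fun z _ h' => absurd h' h⟩
  obtain ⟨z3, hz3⟩ := all_z h3
  refine ⟨z1 + z2 + z3 + 11, fun z hz e => ?_⟩
  have hcz : Cop f z := fun p hp hzp => hc p hp (by omega)
  have hz11 : 11 ≤ z := by omega
  set K := ∑ a, |e a| * ((f a).natDegree : ℝ) with hK
  have hK0 : 0 ≤ K := sum_nonneg fun a _ => by positivity
  -- the second moments
  have h4 : Tendsto (fun n => (∑ p ∈ PPz z n, avr univ (fun r => gs e f w p r ^ 2)) / ell n) atTop
      (𝓝 (Vr e f S)) := by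
    have h5 : Tendsto (fun n => ∑ a, ∑ b, (if f a = f b then e a * e b *
        (MU (f a) (w a * w b) z (YY n) / ell n) else 0)) atTop (𝓝 (Vr e f S)) := by
      unfold Vr
      refine tendsto_finsetSum _ fun a _ => tendsto_finsetSum _ fun b _ => ?_
      split_ifs with h
      · exact (hz3 z (by omega) (a, b) h).const_mul _
      · exact tendsto_const_nhds
    refine (tendsto_congr fun n => ?_).1 h5
    rw [sum_sq_gs e f w hz11 hcz]
    unfold Vr
    rw [sum_div]
    refine sum_congr rfl fun a _ => ?_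
    rw [sum_div]
    refine sum_congr rfl fun b _ => ?_
    split_ifs
    · rw [mul_div_assoc]
    · rw [zero_div]
  -- the squares of the means
  have h6 : ∀ n, ∑ p ∈ PPz z n, me (gs e f w p) ^ 2 ≤ 2 * K ^ 2 := by
    intro n
    have h7 : ∀ p ∈ PPz z n, me (gs e f w p) ^ 2 ≤ K ^ 2 * (1 / (p.1 : ℝ) ^ 2) := by
      intro p hp
      rw [me_gs, div_pow, div_eq_mul_one_div]
      refine mul_le_mul_of_nonneg_right ?_ (by positivity)
      rw [sq_le_sq, abs_of_nonneg hK0]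
      refine (abs_sum_le_sum_abs _ _).trans (sum_le_sum fun a _ => ?_)
      rw [abs_mul]
      refine mul_le_mul_of_nonneg_left ?_ (abs_nonneg _)
      refine (rc_abs _ _ _).trans ?_
      exact_mod_cast hz2 z (by omega) a p.1 p.2 (mem_PPz.1 hp).2
    refine (sum_le_sum h7).trans ?_
    rw [← mul_sum]
    have h8 : ∑ p ∈ PPz z n, 1 / (p.1 : ℝ) ^ 2 ≤ ∑ p ∈ PP n, 1 / (p.1 : ℝ) ^ 2 :=
      sum_le_sum_of_subset_of_nonneg (filter_subset _ _) fun _ _ _ => by positivity
    have h9 := sum_sq_inv n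
    nlinarith [sq_nonneg K]
  have h10 : Tendsto (fun n => (∑ p ∈ PPz z n, me (gs e f w p) ^ 2) / ell n) atTop (𝓝 0) := by
    refine squeeze_zero' ?_ ?_ (by simpa using ell_inv.const_mul (2 * K ^ 2))
    · filter_upwards [tendsto_ell.eventually_gt_atTop 0] with n hn
      exact div_nonneg (sum_nonneg fun _ _ => sq_nonneg _) hn.le
    · filter_upwards [tendsto_ell.eventually_gt_atTop 0] with n hn
      rw [div_eq_mul_inv]
      exact mul_le_mul_of_nonneg_right (h6 n) (inv_pos.2 hn).le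
  have h11 := h4.sub h10
  rw [sub_zero] at h11
  refine (tendsto_congr fun n => ?_).1 h11
  rw [← sub_div, ← sum_sub_distrib]
  congr 1
  refine sum_congr rfl fun p _ => ?_
  have : NeZero p.1 := ⟨p.2.ne_zero⟩
  exact (va_eq _).symm

/-- **the characteristic functions** -/
theorem char_sym (f w : I → ℤ[X]) (hf : ∀ a, Irreducible (f a)) {z1 : ℕ}
    (hc : Cop f z1) (S : I → I → ℝ)
    (hS : ∀ a b, f a = f b → Den (f a) (w a * w b) (S a b)) :
    ∃ z0 : ℕ, ∀ z, z0 ≤ z → ∀ (e : I → ℝ) (N : ℕ → ℤ),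
      Tendsto (fun n => av (Ioc (N n) (N n + (n : ℤ))) (fun t => Complex.exp (Complex.I *
      (((∑ p ∈ PPz z n, (FF e f w p.1 t - me (gs e f w p))) / √(ell n) : ℝ) : ℂ)))) atTop
      (𝓝 (Complex.exp (-(Vr e f S : ℂ) / 2))) := by
  obtain ⟨z0, hz0⟩ := vars f w hf hc S hS
  refine ⟨z0, fun z hz e N => ?_⟩
  have key := lim2 (R := fun p : Pr => ZMod p.1) (P := PPz z) (ρ := red1)
    (Ω := fun n => Ioc (N n) (N n + (n : ℤ))) (g := gs e f w)
    (C := ∑ a, |e a|) (fun p r => abs_gs e f w p r) tendsto_ell (hz0 z hz e) ?_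
  · refine (tendsto_congr fun n => ?_).1 key
    congr 1
    funext t
    congr 3
    refine congrArg (fun x => x / √(ell n)) ?_
    refine sum_congr rfl fun p _ => ?_
    rw [gs_red]
  · intro k
    refine ⟨fun n => (YY n : ℝ) ^ k / n, ?_, ?_⟩
    · filter_upwards [eventually_gt_atTop 0, tendsto_YY.eventually_ge_atTop 1] with n hn hY
      exact disc1 hY (fun i hi => (mem_PPz.1 hi).1.2) (N n) hn k
    · have h1 := YY_pow (2 * k)
      refine squeeze_zero (fun n => by positivity) (fun n => ?_) h1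
      have h2 : ((PPz z n).card : ℝ) ≤ YY n := by
        refine le_trans ?_ (card_PP n)
        exact_mod_cast card_le_card (filter_subset _ _)
      have h3 : ((PPz z n).card : ℝ) ^ k ≤ (YY n : ℝ) ^ k :=
        pow_le_pow_left₀ (Nat.cast_nonneg _) h2 k
      calc ((PPz z n).card : ℝ) ^ k * ((YY n : ℝ) ^ k / n) ≤
            (YY n : ℝ) ^ k * ((YY n : ℝ) ^ k / n) :=
            mul_le_mul_of_nonneg_right h3 (by positivity)
        _ = (YY n : ℝ) ^ (2 * k) / n := by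
            rw [show 2 * k = k + k from by ring, pow_add]
            ring

end Pool.Agent.X217.EK
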