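import Mathlib

/-!
# Bounds for the exponential function, for the method of moments
-/

set_option autoImplicit false

namespace Pool.Agent.X217.EK

open Finset Filter Topology Complex

/-- the remainder of the exponential series -/
noncomputable def rem (K : ℕ) (z : ℂ) : ℂ := cexp z - ∑ k ∈ range K, z ^ k / (k.factorial : ℂ)

lemma rem_deriv (K : ℕ) (z : ℂ) : HasDerivAt (rem (K + 1)) (rem K z) z := by
  unfold rem
  have h1 : HasDerivAt (fun z : ℂ => ∑ k ∈ range (K + 1), z ^ k / (k.factorial : ℂ))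
      (∑ k ∈ range (K + 1), (k : ℂ) * z ^ (k - 1) / (k.factorial : ℂ)) z := by
    apply HasDerivAt.fun_sum
    intro k _
    exact (hasDerivAt_pow k z).div_const _
  have h2 : ∑ k ∈ range (K + 1), (k : ℂ) * z ^ (k - 1) / (k.factorial : ℂ) =
      ∑ k ∈ range K, z ^ k / (k.factorial : ℂ) := by
    rw [sum_range_succ']
    simp only [Nat.cast_zero, zero_mul, zero_div, add_zero, Nat.add_sub_cancel]
    refine sum_congr rfl fun k _ => ?_
    rw [Nat.factorial_succ]
    push_cast
    have : (k : ℂ) + 1 ≠ 0 := by exact_mod_cast Nat.succ_ne_zero k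
    have h3 : (k.factorial : ℂ) ≠ 0 := by exact_mod_cast k.factorial_ne_zero
    field_simp
  rw [← h2]
  exact (Complex.hasDerivAt_exp z).sub h1

lemma rem_bound (x : ℝ) (K : ℕ) : ∀ t ∈ Set.Icc (0 : ℝ) 1,
    ‖rem K (I * (x * t))‖ ≤ |x| ^ K * t ^ K / (K.factorial : ℝ) := by
  induction K with
  | zero =>
    intro t _
    unfold rem
    have h1 : I * ((x : ℂ) * t) = I * ((x * t : ℝ) : ℂ) := by push_cast; ring
    rw [range_zero, sum_empty, sub_zero, h1, norm_exp_I_mul_ofReal]
    simp
  | succ K ih =>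
    have hd : ∀ t : ℝ, HasDerivAt (fun t : ℝ => rem (K + 1) (I * (x * t)))
        (rem K (I * (x * t)) * (I * x)) t := by
      intro t
      have h1 : HasDerivAt (fun t : ℝ => I * ((x : ℂ) * t)) (I * x) t := by
        have h2 : HasDerivAt (fun t : ℝ => (t : ℂ)) 1 t := Complex.ofRealCLM.hasDerivAt
        have h3 := (h2.const_mul (x : ℂ)).const_mul I
        simpa using h3
      exact HasDerivAt.comp_of_eq t (rem_deriv K _) h1 rfl
    refine image_norm_le_of_norm_deriv_right_le_deriv_boundary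
      (f' := fun t => rem K (I * (x * t)) * (I * x))
      (B' := fun t => |x| ^ (K + 1) * t ^ K / (K.factorial : ℝ))
      (fun t _ => (hd t).continuousAt.continuousWithinAt)
      (fun t _ => (hd t).hasDerivWithinAt) ?_ ?_ ?_
    · unfold rem
      rw [sum_range_succ']
      simp
    · intro t
      have h1 := ((hasDerivAt_pow (K + 1) t).const_mul (|x| ^ (K + 1))).div_const
        ((K + 1).factorial : ℝ)
      refine h1.congr_deriv ?_
      rw [Nat.factorial_succ]
      push_cast
      have : (K : ℝ) + 1 ≠ 0 := by exact_mod_cast Nat.succ_ne_zero K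
      have h3 : (K.factorial : ℝ) ≠ 0 := by exact_mod_cast K.factorial_ne_zero
      field_simp
    · intro t ht
      have h1 := ih t ⟨ht.1, ht.2.le⟩
      rw [norm_mul, norm_mul, Complex.norm_I, one_mul, Complex.norm_real, Real.norm_eq_abs]
      refine (mul_le_mul_of_nonneg_right h1 (abs_nonneg x)).trans (le_of_eq ?_)
      rw [pow_succ]
      ring

/-- the remainder at an imaginary number -/
theorem taylor (x : ℝ) (K : ℕ) :
    ‖cexp (I * x) - ∑ k ∈ range K, (I * (x : ℂ)) ^ k / (k.factorial : ℂ)‖ ≤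
      |x| ^ K / (K.factorial : ℝ) := by
  have h := rem_bound x K 1 ⟨zero_le_one, le_rfl⟩
  unfold rem at h
  simpa using h

/-- products of complex numbers in the unit disc -/
theorem prod_sub {ι : Type*} (P : Finset ι) (z w : ι → ℂ) (hz : ∀ i ∈ P, ‖z i‖ ≤ 1)
    (hw : ∀ i ∈ P, ‖w i‖ ≤ 1) : ‖∏ i ∈ P, z i - ∏ i ∈ P, w i‖ ≤ ∑ i ∈ P, ‖z i - w i‖ := by
  classical
  induction P using Finset.induction_on with
  | empty => simp
  | insert a s ha ih =>
    rw [prod_insert ha, prod_insert ha, sum_insert ha]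
    have h1 := ih (fun i hi => hz i (mem_insert_of_mem hi)) (fun i hi => hw i (mem_insert_of_mem hi))
    have h2 : z a * ∏ i ∈ s, z i - w a * ∏ i ∈ s, w i =
        (z a - w a) * ∏ i ∈ s, z i + w a * (∏ i ∈ s, z i - ∏ i ∈ s, w i) := by ring
    rw [h2]
    refine (norm_add_le _ _).trans (add_le_add ?_ ?_)
    · rw [norm_mul]
      have h3 : ‖∏ i ∈ s, z i‖ ≤ 1 := by
        rw [norm_prod]
        exact prod_le_one (fun _ _ => norm_nonneg _) fun i hi => hz i (mem_insert_of_mem hi)
      exact mul_le_of_le_one_right (norm_nonneg _) h3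
    · rw [norm_mul]
      have h3 := hw a (mem_insert_self a s)
      calc ‖w a‖ * ‖∏ i ∈ s, z i - ∏ i ∈ s, w i‖ ≤ 1 * ‖∏ i ∈ s, z i - ∏ i ∈ s, w i‖ :=
            mul_le_mul_of_nonneg_right h3 (norm_nonneg _)
        _ ≤ _ := by rw [one_mul]; exact h1

end Pool.Agent.X217.EK
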